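import Pool.Agent.TH524.Poly

/-!
# Connectedness of the part of the skeleton off a forbidden hull
-/

set_option autoImplicit false

open Set Module

namespace Pool.Agent.TH524

section graph

variable {E : Type*} [NormedAddCommGroup E] [NormedSpace ℝ E] {ι : Type*} [Fintype ι]
  {a : ι → E →ₗ[ℝ] ℝ} {b : ι → ℝ} {P : Set E} {p : E → Prop}

/-- The skeleton on the extreme points not satisfying `p`. -/
abbrev skel (P : Set E) (p : E → Prop) :
    SimpleGraph {x : E // x ∈ extremePoints ℝ P ∧ ¬ p x} :=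
  SimpleGraph.fromRel (fun u v : {x : E // x ∈ extremePoints ℝ P ∧ ¬ p x} =>
    IsExtreme ℝ P (segment ℝ u.1 v.1))

/-- Some extreme point maximises `f`. -/
theorem exists_max_ext (hP : P = {x | ∀ t, 0 ≤ a t x + b t})
    (hrec : ∀ d, (∀ t, 0 ≤ a t d) → d = 0) (hc : IsCompact P) (hne : P.Nonempty)
    (f : E →ₗ[ℝ] ℝ) : ∃ v ∈ extremePoints ℝ P, ∀ x ∈ P, f x ≤ f v := by
  obtain ⟨v, hv, hmax⟩ := Set.exists_max_image (extremePoints ℝ P) f (finite_ext hP)
    (hc.extremePoints_nonempty hne)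
  refine ⟨v, hv, fun x hx => ?_⟩
  by_contra hlt
  push Not at hlt
  obtain ⟨v', hv', hlt', -⟩ := exists_edge hP hrec hv f hx hlt
  exact absurd (hmax v' hv') (not_le.mpr hlt')

/-- Ascending from `v` inside `{f > c}` one reaches a maximiser of `f`. -/
theorem reach_max (hP : P = {x | ∀ t, 0 ≤ a t x + b t})
    (hrec : ∀ d, (∀ t, 0 ≤ a t d) → d = 0) (f : E →ₗ[ℝ] ℝ) (c : ℝ)
    (hf : ∀ x ∈ P, p x → f x ≤ c) (v : {x : E // x ∈ extremePoints ℝ P ∧ ¬ p x})
    (hv : c < f v.1) :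
    ∃ w : {x : E // x ∈ extremePoints ℝ P ∧ ¬ p x}, (skel P p).Reachable v w ∧
      ∀ x ∈ P, f x ≤ f w.1 := by
  have hfin : {w : E | ∃ h : w ∈ extremePoints ℝ P ∧ ¬ p w,
      (skel P p).Reachable v ⟨w, h⟩ ∧ f v.1 ≤ f w}.Finite :=
    (finite_ext hP).subset (fun w ⟨h, _⟩ => h.1)
  obtain ⟨w, ⟨hw, hreach, hle⟩, hmax⟩ := Set.exists_max_image _ f hfin
    ⟨v.1, v.2, SimpleGraph.Reachable.refl _, le_rfl⟩
  refine ⟨⟨w, hw⟩, hreach, fun x hx => ?_⟩
  by_contra hlt
  push Not at hlt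
  obtain ⟨w', hw', hlt', hext⟩ := exists_edge hP hrec hw.1 f hx hlt
  have hpw' : ¬ p w' := fun hp => by
    have := hf w' hw'.1 hp
    linarith
  have hadj : (skel P p).Adj ⟨w, hw⟩ ⟨w', hw', hpw'⟩ := by
    rw [SimpleGraph.fromRel_adj]
    refine ⟨?_, Or.inl hext⟩
    intro heq
    have : w = w' := congrArg Subtype.val heq
    rw [this] at hlt'
    exact lt_irrefl _ hlt'
  have := hmax w' ⟨⟨hw', hpw'⟩, hreach.trans hadj.reachable, by linarith⟩
  linarith

/-- Every point of `{f > c}` reaches a given maximiser of `f`. -/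
theorem reach_top (hP : P = {x | ∀ t, 0 ≤ a t x + b t})
    (hrec : ∀ d, (∀ t, 0 ≤ a t d) → d = 0) (f : E →ₗ[ℝ] ℝ) (c : ℝ)
    (hf : ∀ x ∈ P, p x → f x ≤ c) (w v : {x : E // x ∈ extremePoints ℝ P ∧ ¬ p x})
    (hw : ∀ x ∈ P, f x ≤ f w.1) (hv : c < f v.1) :
    (skel P p).Reachable v w := by
  classical
  have hwP : w.1 ∈ P := w.2.1.1
  have hve := (ext_iff hP hwP).mp w.2.1
  -- the exposing functional
  let g : E →ₗ[ℝ] ℝ := - ∑ t ∈ Finset.univ.filter (fun t => a t w.1 + b t = 0), a t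
  have hg : ∀ x, g x = - ∑ t ∈ Finset.univ.filter (fun t => a t w.1 + b t = 0), a t x := by
    intro x
    simp [g]
  have hgle : ∀ x ∈ P, g x ≤ g w.1 := by
    intro x hx
    rw [hg, hg]
    apply neg_le_neg
    apply Finset.sum_le_sum
    intro t ht
    rw [Finset.mem_filter] at ht
    have h1 : 0 ≤ a t x + b t := by rw [hP] at hx; exact hx t
    linarith [ht.2]
  have hgeq : ∀ x ∈ P, g w.1 ≤ g x → x = w.1 := by
    intro x hx hle
    rw [hg, hg, neg_le_neg_iff] at hle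
    have h1 : ∀ t ∈ Finset.univ.filter (fun t => a t w.1 + b t = 0), a t w.1 ≤ a t x := by
      intro t ht
      rw [Finset.mem_filter] at ht
      have h1 : 0 ≤ a t x + b t := by rw [hP] at hx; exact hx t
      linarith [ht.2]
    have h2 := (Finset.sum_eq_sum_iff_of_le h1).mp
      (le_antisymm (Finset.sum_le_sum h1) hle)
    have h3 := hve (x - w.1) (by
      intro t ht
      rw [map_sub, h2 t (by simp [ht]), sub_self])
    exact sub_eq_zero.mp h3
  -- the perturbed functional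
  obtain ⟨ε, hε, hεv⟩ : ∃ ε : ℝ, 0 < ε ∧ c < f v.1 + ε * (g v.1 - g w.1) := by
    have hgv := hgle v.1 v.2.1.1
    by_cases h0 : g v.1 - g w.1 = 0
    · exact ⟨1, one_pos, by rw [h0]; linarith⟩
    · have hneg : 0 < g w.1 - g v.1 := by
        rcases hgv.lt_or_eq with h | h
        · linarith
        · exact absurd (by linarith) h0
      refine ⟨(f v.1 - c) / (2 * (g w.1 - g v.1)), by
        apply div_pos <;> linarith, ?_⟩
      have : (f v.1 - c) / (2 * (g w.1 - g v.1)) * (g v.1 - g w.1) = - (f v.1 - c) / 2 := by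
        field_simp
        ring
      rw [this]
      linarith
  obtain ⟨w', hreach, hmax⟩ := reach_max (p := p) hP hrec (f + ε • g) (c + ε * g w.1) (by
    intro x hx hp
    have h1 := hf x hx hp
    have h2 := hgle x hx
    simp only [LinearMap.add_apply, LinearMap.smul_apply, smul_eq_mul]
    nlinarith) v (by
    simp only [LinearMap.add_apply, LinearMap.smul_apply, smul_eq_mul]
    linarith)
  have h1 := hmax w.1 hwP
  simp only [LinearMap.add_apply, LinearMap.smul_apply, smul_eq_mul] at h1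
  have h2 := hw w'.1 w'.2.1.1
  have h3 : g w.1 ≤ g w'.1 := by
    have : ε * g w.1 ≤ ε * g w'.1 := by linarith
    exact le_of_mul_le_mul_left this hε
  have h4 : w' = w := Subtype.ext (hgeq w'.1 w'.2.1.1 h3)
  rw [← h4]
  exact hreach

/-- Any two points of `{f > c}` are joined. -/
theorem reach_cap (hP : P = {x | ∀ t, 0 ≤ a t x + b t})
    (hrec : ∀ d, (∀ t, 0 ≤ a t d) → d = 0) (f : E →ₗ[ℝ] ℝ) (c : ℝ)
    (hf : ∀ x ∈ P, p x → f x ≤ c) (v w : {x : E // x ∈ extremePoints ℝ P ∧ ¬ p x})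
    (hv : c < f v.1) (hw : c < f w.1) :
    (skel P p).Reachable v w := by
  obtain ⟨t, hvt, ht⟩ := reach_max hP hrec f c hf v hv
  exact hvt.trans (reach_top hP hrec f c hf t w ht hw).symm

/-- Points `v` of the skeleton seen from `x`. -/
def Sees (P Q : Set E) (p : E → Prop) (x : E)
    (v : {x : E // x ∈ extremePoints ℝ P ∧ ¬ p x}) : Prop :=
  Disjoint Q (segment ℝ x v.1)

theorem exists_cap_vertex (hP : P = {x | ∀ t, 0 ≤ a t x + b t})
    (hrec : ∀ d, (∀ t, 0 ≤ a t d) → d = 0) (hc : IsCompact P) (f : E →ₗ[ℝ] ℝ) (c : ℝ)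
    (hf : ∀ x ∈ P, p x → f x ≤ c) {x : E} (hx : x ∈ P) (hfx : c < f x) :
    ∃ v : {x : E // x ∈ extremePoints ℝ P ∧ ¬ p x}, c < f v.1 := by
  obtain ⟨v, hv, hmax⟩ := exists_max_ext hP hrec hc ⟨x, hx⟩ f
  have h1 := hmax x hx
  refine ⟨⟨v, hv, fun hp => ?_⟩, by simp only; linarith⟩
  have := hf v hv.1 hp
  linarith

/-- All the vertices seen from `x` lie in one component. -/
theorem reach_of_sees (hP : P = {x | ∀ t, 0 ≤ a t x + b t})
    (hrec : ∀ d, (∀ t, 0 ≤ a t d) → d = 0) (hc : IsCompact P) {Q : Set E}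
    (hQc : IsClosed Q) (hQconv : Convex ℝ Q) (hpQ : ∀ x, p x → x ∈ Q)
    {x : E} (hx : x ∈ P) (v w : {x : E // x ∈ extremePoints ℝ P ∧ ¬ p x})
    (hv : Sees P Q p x v) (hw : Sees P Q p x w) : (skel P p).Reachable v w := by
  have hcs : ∀ y : E, IsCompact (segment ℝ x y) := by
    intro y
    rw [← convexHull_pair]
    exact Set.Finite.isCompact_convexHull ℝ (Set.toFinite _)
  obtain ⟨f1, s1, c1, hf1, hs1, hg1⟩ := geometric_hahn_banach_closed_compact hQconv hQc
    (convex_segment x v.1) (hcs v.1) hv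
  obtain ⟨f2, s2, c2, hf2, hs2, hg2⟩ := geometric_hahn_banach_closed_compact hQconv hQc
    (convex_segment x w.1) (hcs w.1) hw
  -- the interpolated functionals
  let F : ℝ → E →ₗ[ℝ] ℝ := fun s => (1 - s) • (f1 : E →ₗ[ℝ] ℝ) + s • (f2 : E →ₗ[ℝ] ℝ)
  let C : ℝ → ℝ := fun s => (1 - s) * s1 + s * s2
  have hF : ∀ s y, F s y = (1 - s) * f1 y + s * f2 y := by intro s y; simp [F]
  have hfQ : ∀ s ∈ Icc (0:ℝ) 1, ∀ y ∈ P, p y → F s y ≤ C s := by
    intro s hs y _ hy
    rw [hF]
    have h1 := hf1 y (hpQ y hy)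
    have h2 := hf2 y (hpQ y hy)
    simp only [C]
    nlinarith [hs.1, hs.2]
  have hx1 : c1 < f1 x := hg1 x (left_mem_segment ℝ x v.1)
  have hx2 : c2 < f2 x := hg2 x (left_mem_segment ℝ x w.1)
  have hFx : ∀ s ∈ Icc (0:ℝ) 1, C s < F s x := by
    intro s hs
    rw [hF]
    simp only [C]
    rcases hs.1.eq_or_lt with h0 | h0
    · rw [← h0]; simp; linarith
    · nlinarith [hs.1, hs.2, mul_nonneg (sub_nonneg.mpr hs.2) (by linarith : 0 ≤ f1 x - s1),
        mul_pos h0 (by linarith : 0 < f2 x - s2)]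
  have hex : ∀ s : Icc (0:ℝ) 1, ∃ u : {x : E // x ∈ extremePoints ℝ P ∧ ¬ p x},
      C s < F s u.1 := fun s =>
    exists_cap_vertex hP hrec hc (F s) (C s) (hfQ s s.2) hx (hFx s s.2)
  choose u hu using hex
  have hloc : IsLocallyConstant (fun s : Icc (0:ℝ) 1 => (skel P p).connectedComponentMk (u s)) := by
    rw [IsLocallyConstant.iff_eventually_eq]
    intro s
    have hcont : Continuous (fun s' : Icc (0:ℝ) 1 => F s' (u s).1 - C s') := by
      simp only [hF, C]
      fun_prop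
    have hpos : 0 < F s (u s).1 - C s := by linarith [hu s]
    have hev : ∀ᶠ s' : Icc (0:ℝ) 1 in nhds s, 0 < F s' (u s).1 - C s' :=
      hcont.continuousAt.eventually (lt_mem_nhds hpos)
    filter_upwards [hev] with s' hs'
    rw [SimpleGraph.ConnectedComponent.eq]
    exact reach_cap hP hrec (F s') (C s') (hfQ s' s'.2) _ _ (hu s') (by linarith)
  have hconst := hloc.apply_eq_of_preconnectedSpace ⟨0, by simp⟩ ⟨1, by simp⟩
  rw [SimpleGraph.ConnectedComponent.eq] at hconst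
  have h0 : (skel P p).Reachable v (u ⟨0, by simp⟩) := by
    apply reach_cap hP hrec (F 0) (C 0) (hfQ 0 (by simp)) _ _ _ (hu ⟨0, by simp⟩)
    rw [hF]
    have := hg1 v.1 (right_mem_segment ℝ x v.1)
    simp only [C]
    linarith
  have h1 : (skel P p).Reachable w (u ⟨1, by simp⟩) := by
    apply reach_cap hP hrec (F 1) (C 1) (hfQ 1 (by simp)) _ _ _ (hu ⟨1, by simp⟩)
    rw [hF]
    have := hg2 w.1 (right_mem_segment ℝ x w.1)
    simp only [C]
    linarith
  exact (h0.trans hconst).trans h1.symm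

/-- Two points joined by a segment off `Q` see a common vertex. -/
theorem exists_common (hP : P = {x | ∀ t, 0 ≤ a t x + b t})
    (hrec : ∀ d, (∀ t, 0 ≤ a t d) → d = 0) (hc : IsCompact P) {Q : Set E}
    (hQc : IsClosed Q) (hQconv : Convex ℝ Q) (hpQ : ∀ x, p x → x ∈ Q)
    {x y : E} (hx : x ∈ P) (hxy : Disjoint Q (segment ℝ x y)) :
    ∃ v : {x : E // x ∈ extremePoints ℝ P ∧ ¬ p x}, Sees P Q p x v ∧ Sees P Q p y v := by
  have hcs : IsCompact (segment ℝ x y) := by
    rw [← convexHull_pair]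
    exact Set.Finite.isCompact_convexHull ℝ (Set.toFinite _)
  obtain ⟨f, s, c, hf, hs, hg⟩ := geometric_hahn_banach_closed_compact hQconv hQc
    (convex_segment x y) hcs hxy
  have hx1 : c < f x := hg x (left_mem_segment ℝ x y)
  have hy1 : c < f y := hg y (right_mem_segment ℝ x y)
  obtain ⟨v, hv⟩ := exists_cap_vertex (p := p) hP hrec hc (f : E →ₗ[ℝ] ℝ) s
    (fun z _ hz => (hf z (hpQ z hz)).le) hx (by
      show s < f x
      linarith)
  have hv' : s < f v.1 := hv
  have key : ∀ z : E, s < f z → Sees P Q p z v := by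
    intro z hz
    rw [Sees, Set.disjoint_left]
    rintro q hq ⟨α, β, hα, hβ, hαβ, hqe⟩
    have h1 := hf q hq
    rw [← hqe, map_add, map_smul, map_smul, smul_eq_mul, smul_eq_mul] at h1
    have : s = (α + β) * s := by rw [hαβ, one_mul]
    nlinarith
  exact ⟨v, key x (by linarith), key y (by linarith)⟩

/-- The main criterion. -/
theorem graph_connected (hP : P = {x | ∀ t, 0 ≤ a t x + b t})
    (hrec : ∀ d, (∀ t, 0 ≤ a t d) → d = 0) (hc : IsCompact P) {C : Set E} (hC : C.Finite)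
    (hCP : C ⊆ P) (hp : ∀ x, p x ↔ x ∈ C) (hne : ∃ x ∈ P, x ∉ convexHull ℝ C)
    (hconn : ∀ x ∈ P, x ∉ convexHull ℝ C → ∀ y ∈ P, y ∉ convexHull ℝ C →
      Relation.ReflTransGen (fun x y => y ∈ P ∧
        Disjoint (convexHull ℝ C) (segment ℝ x y)) x y) :
    (skel P p).Connected := by
  set Q := convexHull ℝ C with hQ
  have hQc : IsClosed Q := (hC.isCompact_convexHull ℝ).isClosed
  have hQconv : Convex ℝ Q := convex_convexHull ℝ C
  have hpQ : ∀ x, p x → x ∈ Q := fun x hx => subset_convexHull ℝ C ((hp x).mp hx)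
  have hconvP : Convex ℝ P := by
    rw [hP]
    intro x hx y hy α β hα hβ hαβ t
    simp only [map_add, map_smul, smul_eq_mul]
    have h1 := mul_nonneg hα (hx t)
    have h2 := mul_nonneg hβ (hy t)
    have : b t = (α + β) * b t := by rw [hαβ, one_mul]
    nlinarith
  have hQP : Q ⊆ P := convexHull_min hCP hconvP
  have hnQ : ∀ v : {x : E // x ∈ extremePoints ℝ P ∧ ¬ p x}, v.1 ∉ Q := by
    intro v hv
    have h1 : v.1 ∈ extremePoints ℝ Q :=
      inter_extremePoints_subset_extremePoints_of_subset hQP ⟨hv, v.2.1⟩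
    exact v.2.2 ((hp _).mpr (extremePoints_convexHull_subset h1))
  have hself : ∀ v : {x : E // x ∈ extremePoints ℝ P ∧ ¬ p x}, Sees P Q p v.1 v := by
    intro v
    rw [Sees, segment_same, Set.disjoint_singleton_right]
    exact hnQ v
  -- propagate along chains
  have key : ∀ x ∈ P, ∀ y, Relation.ReflTransGen (fun x y => y ∈ P ∧
        Disjoint Q (segment ℝ x y)) x y → y ∈ P ∧
      ∀ v w : {x : E // x ∈ extremePoints ℝ P ∧ ¬ p x}, Sees P Q p x v → Sees P Q p y w →
        (skel P p).Reachable v w := by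
    intro x hx y hxy
    induction hxy with
    | refl =>
      exact ⟨hx, fun v w hv hw => reach_of_sees hP hrec hc hQc hQconv hpQ hx v w hv hw⟩
    | tail _ hbc ih =>
      obtain ⟨hyP, ih⟩ := ih
      obtain ⟨hzP, hdisj⟩ := hbc
      obtain ⟨u, hu1, hu2⟩ := exists_common (p := p) hP hrec hc hQc hQconv hpQ hyP hdisj
      exact ⟨hzP, fun v w hv hw => (ih v u hv hu1).trans
        (reach_of_sees hP hrec hc hQc hQconv hpQ hzP u w hu2 hw)⟩
  rw [SimpleGraph.connected_iff]
  constructor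
  · intro v w
    exact (key v.1 v.2.1.1 w.1 (hconn v.1 v.2.1.1 (hnQ v) w.1 w.2.1.1 (hnQ w))).2 v w
      (hself v) (hself w)
  · obtain ⟨x, hx, hxQ⟩ := hne
    obtain ⟨v, -, -⟩ := exists_common (p := p) (y := x) hP hrec hc hQc hQconv hpQ hx (by
      rw [segment_same, Set.disjoint_singleton_right]
      exact hxQ)
    exact ⟨v⟩

end graph

end Pool.Agent.TH524
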