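import Pool.Agent.TH524.Contra
import Pool.Agent.TH524.PolyGraph

/-!
# The metric polytope minus the cut polytope is connected
-/

set_option autoImplicit false

open Set

namespace Pool.Agent.TH524

section finish

variable {V : Type*} [Fintype V] [DecidableEq V]

/-- Every point of the metric polytope off the cut polytope reaches a violator. -/
theorem reach_bad {x : V → V → ℝ} (hx : x ∈ MPol V) (hxC : x ∉ CUT V) :
    ∃ z, Relation.ReflTransGen (Step (V := V)) x z ∧ Bad z := by
  by_contra hcon
  push Not at hcon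
  obtain ⟨E, y, H⟩ := exists_core (V := V) ⟨x, hx, hxC, hcon⟩
  exact core_false H

omit [Fintype V] [DecidableEq V] in
theorem Step.rev {x y : V → V → ℝ} (hx : x ∈ MPol V) (h : Step x y) : Step y x :=
  ⟨hx, by rw [segment_symm]; exact h.2⟩

omit [Fintype V] [DecidableEq V] in
theorem rtg_rev {x z : V → V → ℝ} (hx : x ∈ MPol V)
    (h : Relation.ReflTransGen (Step (V := V)) x z) :
    z ∈ MPol V ∧ Relation.ReflTransGen (Step (V := V)) z x := by
  induction h with
  | refl => exact ⟨hx, Relation.ReflTransGen.refl⟩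
  | tail _ hbc ih => exact ⟨hbc.1, Relation.ReflTransGen.head (hbc.rev ih.1) ih.2⟩

omit [Fintype V] [DecidableEq V] in
/-- Two violators of the same inequality are joined. -/
theorem step_of_pent {x y : V → V → ℝ} (hy : y ∈ MPol V) {p0 p1 p2 p3 p4 : V × Bool}
    (h1 : 6 < pent x p0 p1 p2 p3 p4) (h2 : 6 < pent y p0 p1 p2 p3 p4) : Step x y := by
  refine ⟨hy, ?_⟩
  rw [Set.disjoint_left]
  rintro z hz ⟨α, β, hα, hβ, hαβ, rfl⟩
  have h := pent_CUT hz p0 p1 p2 p3 p4
  rw [pent_convex x y α β hαβ] at h
  rcases hα.eq_or_lt with h3 | h3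
  · have : β = 1 := by linarith
    rw [← h3, this] at h
    linarith
  · nlinarith

omit [Fintype V] in
/-- A violator is joined to an anticut. -/
theorem bad_anti {z : V → V → ℝ} (hz : Bad z) : ∃ s : V → Bool, Step z (anti s) := by
  obtain ⟨p0, p1, p2, p3, p4, hd, hlt⟩ := hz
  obtain ⟨s, h0, h1, h2, h3, h4⟩ := exists_sign hd
  exact ⟨s, step_of_pent (anti_mem s) hlt (by rw [pent_anti hd h0 h1 h2 h3 h4]; norm_num)⟩

omit [Fintype V] in
/-- Five distinct elements. -/
theorem exists_five {N : Finset V} (h : 5 ≤ N.card) : ∃ a ∈ N, ∃ b ∈ N, ∃ c ∈ N, ∃ d ∈ N,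
    ∃ e ∈ N, a ≠ b ∧ a ≠ c ∧ a ≠ d ∧ a ≠ e ∧ b ≠ c ∧ b ≠ d ∧ b ≠ e ∧ c ≠ d ∧ c ≠ e ∧ d ≠ e := by
  obtain ⟨a, ha⟩ : N.Nonempty := by rw [← Finset.card_pos]; omega
  have h1 : 4 ≤ (N.erase a).card := by rw [Finset.card_erase_of_mem ha]; omega
  obtain ⟨b, hb⟩ : (N.erase a).Nonempty := by rw [← Finset.card_pos]; omega
  have h2 : 2 < ((N.erase a).erase b).card := by rw [Finset.card_erase_of_mem hb]; omega
  obtain ⟨c, hc, d, hd, e, he, hcd, hce, hde⟩ := Finset.two_lt_card.mp h2
  simp only [Finset.mem_erase] at hb hc hd he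
  exact ⟨a, ha, b, hb.2, c, hc.2.2, d, hd.2.2, e, he.2.2, hb.1.symm, hc.2.1.symm, hd.2.1.symm,
    he.2.1.symm, hc.1.symm, hd.1.symm, he.1.symm, hcd, hce, hde⟩

/-- Anticuts of sign vectors differing at one place are joined. -/
theorem flip_step (hV : 6 ≤ Fintype.card V) (s : V → Bool) (j : V) (b : Bool) :
    Step (anti s) (anti (Function.update s j b)) := by
  have hcard : 5 ≤ (Finset.univ.erase j).card := by
    rw [Finset.card_erase_of_mem (Finset.mem_univ j), Finset.card_univ]
    omega
  obtain ⟨a1, h1, a2, h2, a3, h3, a4, h4, a5, h5, n12, n13, n14, n15, n23, n24, n25, n34, n35,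
    n45⟩ := exists_five hcard
  simp only [Finset.mem_erase, Finset.mem_univ, and_true] at h1 h2 h3 h4 h5
  have hd : distinct5 (a1, s a1) (a2, s a2) (a3, s a3) (a4, s a4) (a5, s a5) :=
    ⟨n12, n13, n14, n15, n23, n24, n25, n34, n35, n45⟩
  apply step_of_pent (anti_mem _) (p0 := (a1, s a1)) (p1 := (a2, s a2)) (p2 := (a3, s a3))
    (p3 := (a4, s a4)) (p4 := (a5, s a5))
  · rw [pent_anti hd rfl rfl rfl rfl rfl]; norm_num
  · rw [pent_anti hd (Function.update_of_ne h1 _ _) (Function.update_of_ne h2 _ _)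
      (Function.update_of_ne h3 _ _) (Function.update_of_ne h4 _ _)
      (Function.update_of_ne h5 _ _)]
    norm_num

/-- All anticuts are joined. -/
theorem anti_conn (hV : 6 ≤ Fintype.card V) (s s' : V → Bool) :
    Relation.ReflTransGen (Step (V := V)) (anti s) (anti s') := by
  have key : ∀ T : Finset V, Relation.ReflTransGen (Step (V := V)) (anti s)
      (anti (fun i => if i ∈ T then s' i else s i)) := by
    intro T
    induction T using Finset.induction_on with
    | empty => simpa using Relation.ReflTransGen.refl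
    | insert j T hj ih =>
      have h1 : (fun i => if i ∈ insert j T then s' i else s i) =
          Function.update (fun i => if i ∈ T then s' i else s i) j (s' j) := by
        funext i
        by_cases hij : i = j
        · subst hij
          simp
        · rw [Function.update_of_ne hij]
          simp [Finset.mem_insert, hij]
      rw [h1]
      exact ih.tail (flip_step hV _ j (s' j))
  simpa using key Finset.univ

/-- The complement of the cut polytope in the metric polytope is connected through segments. -/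
theorem all_conn (hV : 6 ≤ Fintype.card V) {x y : V → V → ℝ} (hx : x ∈ MPol V) (hxC : x ∉ CUT V)
    (hy : y ∈ MPol V) (hyC : y ∉ CUT V) : Relation.ReflTransGen (Step (V := V)) x y := by
  obtain ⟨z, hz, hzB⟩ := reach_bad hx hxC
  obtain ⟨z', hz', hzB'⟩ := reach_bad hy hyC
  obtain ⟨s, hs⟩ := bad_anti hzB
  obtain ⟨s', hs'⟩ := bad_anti hzB'
  have h1 := (hz.tail hs).trans (anti_conn hV s s')
  have h2 := rtg_rev hy (hz'.tail hs')
  exact h1.trans h2.2

/-- The constraint functionals. -/
def evl (i j : V) : (V → V → ℝ) →ₗ[ℝ] ℝ where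
  toFun x := x i j
  map_add' := by intros; rfl
  map_smul' := by intros; rfl

omit [Fintype V] [DecidableEq V] in
@[simp] theorem evl_apply (i j : V) (x : V → V → ℝ) : evl i j x = x i j := rfl

/-- The index set of the constraints. -/
abbrev CIdx (V : Type*) := V ⊕ V ⊕ (V × V) ⊕ (V × V × V) ⊕ (V × V × V)

/-- The linear parts. -/
def conA : CIdx V → (V → V → ℝ) →ₗ[ℝ] ℝ
  | .inl i => evl i i
  | .inr (.inl i) => - evl i i
  | .inr (.inr (.inl t)) => evl t.1 t.2 - evl t.2 t.1
  | .inr (.inr (.inr (.inl t))) => evl t.1 t.2.2 + evl t.2.2 t.2.1 - evl t.1 t.2.1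
  | .inr (.inr (.inr (.inr t))) => -(evl t.1 t.2.1 + evl t.1 t.2.2 + evl t.2.1 t.2.2)

/-- The constants. -/
def conB : CIdx V → ℝ
  | .inl _ => 0
  | .inr (.inl _) => 0
  | .inr (.inr (.inl _)) => 0
  | .inr (.inr (.inr (.inl _))) => 0
  | .inr (.inr (.inr (.inr _))) => 2

omit [Fintype V] [DecidableEq V] in
theorem MPol_eq : MPol V = {x | ∀ t : CIdx V, 0 ≤ conA t x + conB t} := by
  ext x
  constructor
  · rintro ⟨h0, hs, ht, h2⟩ t
    rcases t with i | i | ⟨i, j⟩ | ⟨i, j, k⟩ | ⟨i, j, k⟩
    · simp [conA, conB, h0]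
    · simp [conA, conB, h0]
    · simp [conA, conB, hs i j]
    · have := ht i j k
      simp [conA, conB]
      linarith
    · have := h2 i j k
      simp [conA, conB]
      linarith
  · intro h
    refine ⟨?_, ?_, ?_, ?_⟩
    · intro i
      have h1 := h (.inl i)
      have h2 := h (.inr (.inl i))
      simp [conA, conB] at h1 h2
      linarith
    · intro i j
      have h1 := h (.inr (.inr (.inl (i, j))))
      have h2 := h (.inr (.inr (.inl (j, i))))
      simp [conA, conB] at h1 h2
      linarith
    · intro i j k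
      have h1 := h (.inr (.inr (.inr (.inl (i, j, k)))))
      simp [conA, conB] at h1
      linarith
    · intro i j k
      have h1 := h (.inr (.inr (.inr (.inr (i, j, k)))))
      simp [conA, conB] at h1
      linarith

omit [Fintype V] [DecidableEq V] in
theorem con_rec (d : V → V → ℝ) (h : ∀ t : CIdx V, 0 ≤ conA t d) : d = 0 := by
  have h0 : ∀ i, d i i = 0 := by
    intro i
    have h1 := h (.inl i)
    have h2 := h (.inr (.inl i))
    simp [conA] at h1 h2
    linarith
  have hs : ∀ i j, d i j = d j i := by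
    intro i j
    have h1 := h (.inr (.inr (.inl (i, j))))
    have h2 := h (.inr (.inr (.inl (j, i))))
    simp [conA] at h1 h2
    linarith
  funext i j
  have h1 := h (.inr (.inr (.inr (.inl (i, i, j)))))
  have h2 := h (.inr (.inr (.inr (.inr (i, j, j)))))
  simp [conA] at h1 h2
  rw [h0] at h1 h2
  rw [hs j i] at h1
  show d i j = 0
  linarith

/-- The main theorem, in general form. -/
theorem main (hV : 6 ≤ Fintype.card V) (p : (V → V → ℝ) → Prop)
    (hp : ∀ x, p x ↔ x ∈ range (cutv : (V → Bool) → V → V → ℝ)) :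
    (skel (MPol V) p).Connected := by
  apply graph_connected (a := conA) (b := conB) MPol_eq con_rec isCompact_MPol
    (Set.finite_range (cutv : (V → Bool) → V → V → ℝ))
    (by rintro _ ⟨s, rfl⟩; exact cutv_mem s) hp
  · refine ⟨anti (fun _ => false), anti_mem _, ?_⟩
    intro hC
    obtain ⟨a1, -, a2, -, a3, -, a4, -, a5, -, n12, n13, n14, n15, n23, n24, n25, n34, n35,
      n45⟩ := exists_five (N := (Finset.univ : Finset V)) (by rw [Finset.card_univ]; omega)
    have hd : distinct5 (a1, false) (a2, false) (a3, false) (a4, false) (a5, false) :=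
      ⟨n12, n13, n14, n15, n23, n24, n25, n34, n35, n45⟩
    have h1 := pent_CUT hC (a1, false) (a2, false) (a3, false) (a4, false) (a5, false)
    rw [pent_anti hd rfl rfl rfl rfl rfl] at h1
    norm_num at h1
  · intro x hx hxC y hy hyC
    exact all_conn hV hx hxC hy hyC

end finish

end Pool.Agent.TH524
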