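import Pool.Agent.TH524.Metric

/-!
# Chains and the maximal antipodal extension
-/

set_option autoImplicit false

open Set

namespace Pool.Agent.TH524

/-- `Ch ℓ p q t`: there is a chain from `p` to `q` of total length `t`. -/
inductive Ch {P : Type*} (ℓ : P → P → ℝ) : P → P → ℝ → Prop
  | nil (p : P) : Ch ℓ p p 0
  | cons (p q r : P) (t : ℝ) (h : Ch ℓ q r t) : Ch ℓ p r (ℓ p q + t)

section chains

variable {P : Type*} {ℓ : P → P → ℝ}

theorem Ch.append {p q r : P} {t s : ℝ} (h : Ch ℓ p q t) (h' : Ch ℓ q r s) :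
    Ch ℓ p r (t + s) := by
  induction h with
  | nil p => simpa using h'
  | cons a b c u _ ih =>
    rw [add_assoc]
    exact Ch.cons a b r _ (ih h')

theorem Ch.one (p q : P) : Ch ℓ p q (ℓ p q) := by
  have := Ch.cons (ℓ := ℓ) p q q 0 (Ch.nil q)
  simpa using this

theorem Ch.rev (hs : ∀ p q, ℓ p q = ℓ q p) {p q : P} {t : ℝ} (h : Ch ℓ p q t) : Ch ℓ q p t := by
  induction h with
  | nil p => exact Ch.nil p
  | cons a b c u _ ih =>
    have := ih.append (Ch.one (ℓ := ℓ) b a)
    rwa [hs b a, add_comm] at this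

theorem Ch.mapp (φ : P → P) (hφ : ∀ p q, ℓ (φ p) (φ q) = ℓ p q) {p q : P} {t : ℝ}
    (h : Ch ℓ p q t) : Ch ℓ (φ p) (φ q) t := by
  induction h with
  | nil p => exact Ch.nil _
  | cons a b c u _ ih =>
    rw [← hφ a b]
    exact Ch.cons _ _ _ _ ih

theorem Ch.ge (ρ : P → P → ℝ) (h0 : ∀ p, ρ p p ≤ 0) (ht : ∀ p q r, ρ p r ≤ ρ p q + ρ q r)
    (hle : ∀ p q, ρ p q ≤ ℓ p q) {p q : P} {t : ℝ} (h : Ch ℓ p q t) : ρ p q ≤ t := by
  induction h with
  | nil p => exact h0 p
  | cons a b c u _ ih =>
    have h1 := ht a b c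
    have h2 := hle a b
    linarith

theorem Ch.nonneg (hℓ : ∀ p q, 0 ≤ ℓ p q) {p q : P} {t : ℝ} (h : Ch ℓ p q t) : 0 ≤ t :=
  Ch.ge (fun _ _ => 0) (fun _ => le_rfl) (fun _ _ _ => by norm_num) hℓ h

theorem Ch.repr {p q : P} {t : ℝ} (h : Ch ℓ p q t) :
    ∃ (k : ℕ) (c : ℕ → P), c 0 = p ∧ c k = q ∧
      t = ∑ i ∈ Finset.range k, ℓ (c i) (c (i + 1)) := by
  induction h with
  | nil p => exact ⟨0, fun _ => p, rfl, rfl, by simp⟩
  | cons a b d u _ ih =>
    obtain ⟨k, c, h0, hk, hu⟩ := ih
    refine ⟨k + 1, fun n => Nat.casesOn n a c, rfl, hk, ?_⟩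
    rw [Finset.sum_range_succ', hu, add_comm]
    show _ + ℓ a b = _ + ℓ a (c 0)
    rw [h0]

/-- The chain distance. -/
noncomputable def Dch (ℓ : P → P → ℝ) (p q : P) : ℝ := sInf {t | Ch ℓ p q t}

theorem Dch_bdd (hℓ : ∀ p q, 0 ≤ ℓ p q) (p q : P) : BddBelow {t | Ch ℓ p q t} :=
  ⟨0, fun _ ht => Ch.nonneg hℓ ht⟩

theorem Dch_ne (p q : P) : {t | Ch ℓ p q t}.Nonempty := ⟨_, Ch.one p q⟩

theorem Dch_le (hℓ : ∀ p q, 0 ≤ ℓ p q) {p q : P} {t : ℝ} (h : Ch ℓ p q t) : Dch ℓ p q ≤ t :=
  csInf_le (Dch_bdd hℓ p q) h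

theorem le_Dch {p q : P} {c : ℝ} (h : ∀ t, Ch ℓ p q t → c ≤ t) : c ≤ Dch ℓ p q :=
  le_csInf (Dch_ne p q) h

theorem Dch_triangle (hℓ : ∀ p q, 0 ≤ ℓ p q) (p q r : P) :
    Dch ℓ p r ≤ Dch ℓ p q + Dch ℓ q r := by
  have h1 : ∀ s, Ch ℓ q r s → Dch ℓ p r - s ≤ Dch ℓ p q := by
    intro s hs
    apply le_Dch
    intro t ht
    have := Dch_le hℓ (ht.append hs)
    linarith
  have h2 : Dch ℓ p r - Dch ℓ p q ≤ Dch ℓ q r := by
    apply le_Dch
    intro s hs
    linarith [h1 s hs]
  linarith

theorem Dch_self (hℓ : ∀ p q, 0 ≤ ℓ p q) (p : P) : Dch ℓ p p = 0 :=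
  le_antisymm (Dch_le hℓ (Ch.nil p)) (le_Dch fun _ ht => Ch.nonneg hℓ ht)

theorem Dch_symm (hs : ∀ p q, ℓ p q = ℓ q p) (p q : P) : Dch ℓ p q = Dch ℓ q p := by
  unfold Dch
  congr 1
  ext t
  exact ⟨fun h => Ch.rev hs h, fun h => Ch.rev hs h⟩

theorem Dch_map (φ : P → P) (hφ : ∀ p q, ℓ (φ p) (φ q) = ℓ p q) (hφφ : ∀ p, φ (φ p) = p)
    (p q : P) : Dch ℓ (φ p) (φ q) = Dch ℓ p q := by
  unfold Dch
  congr 1
  ext t
  constructor
  · intro h
    have := Ch.mapp φ hφ h
    rwa [hφφ, hφφ] at this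
  · intro h
    exact Ch.mapp φ hφ h

theorem Dch_ge (ρ : P → P → ℝ) (h0 : ∀ p, ρ p p ≤ 0) (ht : ∀ p q r, ρ p r ≤ ρ p q + ρ q r)
    (hle : ∀ p q, ρ p q ≤ ℓ p q) (p q : P) : ρ p q ≤ Dch ℓ p q :=
  le_Dch fun _ h => Ch.ge ρ h0 ht hle h

end chains

section ext

variable {V : Type*}

/-- The antipodal extension of a chain distance. -/
theorem ext_of_D (D : V × Bool → V × Bool → ℝ) (h0 : ∀ p, D p p = 0)
    (hs : ∀ p q, D p q = D q p) (hb : ∀ p q, D (bar p) (bar q) = D p q)
    (ht : ∀ p q r, D p r ≤ D p q + D q r) (h1 : ∀ p, 1 ≤ D p (bar p)) :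
    ∃ x ∈ MPol V, ∀ p q, dd x p q = 1 / 2 + min (D p q) (1 / 2) - min (D p (bar q)) (1 / 2) := by
  have hb' : ∀ p q, D (bar p) q = D p (bar q) := by
    intro p q
    rw [← hb p (bar q), bar_bar]
  let x : V → V → ℝ := fun i j =>
    1 / 2 + min (D (i, false) (j, false)) (1 / 2) - min (D (i, false) (j, true)) (1 / 2)
  have hdd : ∀ p q, dd x p q = 1 / 2 + min (D p q) (1 / 2) - min (D p (bar q)) (1 / 2) := by
    rintro ⟨i, a⟩ ⟨j, b⟩
    have e1 : D (i, true) (j, true) = D (i, false) (j, false) := hb (i, false) (j, false)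
    have e2 : D (i, true) (j, false) = D (i, false) (j, true) := hb (i, false) (j, true)
    cases a <;> cases b <;> simp only [dd, x, bar, Bool.not_false, Bool.not_true, e1, e2, if_true,
      reduceCtorEq, if_false]
    · ring
    · ring
  refine ⟨x, ?_, hdd⟩
  apply mem_MPol_of_dd
  · intro i
    have h2 := h1 (i, false)
    have h3 : bar (i, false) = (i, true) := rfl
    rw [h3] at h2
    simp only [x, h0]
    rw [min_eq_left (by norm_num), min_eq_right (by linarith)]
    norm_num
  · intro i j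
    simp only [x]
    rw [hs (i, false) (j, false), hs (i, false) (j, true)]
    have e2 : D (j, true) (i, false) = D (j, false) (i, true) := hb' (j, false) (i, false)
    rw [e2]
  · intro p q r
    rw [hdd, hdd, hdd]
    have c1 := ht p q r
    have c2 : D p r ≤ D p (bar q) + D q (bar r) := by
      have := ht p (bar q) r
      rwa [hb'] at this
    have c3 := ht p q (bar r)
    have c4 : D p (bar r) ≤ D p (bar q) + D q r := by
      have := ht p (bar q) (bar r)
      rwa [hb] at this
    have a1 : D p q ≤ D p r + D q r := by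
      have := ht p r q
      rwa [hs r q] at this
    have a2 : D p q ≤ D p (bar r) + D q (bar r) := by
      have := ht p (bar r) q
      rwa [hs (bar r) q] at this
    have a3 : D p (bar q) ≤ D p r + D q (bar r) := by
      have := ht p r (bar q)
      rw [hs r (bar q), hb'] at this
      exact this
    have a4 : D p (bar q) ≤ D p (bar r) + D q r := by
      have := ht p (bar r) (bar q)
      rwa [hb, hs r q] at this
    have b1 : D q r ≤ D p q + D p r := by
      have := ht q p r
      rwa [hs q p] at this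
    have b2 : D q r ≤ D p (bar q) + D p (bar r) := by
      have := ht (bar q) p (bar r)
      rwa [hb, hs (bar q) p] at this
    have b3 : D q (bar r) ≤ D p q + D p (bar r) := by
      have := ht q p (bar r)
      rwa [hs q p] at this
    have b4 : D q (bar r) ≤ D p (bar q) + D p r := by
      have := ht (bar q) p r
      rwa [hb', hs (bar q) p] at this
    have s1 : 1 ≤ D p q + D p (bar q) := by
      have := ht p q (bar p)
      have h2 := h1 p
      rw [hs q (bar p), hb'] at this
      linarith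
    have s2 : 1 ≤ D q r + D q (bar r) := by
      have := ht q r (bar q)
      have h2 := h1 q
      rw [hs r (bar q), hb'] at this
      linarith
    have s3 : 1 ≤ D p r + D p (bar r) := by
      have := ht p r (bar p)
      have h2 := h1 p
      rw [hs r (bar p), hb'] at this
      linarith
    generalize D p q = A at *
    generalize D p (bar q) = A' at *
    generalize D q r = B at *
    generalize D q (bar r) = B' at *
    generalize D p r = C at *
    generalize D p (bar r) = C' at *
    rcases le_total A (1/2) with hA | hA <;> rcases le_total A' (1/2) with hA' | hA' <;>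
    rcases le_total B (1/2) with hB | hB <;> rcases le_total B' (1/2) with hB' | hB' <;>
    rcases le_total C (1/2) with hC | hC <;> rcases le_total C' (1/2) with hC' | hC' <;>
    simp only [min_eq_left, min_eq_right, hA, hA', hB, hB', hC, hC'] <;> linarith

variable [DecidableEq V]

/-- The step lengths: `dd a` on the pairs of `E`, and one on the others. -/
noncomputable def ell (E : Finset (Sym2 V)) (a : V → V → ℝ) (p q : V × Bool) : ℝ :=
  if s(p.1, q.1) ∈ E then dd a p q else 1

theorem ell_symm (E : Finset (Sym2 V)) {a : V → V → ℝ} (hs : ∀ i j, a i j = a j i)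
    (p q : V × Bool) : ell E a p q = ell E a q p := by
  unfold ell
  rw [Sym2.eq_swap, dd_symm' hs]

theorem ell_bar (E : Finset (Sym2 V)) (a : V → V → ℝ)
    (p q : V × Bool) : ell E a (bar p) (bar q) = ell E a p q := by
  unfold ell
  rw [dd_bar_bar]
  rfl

/-- The extension theorem: if all chains from a point to its antipode are long, then the data on
`E` extend to the metric polytope. -/
theorem ext_chain (E : Finset (Sym2 V)) {a : V → V → ℝ} (hs : ∀ i j, a i j = a j i)
    (h01 : ∀ i j, s(i, j) ∈ E → 0 ≤ a i j ∧ a i j ≤ 1)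
    (h1 : ∀ p t, Ch (ell E a) p (bar p) t → 1 ≤ t) :
    ∃ x ∈ MPol V, (∀ i j, s(i, j) ∈ E → x i j = a i j) ∧
      ∀ p q, min (Dch (ell E a) p q) (1 / 2) ≤ dd x p q := by
  have hℓ : ∀ p q, 0 ≤ ell E a p q := by
    intro p q
    unfold ell
    split_ifs with h
    · have := h01 _ _ h
      unfold dd
      split_ifs <;> linarith
    · norm_num
  obtain ⟨x, hx, hdd⟩ := ext_of_D (Dch (ell E a)) (Dch_self hℓ) (Dch_symm (ell_symm E hs))
    (Dch_map bar (ell_bar E a) bar_bar) (Dch_triangle hℓ) (fun p => le_Dch (h1 p))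
  refine ⟨x, hx, ?_, ?_⟩
  · intro i j hij
    -- `D` agrees with `dd a` on the pairs of `E`
    have key : ∀ p q : V × Bool, s(p.1, q.1) ∈ E → Dch (ell E a) p q = dd a p q := by
      intro p q hpq
      have hℓe : ell E a p q = dd a p q := if_pos hpq
      apply le_antisymm
      · rw [← hℓe]
        exact Dch_le hℓ (Ch.one p q)
      · apply le_Dch
        intro t ht
        have h2 := h1 p _ (ht.append (Ch.one q (bar p)))
        have h3 : ell E a q (bar p) = 1 - dd a p q := by
          have : s(q.1, (bar p).1) ∈ E := by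
            rw [bar_fst, Sym2.eq_swap]; exact hpq
          unfold ell
          rw [if_pos this, dd_bar_right, dd_symm' hs]
        rw [h3] at h2
        linarith
    have h2 := hdd (i, false) (j, false)
    have h3 := key (i, false) (j, false) hij
    have h4 := key (i, false) (bar (j, false)) hij
    rw [h3, h4, dd_bar_right] at h2
    have h5 : dd x (i, false) (j, false) = x i j := by simp [dd]
    have h6 : dd a (i, false) (j, false) = a i j := by simp [dd]
    rw [h5, h6] at h2
    rw [h2]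
    rcases le_total (a i j) (1/2) with h | h
    · rw [min_eq_left h, min_eq_right (by linarith)]
      ring
    · rw [min_eq_right h, min_eq_left (by linarith)]
      ring
  · intro p q
    rw [hdd]
    have := min_le_right (Dch (ell E a) p (bar q)) (1/2)
    linarith

end ext

end Pool.Agent.TH524
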