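import Pool.Agent.TH524.Final

/-!
# Contradiction
-/

set_option autoImplicit false

open Set

namespace Pool.Agent.TH524

section contra

variable {V : Type*} [Fintype V] [DecidableEq V]
  {E : Finset (Sym2 V)} {y : V → V → ℝ} {Q : Sym2 V → V → V → ℝ}

omit [Fintype V] [DecidableEq V] in
/-- A neighbour with a given base. -/
theorem exists_nb (hQ : GoodQ E y Q) (p : V × Bool) (j : V) (h : s(p.1, j) ∈ E) :
    ∃ q : V × Bool, q.1 = j ∧ Gadj E y Q p q := by
  rcases Gadj_or hQ (p := p) (q := (j, false)) h with hG | hG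
  · exact ⟨_, rfl, hG⟩
  · exact ⟨_, rfl, hG⟩

/-- Four neighbours. -/
theorem exists_four_nb (H : Core E y) (hQ : GoodQ E y Q) {p : V × Bool} {j : V}
    (h : s(p.1, j) ∈ E) :
    ∃ a b c d : V × Bool, Gadj E y Q p a ∧ Gadj E y Q p b ∧ Gadj E y Q p c ∧ Gadj E y Q p d ∧
      a.1 ≠ b.1 ∧ a.1 ≠ c.1 ∧ a.1 ≠ d.1 ∧ b.1 ≠ c.1 ∧ b.1 ≠ d.1 ∧ c.1 ≠ d.1 := by
  have hdeg := H.deg _ _ h
  set N := Finset.univ.filter (fun k => s(p.1, k) ∈ E) with hN
  have hmem : ∀ k, k ∈ N ↔ s(p.1, k) ∈ E := by intro k; simp [hN]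
  obtain ⟨a, ha⟩ : N.Nonempty := by
    rw [← Finset.card_pos]; omega
  have hcard : 2 < (N.erase a).card := by
    rw [Finset.card_erase_of_mem ha]; omega
  obtain ⟨b, hb, c, hc, d, hd, hbc, hbd, hcd⟩ := Finset.two_lt_card.mp hcard
  rw [Finset.mem_erase] at hb hc hd
  obtain ⟨a', rfl, hGa⟩ := exists_nb hQ p a ((hmem a).mp ha)
  obtain ⟨b', rfl, hGb⟩ := exists_nb hQ p b ((hmem b).mp hb.2)
  obtain ⟨c', rfl, hGc⟩ := exists_nb hQ p c ((hmem c).mp hc.2)
  obtain ⟨d', rfl, hGd⟩ := exists_nb hQ p d ((hmem d).mp hd.2)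
  exact ⟨a', b', c', d', hGa, hGb, hGc, hGd, hb.1.symm, hc.1.symm, hd.1.symm, hbc, hbd, hcd⟩

/-- Two further neighbours. -/
theorem exists_two_nb (H : Core E y) (hQ : GoodQ E y Q) {p : V × Bool} {j : V}
    (h : s(p.1, j) ∈ E) (i0 i2 : V) :
    ∃ a b : V × Bool, Gadj E y Q p a ∧ Gadj E y Q p b ∧ a.1 ≠ b.1 ∧ a.1 ≠ i0 ∧ a.1 ≠ i2 ∧
      b.1 ≠ i0 ∧ b.1 ≠ i2 := by
  have hdeg := H.deg _ _ h
  set N := Finset.univ.filter (fun k => s(p.1, k) ∈ E) with hN
  have hmem : ∀ k, k ∈ N ↔ s(p.1, k) ∈ E := by intro k; simp [hN]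
  have hcard : 1 < ((N.erase i0).erase i2).card := by
    have h1 := Finset.pred_card_le_card_erase (s := N) (a := i0)
    have h2 := Finset.pred_card_le_card_erase (s := N.erase i0) (a := i2)
    omega
  obtain ⟨a, ha, b, hb, hab⟩ := Finset.one_lt_card.mp hcard
  simp only [Finset.mem_erase] at ha hb
  obtain ⟨a', rfl, hGa⟩ := exists_nb hQ p a ((hmem a).mp ha.2.2)
  obtain ⟨b', rfl, hGb⟩ := exists_nb hQ p b ((hmem b).mp hb.2.2)
  exact ⟨a', b', hGa, hGb, hab, ha.2.1, ha.1, hb.2.1, hb.1⟩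

/-- The third points of the tight triangles through a step. -/
theorem third_point (H : Core E y) (hQ : GoodQ E y Q) {v w : V × Bool} (hvw : Gadj E y Q v w)
    {c : ℕ → V × Bool} (h : Tight E y 3 c) (he : (⟨s(v.1, w.1), hvw.mem⟩ : E) ∈ h.edges) :
    ∃ z : V × Bool, Gadj E y Q w z ∧ Gadj E y Q z (bar v) ∧
      ∀ f : E, f ∈ h.edges ↔ f.1 = s(v.1, w.1) ∨ f.1 = s(w.1, z.1) ∨ f.1 = s(z.1, v.1) := by
  -- normalise so that the step is the first one
  have hnorm : ∃ c' : ℕ → V × Bool, Tight E y 3 c' ∧ s(v.1, w.1) = s((c' 0).1, (c' 1).1) ∧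
      ∀ f : E, f ∈ h.edges ↔ f.1 = s((c' 0).1, (c' 1).1) ∨ f.1 = s((c' 1).1, (c' 2).1) ∨
        f.1 = s((c' 2).1, (c' 0).1) := by
    have hmem : ∀ f : E, f ∈ h.edges ↔ f.1 = s((c 0).1, (c 1).1) ∨ f.1 = s((c 1).1, (c 2).1) ∨
        f.1 = s((c 2).1, (c 3).1) := by
      intro f
      simp only [Tight.edges, Finset.mem_image, Finset.mem_range]
      constructor
      · rintro ⟨i, hi, rfl⟩
        have : i = 0 ∨ i = 1 ∨ i = 2 := by omega
        rcases this with rfl | rfl | rfl
        · left; rfl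
        · right; left; rfl
        · right; right; rfl
      · rintro (h1 | h1 | h1)
        · exact ⟨0, by norm_num, Subtype.ext h1.symm⟩
        · exact ⟨1, by norm_num, Subtype.ext h1.symm⟩
        · exact ⟨2, by norm_num, Subtype.ext h1.symm⟩
    have h3 : (c 3).1 = (c 0).1 := by
      have := h.anti 0
      rw [zero_add] at this
      rw [this, bar_fst]
    have h4 : (c 4).1 = (c 1).1 := by
      have := h.anti 1
      rw [show 1 + 3 = 4 from rfl] at this
      rw [this, bar_fst]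
    rcases (hmem _).mp he with h1 | h1 | h1
    · refine ⟨c, h, h1, ?_⟩
      intro f
      rw [hmem f, h3]
    · refine ⟨fun i => c (i + 1), h.shiftN 1, h1, ?_⟩
      intro f
      rw [hmem f]
      show _ ↔ f.1 = s((c 1).1, (c 2).1) ∨ f.1 = s((c 2).1, (c 3).1) ∨ f.1 = s((c 3).1, (c 1).1)
      rw [h3]
      tauto
    · refine ⟨fun i => c (i + 2), h.shiftN 2, h1, ?_⟩
      intro f
      rw [hmem f]
      show _ ↔ f.1 = s((c 2).1, (c 3).1) ∨ f.1 = s((c 3).1, (c 4).1) ∨ f.1 = s((c 4).1, (c 2).1)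
      rw [h3, h4]
      tauto
  obtain ⟨c', hT, hvw', hmem⟩ := hnorm
  have g0 := hT.gadj H hQ (le_refl 3) 0
  have g1 := hT.gadj H hQ (le_refl 3) 1
  have g2 := hT.gadj H hQ (le_refl 3) 2
  have h3 : c' 3 = bar (c' 0) := by
    have := hT.anti 0
    rwa [zero_add] at this
  simp only [zero_add, show 1 + 1 = 2 from rfl, show 2 + 1 = 3 from rfl] at g0 g1 g2
  rw [h3] at g2
  rw [Sym2.eq_iff] at hvw'
  rcases hvw' with ⟨e1, e2⟩ | ⟨e1, e2⟩
  · rcases eq_or_eq_bar e1 with hv | hv
    · have hw : w = c' 1 := by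
        rcases eq_or_eq_bar e2 with hw | hw
        · exact hw
        · rw [hv, hw] at hvw
          exact absurd hvw g0.not_bar
      refine ⟨c' 2, by rw [hw]; exact g1, by rw [hv]; exact g2, ?_⟩
      intro f
      rw [hmem f, hv, hw]
    · have hw : w = bar (c' 1) := by
        rcases eq_or_eq_bar e2 with hw | hw
        · have h5 := hvw.bar_bar
          rw [hv, hw, bar_bar] at h5
          exact absurd h5 g0.not_bar
        · exact hw
      refine ⟨bar (c' 2), by rw [hw]; exact g1.bar_bar, by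
        rw [hv]; exact g2.bar_bar, ?_⟩
      intro f
      rw [hmem f, hv, hw]
      simp only [bar_fst]
  · have g0' := g0.symm H hQ
    rcases eq_or_eq_bar e1 with hv | hv
    · have hw : w = c' 0 := by
        rcases eq_or_eq_bar e2 with hw | hw
        · exact hw
        · rw [hv, hw] at hvw
          exact absurd hvw g0'.not_bar
      refine ⟨bar (c' 2), ?_, ?_, ?_⟩
      · have := (g2.symm H hQ).bar_bar
        rw [bar_bar] at this
        rw [hw]; exact this
      · rw [hv]; exact (g1.symm H hQ).bar_bar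
      · intro f
        rw [hmem f, hv, hw]
        simp only [bar_fst]
        rw [Sym2.eq_swap (a := (c' 1).1) (b := (c' 0).1),
          Sym2.eq_swap (a := (c' 0).1) (b := (c' 2).1),
          Sym2.eq_swap (a := (c' 2).1) (b := (c' 1).1)]
        tauto
    · have hw : w = bar (c' 0) := by
        rcases eq_or_eq_bar e2 with hw | hw
        · have h5 := hvw.bar_bar
          rw [hv, hw, bar_bar] at h5
          exact absurd h5 g0'.not_bar
        · exact hw
      refine ⟨c' 2, ?_, ?_, ?_⟩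
      · rw [hw]; exact g2.symm H hQ
      · rw [hv, bar_bar]; exact g1.symm H hQ
      · intro f
        rw [hmem f, hv, hw]
        simp only [bar_fst]
        rw [Sym2.eq_swap (a := (c' 1).1) (b := (c' 0).1),
          Sym2.eq_swap (a := (c' 0).1) (b := (c' 2).1),
          Sym2.eq_swap (a := (c' 2).1) (b := (c' 1).1)]
        tauto

/-- The case of long chains, from the two lower bounds. -/
theorem contra_long (H : Core E y) (hQ : GoodQ E y Q) {r : ℕ} (hr : 5 ≤ r) {c : ℕ → V × Bool}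
    (hT : Tight E y r c) (hyr : ∀ p q, Gadj E y Q p q → dd y p q = 1 / r) (χ : V × Bool → ℤ)
    (hχ1 : ∀ p, χ p = 1 ∨ χ p = -1) (hχ : ∀ p q, Gadj E y Q p q → χ q = - χ p)
    (hx : ∃ x ∈ MPol V, (∀ i j, s(i, j) ∈ E → x i j = y i j) ∧
      ∀ p q, p.1 ≠ q.1 → ¬ Gadj E y Q p q →
        (χ p = χ q → 2 / (r:ℝ) ≤ dd x p q) ∧ (χ p ≠ χ q → 3 / (r:ℝ) ≤ dd x p q)) : False := by
  obtain ⟨x, hxM, hxE, hxb⟩ := hx
  have hr5 : (5:ℝ) ≤ r := by exact_mod_cast hr
  have hrpos : (0:ℝ) < r := by linarith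
  have ht0 : (0:ℝ) < 1 / r := by positivity
  have ht1 : (1:ℝ) / r ≤ 1 / 5 := one_div_le_one_div_of_le (by norm_num) hr5
  set t : ℝ := 1 / r with ht
  have h2t : 2 / (r:ℝ) = 2 * t := by rw [ht]; ring
  have h3t : 3 / (r:ℝ) = 3 * t := by rw [ht]; ring
  rw [h2t, h3t] at hxb
  have hG : ∀ p q, Gadj E y Q p q → dd x p q = t := by
    intro p q h
    rw [← hyr p q h]
    exact dd_congr (hxE _ _ h.mem)
  have hχne : ∀ p q, Gadj E y Q p q → χ p ≠ χ q := by
    intro p q h he
    have := hχ p q h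
    rcases hχ1 p with h1 | h1 <;> omega
  have g0 := hT.gadj H hQ (by omega) 0
  have g1 := hT.gadj H hQ (by omega) 1
  have g2 := hT.gadj H hQ (by omega) 2
  simp only [zero_add, show 1 + 1 = 2 from rfl, show 2 + 1 = 3 from rfl] at g0 g1 g2
  have b01 : (c 0).1 ≠ (c 1).1 := hT.base_ne H 0 (j := 1) (by omega) (by omega)
  have b02 : (c 0).1 ≠ (c 2).1 := hT.base_ne H 0 (j := 2) (by omega) (by omega)
  have b03 : (c 0).1 ≠ (c 3).1 := hT.base_ne H 0 (j := 3) (by omega) (by omega)
  have b12 : (c 1).1 ≠ (c 2).1 := hT.base_ne H 1 (j := 1) (by omega) (by omega)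
  have b13 : (c 1).1 ≠ (c 3).1 := hT.base_ne H 1 (j := 2) (by omega) (by omega)
  have b23 : (c 2).1 ≠ (c 3).1 := hT.base_ne H 2 (j := 1) (by omega) (by omega)
  -- geodesic distances in `y`
  have hgeod3 : dd y (c 0) (c 3) = 3 * t := by
    rw [hT.geod H.mem (j := 3) (by omega)]
    simp only [Finset.sum_range_succ, Finset.sum_range_zero, zero_add,
      show 1 + 1 = 2 from rfl, show 2 + 1 = 3 from rfl]
    rw [hyr _ _ g0, hyr _ _ g1, hyr _ _ g2]
    ring
  have hgeod13 : dd y (c 1) (c 3) = 2 * t := by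
    have := (hT.shiftN 1).geod H.mem (j := 2) (by omega)
    simp only [Finset.sum_range_succ, Finset.sum_range_zero, zero_add,
      show 1 + 1 = 2 from rfl, show 2 + 1 = 3 from rfl] at this
    rw [this, hyr _ _ g1, hyr _ _ g2]
    ring
  have hnG03 : ¬ Gadj E y Q (c 0) (c 3) := by
    intro h
    have := hyr _ _ h
    rw [hgeod3] at this
    linarith
  have e0 := hχ _ _ g0
  have e1 := hχ _ _ g1
  have e2 := hχ _ _ g2
  -- neighbours of `c 1`
  obtain ⟨w, w', hw, hw', hww, hw0, hw2, hw0', hw2'⟩ := exists_two_nb H hQ (p := c 1)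
    (j := (c 2).1) g1.mem (c 0).1 (c 2).1
  have hb3 : ∀ w, Gadj E y Q (c 1) w → w.1 ≠ (c 3).1 := by
    intro w hw he
    rcases eq_or_eq_bar he with h | h
    · rw [h] at hw
      have := hyr _ _ hw
      rw [hgeod13] at this
      linarith
    · rw [h] at hw
      have := hyr _ _ hw
      rw [dd_bar_right, hgeod13] at this
      linarith
  have hb1 : ∀ w, Gadj E y Q (c 1) w → (c 1).1 ≠ w.1 := fun w hw => H.ne_base hw.mem
  have hsame : ∀ a b, Gadj E y Q (c 1) a → Gadj E y Q (c 1) b → a.1 ≠ b.1 →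
      2 * t ≤ dd x a b := by
    intro a b ha hb hab
    have h1 := hχ _ _ ha
    have h2 := hχ _ _ hb
    have h3 : χ a = χ b := by rw [h1, h2]
    exact (hxb a b hab (fun h => hχne a b h h3)).1 h3
  have hup : ∀ a, Gadj E y Q (c 1) a → dd x a (c 2) ≤ 2 * t := by
    intro a ha
    have h1 := dd_triangle hxM a (c 1) (c 2)
    rw [hG _ _ (ha.symm H hQ), hG _ _ g1] at h1
    linarith
  have g0' := g0.symm H hQ
  have h31 : dd x (c 3) (c 1) ≤ 2 * t := by
    have h1 := dd_triangle hxM (c 3) (c 2) (c 1)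
    rw [hG _ _ (g2.symm H hQ), hG _ _ (g1.symm H hQ)] at h1
    linarith
  -- case A
  have caseA : ∀ w, Gadj E y Q (c 1) w → w.1 ≠ (c 0).1 → w.1 ≠ (c 2).1 →
      Gadj E y Q w (c 3) := by
    intro w hw hw0 hw2
    by_contra hnG
    have hd : distinct5 (c 0) w (c 3) (bar (c 1)) (bar (c 2)) :=
      ⟨hw0.symm, b03, b01, b02, hb3 w hw, (hb1 w hw).symm, hw2, b13.symm, b23.symm, b12⟩
    have hlt := H.pent x hxM hxE _ _ _ _ _ hd
    simp only [pent, dd_bar_bar] at hlt
    rw [dd_bar_right, dd_bar_right, dd_bar_right, dd_bar_right, dd_bar_right, dd_bar_right] at hlt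
    have f1 := hsame (c 0) w g0' hw hw0.symm
    have hχ03 : χ (c 0) ≠ χ (c 3) := by
      rcases hχ1 (c 0) with h | h <;> omega
    have f2 := (hxb (c 0) (c 3) b03 hnG03).2 hχ03
    have ew := hχ _ _ hw
    have hχw3 : χ w ≠ χ (c 3) := by
      rcases hχ1 (c 0) with h | h <;> omega
    have f3 := (hxb w (c 3) (hb3 w hw) hnG).2 hχw3
    have f4 := hG _ _ g0
    have f5 := hG _ _ (hw.symm H hQ)
    have f6 := hup (c 0) g0'
    have f7 := hup w hw
    have f8 := hG _ _ (g2.symm H hQ)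
    have f9 := hG _ _ g1
    linarith
  -- case B
  have hw3 := caseA w hw hw0 hw2
  have hw3' := caseA w' hw' hw0' hw2'
  have hd : distinct5 (c 2) w w' (bar (c 1)) (bar (c 3)) :=
    ⟨hw2.symm, hw2'.symm, b12.symm, b23, hww, (hb1 w hw).symm, hb3 w hw, (hb1 w' hw').symm,
      hb3 w' hw', b13⟩
  have hlt := H.pent x hxM hxE _ _ _ _ _ hd
  simp only [pent, dd_bar_bar] at hlt
  rw [dd_bar_right, dd_bar_right, dd_bar_right, dd_bar_right, dd_bar_right, dd_bar_right] at hlt
  have f1 := hsame (c 2) w g1 hw hw2.symm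
  have f2 := hsame (c 2) w' g1 hw' hw2'.symm
  have f3 := hsame w w' hw hw' hww
  have hχ13 : χ (c 1) = χ (c 3) := by omega
  have f4 := (hxb (c 1) (c 3) b13 (fun h => hχne _ _ h hχ13)).1 hχ13
  have f5 := hG _ _ (g1.symm H hQ)
  have f6 := hG _ _ (hw.symm H hQ)
  have f7 := hG _ _ (hw'.symm H hQ)
  have f8 := hG _ _ g2
  have f9 := hG _ _ hw3
  have f10 := hG _ _ hw3'
  linarith

/-- No minimal configuration. -/
theorem core_false (H : Core E y) : False := by
  classical
  obtain ⟨Q, hQ⟩ := H.exists_Q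
  obtain ⟨r, hr, ⟨c, hT⟩, hyr, ⟨χ, hχ1, hχb, hχ⟩, hA⟩ := uniform H hQ
  have hχne : ∀ p q, Gadj E y Q p q → χ p ≠ χ q := by
    intro p q h he
    have := hχ p q h
    rcases hχ1 p with h1 | h1 <;> omega
  have g0 := hT.gadj H hQ (by omega) 0
  simp only [zero_add] at g0
  rcases Nat.lt_or_ge r 5 with hr5 | hr5
  · -- `r = 3, 4`
    obtain ⟨x, hxM, hxE, hxb⟩ := exists_xmax H hQ hr hyr χ hχ
    have hG : ∀ p q, Gadj E y Q p q → dd x p q = 1 / r := by
      intro p q h
      rw [← hyr p q h]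
      exact dd_congr (hxE _ _ h.mem)
    have hhalf : ∀ p q, p.1 ≠ q.1 → χ p = χ q → 1 / 2 ≤ dd x p q := by
      intro p q hpq hc
      have h1 := (hxb p q (fun h => hpq (by rw [h])) (fun h => hχne p q h hc)).1 hc
      have h2 : (1:ℝ) / 2 ≤ min (2 / (r:ℝ)) (1 / 2) := by
        apply le_min _ le_rfl
        have h4 : (r:ℝ) ≤ 4 := by exact_mod_cast (by omega : r ≤ 4)
        have h3 : (0:ℝ) < r := by exact_mod_cast (by omega : 0 < r)
        rw [div_le_div_iff₀ (by norm_num) h3]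
        linarith
      linarith
    have hcases : r = 3 ∨ r = 4 := by omega
    rcases hcases with rfl | rfl
    · -- three tight triangles through the step `c 0, c 1`
      obtain ⟨A, hA3, hAC⟩ := hA ⟨s((c 0).1, (c 1).1), g0.mem⟩
      obtain ⟨C1, C2, C3, h12, h13, h23, rfl⟩ := Finset.card_eq_three.mp hA3
      obtain ⟨m1, c1, T1, rfl⟩ := hAC C1 (by simp)
      obtain ⟨m2, c2, T2, rfl⟩ := hAC C2 (by simp)
      obtain ⟨m3, c3, T3, rfl⟩ := hAC C3 (by simp)
      obtain ⟨z1, a1, b1, k1⟩ := third_point H hQ g0 T1 m1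
      obtain ⟨z2, a2, b2, k2⟩ := third_point H hQ g0 T2 m2
      obtain ⟨z3, a3, b3, k3⟩ := third_point H hQ g0 T3 m3
      have n12 : z1.1 ≠ z2.1 := by
        intro h
        apply h12
        ext f
        rw [k1 f, k2 f, h]
      have n13 : z1.1 ≠ z3.1 := by
        intro h
        apply h13
        ext f
        rw [k1 f, k3 f, h]
      have n23 : z2.1 ≠ z3.1 := by
        intro h
        apply h23
        ext f
        rw [k2 f, k3 f, h]
      have hv1 : (c 0).1 ≠ z1.1 := by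
        have := H.ne_base b1.mem
        rw [bar_fst] at this
        exact this.symm
      have hv2 : (c 0).1 ≠ z2.1 := by
        have := H.ne_base b2.mem
        rw [bar_fst] at this
        exact this.symm
      have hv3 : (c 0).1 ≠ z3.1 := by
        have := H.ne_base b3.mem
        rw [bar_fst] at this
        exact this.symm
      have hd : distinct5 (bar (c 0)) (c 1) (bar z1) (bar z2) (bar z3) :=
        ⟨H.ne_base g0.mem, hv1, hv2, hv3, H.ne_base a1.mem, H.ne_base a2.mem, H.ne_base a3.mem,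
          n12, n13, n23⟩
      have hlt := H.pent x hxM hxE _ _ _ _ _ hd
      simp only [pent, dd_bar_bar] at hlt
      rw [dd_bar_left, dd_bar_right, dd_bar_right, dd_bar_right] at hlt
      have e1 := hχ _ _ a1
      have e2 := hχ _ _ a2
      have e3 := hχ _ _ a3
      have f1 := hhalf z1 z2 n12 (by omega)
      have f2 := hhalf z1 z3 n13 (by omega)
      have f3 := hhalf z2 z3 n23 (by omega)
      have f4 := hG _ _ g0
      have f5 := hG _ _ a1
      have f6 := hG _ _ a2
      have f7 := hG _ _ a3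
      have f8 := hG _ _ b1
      have f9 := hG _ _ b2
      have f10 := hG _ _ b3
      rw [dd_bar_right, dd_symm hxM] at f8 f9 f10
      push_cast at f4 f5 f6 f7 f8 f9 f10
      linarith
    · obtain ⟨a, b, d, e, ga, gb, gd, ge, n1, n2, n3, n4, n5, n6⟩ :=
        exists_four_nb H hQ (p := c 0) g0.mem
      have hd : distinct5 (bar (c 0)) a b d e :=
        ⟨H.ne_base ga.mem, H.ne_base gb.mem, H.ne_base gd.mem, H.ne_base ge.mem,
          n1, n2, n3, n4, n5, n6⟩
      have hlt := H.pent x hxM hxE _ _ _ _ _ hd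
      simp only [pent] at hlt
      rw [dd_bar_left, dd_bar_left, dd_bar_left, dd_bar_left] at hlt
      have e1 := hχ _ _ ga
      have e2 := hχ _ _ gb
      have e3 := hχ _ _ gd
      have e4 := hχ _ _ ge
      have f1 := hhalf a b n1 (by omega)
      have f2 := hhalf a d n2 (by omega)
      have f3 := hhalf a e n3 (by omega)
      have f4 := hhalf b d n4 (by omega)
      have f5 := hhalf b e n5 (by omega)
      have f6 := hhalf d e n6 (by omega)
      have f7 := hG _ _ ga
      have f8 := hG _ _ gb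
      have f9 := hG _ _ gd
      have f10 := hG _ _ ge
      push_cast at f7 f8 f9 f10
      linarith
  · rcases hr5.eq_or_lt with h5 | h5
    · -- `r = 5`
      subst h5
      obtain ⟨x, hxM, hxE, hxb⟩ := exists_table H hQ (by
        intro p q h
        have := hyr p q h
        push_cast at this
        exact this) χ hχ1 (by
        intro p
        rw [hχb]
        norm_num) hχ
      exact contra_long H hQ le_rfl hT hyr χ hχ1 hχ ⟨x, hxM, hxE, by
        intro p q hpq hnG
        push_cast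
        exact hxb p q hpq hnG⟩
    · obtain ⟨x, hxM, hxE, hxb⟩ := exists_xmax H hQ hr hyr χ hχ
      refine contra_long H hQ hr5 hT hyr χ hχ1 hχ ⟨x, hxM, hxE, ?_⟩
      intro p q hpq hnG
      have h6 : (6:ℝ) ≤ r := by exact_mod_cast h5
      have hpos : (0:ℝ) < r := by linarith
      have h1 := hxb p q (fun h => hpq (by rw [h])) hnG
      have h3 : 3 / (r:ℝ) ≤ 1 / 2 := by
        rw [div_le_div_iff₀ hpos (by norm_num)]
        linarith
      have h2 : 2 / (r:ℝ) ≤ 1 / 2 := by
        rw [div_le_div_iff₀ hpos (by norm_num)]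
        linarith
      rw [min_eq_left h2, min_eq_left h3] at h1
      exact h1

end contra

end Pool.Agent.TH524
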