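import Pool.Agent.TH524.Metric

/-!
# Extending a cut decomposition by one point with three prescribed distances
-/

set_option autoImplicit false

open Set

namespace Pool.Agent.TH524

/-- The sign of a Boolean. -/
def sg (b : Bool) : ℝ := if b then 1 else -1

section fin

variable {V : Type*} [Fintype V] [DecidableEq V]

/-- Re-randomising the sign of one point. -/
theorem relabel (w : (V → Bool) → ℝ) (hw0 : ∀ s, 0 ≤ w s) (hw1 : ∑ s, w s = 1) (i : V)
    (τ : (V → Bool) → ℝ) (h0 : ∀ s, -1 ≤ τ s) (h1 : ∀ s, τ s ≤ 1) :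
    ∃ q ∈ CUT V, (∀ k l, k ≠ i → l ≠ i → q k l = ∑ s, w s * cutv s k l) ∧
      ∀ l, l ≠ i → q i l = ∑ s, w s * ((1 - τ s * sg (s l)) / 2) := by
  refine ⟨∑ s, w s • (((1 + τ s) / 2) • cutv (Function.update s i true) +
    ((1 - τ s) / 2) • cutv (Function.update s i false)), ?_, ?_, ?_⟩
  · apply combo_mem_CUT w _ hw0 hw1
    intro s
    apply convex_CUT (cutv_mem_CUT _) (cutv_mem_CUT _)
    · linarith [h0 s]
    · linarith [h1 s]
    · ring
  · intro k l hk hl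
    simp only [Finset.sum_apply, Pi.smul_apply, Pi.add_apply, smul_eq_mul,
      cutv_update_of_ne hk hl]
    apply Finset.sum_congr rfl
    intro s _
    ring
  · intro l hl
    simp only [Finset.sum_apply, Pi.smul_apply, Pi.add_apply, smul_eq_mul,
      cutv_update_self hl, sg]
    apply Finset.sum_congr rfl
    intro s _
    cases s l <;> simp

/-- Copying a point. -/
theorem copy_cut {q : V → V → ℝ} (hq : q ∈ CUT V) (i j : V) (c : Bool) :
    ∃ q' ∈ CUT V, (∀ k l, k ≠ i → l ≠ i → q' k l = q k l) ∧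
      ∀ l, l ≠ i → q' i l = if c then q j l else 1 - q j l := by
  obtain ⟨w, hw0, hw1, hw⟩ := exists_weights hq
  obtain ⟨q', hq', h1, h2⟩ := relabel w hw0 hw1 i (fun s => sg c * sg (s j))
    (by intro s; cases c <;> cases s j <;> simp [sg])
    (by intro s; cases c <;> cases s j <;> simp [sg])
  refine ⟨q', hq', ?_, ?_⟩
  · intro k l hk hl
    rw [h1 k l hk hl, hw]
  · intro l hl
    rw [h2 l hl, hw]
    cases c
    · have : (1:ℝ) - ∑ s, w s * cutv s j l = ∑ s, w s * (1 - cutv s j l) := by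
        simp only [mul_sub, mul_one, Finset.sum_sub_distrib, hw1]
      rw [if_neg (by simp), this]
      apply Finset.sum_congr rfl
      intro s _
      congr 1
      simp only [cutv, sg]
      cases s j <;> cases s l <;> simp
    · rw [if_pos rfl]
      apply Finset.sum_congr rfl
      intro s _
      congr 1
      simp only [cutv, sg]
      cases s j <;> cases s l <;> simp

omit [Fintype V] [DecidableEq V] in
theorem exists_t {p a : ℝ} (h1 : -p ≤ a) (h2 : a ≤ p) : ∃ t : ℝ, -1 ≤ t ∧ t ≤ 1 ∧ t * p = a := by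
  rcases eq_or_ne p 0 with h | h
  · refine ⟨0, by norm_num, by norm_num, ?_⟩
    rw [h] at h1 h2
    linarith
  · have hp : 0 < p := by
      have : 0 ≤ p := by linarith
      exact lt_of_le_of_ne this h.symm
    refine ⟨a / p, ?_, ?_, ?_⟩
    · rw [le_div_iff₀ hp]; linarith
    · rw [div_le_one hp]; exact h2
    · field_simp

/-- The one dimensional Helly computation. -/
theorem helly4 (y1 y2 y3 y12 y13 y23 : ℝ)
    (a1 : y12 ≤ y1 + y2) (a2 : y1 ≤ y2 + y12) (a3 : y2 ≤ y1 + y12) (a4 : y1 + y2 + y12 ≤ 2)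
    (b1 : y13 ≤ y1 + y3) (b2 : y1 ≤ y3 + y13) (b3 : y3 ≤ y1 + y13) (b4 : y1 + y3 + y13 ≤ 2)
    (c1 : y23 ≤ y2 + y3) (c2 : y2 ≤ y3 + y23) (c3 : y3 ≤ y2 + y23) (c4 : y2 + y3 + y23 ≤ 2)
    (d1 : y12 ≤ y13 + y23) (d2 : y13 ≤ y12 + y23) (d3 : y23 ≤ y12 + y13)
    (d4 : y12 + y13 + y23 ≤ 2) :
    ∃ t1 t2 t3 t4 : ℝ, (-1 ≤ t1 ∧ t1 ≤ 1) ∧ (-1 ≤ t2 ∧ t2 ≤ 1) ∧ (-1 ≤ t3 ∧ t3 ≤ 1) ∧
      (-1 ≤ t4 ∧ t4 ≤ 1) ∧
      t1 * (1 - (y12 + y13 + y23) / 2) + t2 * ((y12 + y13 - y23) / 2)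
        - t3 * ((y12 + y23 - y13) / 2) - t4 * ((y13 + y23 - y12) / 2) = 1 - 2 * y1 ∧
      t1 * (1 - (y12 + y13 + y23) / 2) - t2 * ((y12 + y13 - y23) / 2)
        + t3 * ((y12 + y23 - y13) / 2) - t4 * ((y13 + y23 - y12) / 2) = 1 - 2 * y2 ∧
      t1 * (1 - (y12 + y13 + y23) / 2) - t2 * ((y12 + y13 - y23) / 2)
        - t3 * ((y12 + y23 - y13) / 2) + t4 * ((y13 + y23 - y12) / 2) = 1 - 2 * y3 := by
  obtain ⟨h, l1, l2, l3, l4, u1, u2, u3, u4⟩ : ∃ h : ℝ,
      -4 * (1 - (y12 + y13 + y23) / 2) - (3 - 2 * (y1 + y2 + y3)) ≤ h ∧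
      -4 * ((y12 + y13 - y23) / 2) - (-1 - 2 * y1 + 2 * y2 + 2 * y3) ≤ h ∧
      -4 * ((y12 + y23 - y13) / 2) - (-1 + 2 * y1 - 2 * y2 + 2 * y3) ≤ h ∧
      -4 * ((y13 + y23 - y12) / 2) - (-1 + 2 * y1 + 2 * y2 - 2 * y3) ≤ h ∧
      h ≤ 4 * (1 - (y12 + y13 + y23) / 2) - (3 - 2 * (y1 + y2 + y3)) ∧
      h ≤ 4 * ((y12 + y13 - y23) / 2) - (-1 - 2 * y1 + 2 * y2 + 2 * y3) ∧
      h ≤ 4 * ((y12 + y23 - y13) / 2) - (-1 + 2 * y1 - 2 * y2 + 2 * y3) ∧
      h ≤ 4 * ((y13 + y23 - y12) / 2) - (-1 + 2 * y1 + 2 * y2 - 2 * y3) := by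
    refine ⟨max (max (-4 * (1 - (y12 + y13 + y23) / 2) - (3 - 2 * (y1 + y2 + y3)))
      (-4 * ((y12 + y13 - y23) / 2) - (-1 - 2 * y1 + 2 * y2 + 2 * y3)))
      (max (-4 * ((y12 + y23 - y13) / 2) - (-1 + 2 * y1 - 2 * y2 + 2 * y3))
      (-4 * ((y13 + y23 - y12) / 2) - (-1 + 2 * y1 + 2 * y2 - 2 * y3))),
      (le_max_left _ _).trans (le_max_left _ _), (le_max_right _ _).trans (le_max_left _ _),
      (le_max_left _ _).trans (le_max_right _ _), (le_max_right _ _).trans (le_max_right _ _),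
      ?_, ?_, ?_, ?_⟩
    · refine max_le (max_le ?_ ?_) (max_le ?_ ?_) <;> linarith
    · refine max_le (max_le ?_ ?_) (max_le ?_ ?_) <;> linarith
    · refine max_le (max_le ?_ ?_) (max_le ?_ ?_) <;> linarith
    · refine max_le (max_le ?_ ?_) (max_le ?_ ?_) <;> linarith
  obtain ⟨t1, ht1, ht1', e1⟩ := exists_t (p := 1 - (y12 + y13 + y23) / 2)
    (a := (h + (3 - 2 * (y1 + y2 + y3))) / 4) (by linarith) (by linarith)
  obtain ⟨t2, ht2, ht2', e2⟩ := exists_t (p := (y12 + y13 - y23) / 2)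
    (a := (h + (-1 - 2 * y1 + 2 * y2 + 2 * y3)) / 4) (by linarith) (by linarith)
  obtain ⟨t3, ht3, ht3', e3⟩ := exists_t (p := (y12 + y23 - y13) / 2)
    (a := (h + (-1 + 2 * y1 - 2 * y2 + 2 * y3)) / 4) (by linarith) (by linarith)
  obtain ⟨t4, ht4, ht4', e4⟩ := exists_t (p := (y13 + y23 - y12) / 2)
    (a := (h + (-1 + 2 * y1 + 2 * y2 - 2 * y3)) / 4) (by linarith) (by linarith)
  refine ⟨t1, t2, t3, t4, ⟨ht1, ht1'⟩, ⟨ht2, ht2'⟩, ⟨ht3, ht3'⟩, ⟨ht4, ht4'⟩, ?_, ?_, ?_⟩ <;>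
  · rw [e1, e2, e3, e4]
    ring

/-- The pattern function. -/
def tau (t1 t2 t3 t4 : ℝ) : Bool → Bool → Bool → ℝ
  | true, true, true => t1
  | false, false, false => -t1
  | true, false, false => t2
  | false, true, true => -t2
  | false, true, false => t3
  | true, false, true => -t3
  | false, false, true => t4
  | true, true, false => -t4

/-- The extension lemma. -/
theorem ext3 {y q : V → V → ℝ} (hy : y ∈ MPol V) (hq : q ∈ CUT V) {i j1 j2 j3 : V}
    (h1 : j1 ≠ i) (h2 : j2 ≠ i) (h3 : j3 ≠ i) (e12 : q j1 j2 = y j1 j2) (e13 : q j1 j3 = y j1 j3)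
    (e23 : q j2 j3 = y j2 j3) :
    ∃ q' ∈ CUT V, (∀ k l, k ≠ i → l ≠ i → q' k l = q k l) ∧ q' i j1 = y i j1 ∧
      q' i j2 = y i j2 ∧ q' i j3 = y i j3 := by
  obtain ⟨w, hw0, hw1, hw⟩ := exists_weights hq
  obtain ⟨z0, zs, zt, z2⟩ := hy
  obtain ⟨t1, t2, t3, t4, ⟨ht1, ht1'⟩, ⟨ht2, ht2'⟩, ⟨ht3, ht3'⟩, ⟨ht4, ht4'⟩, E1, E2, E3⟩ :=
    helly4 (y i j1) (y i j2) (y i j3) (y j1 j2) (y j1 j3) (y j2 j3)
      (by have := zt j1 j2 i; rw [zs j1 i] at this; exact this)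
      (by have := zt i j1 j2; rw [zs j2 j1] at this; exact this)
      (zt i j2 j1)
      (z2 i j1 j2)
      (by have := zt j1 j3 i; rw [zs j1 i] at this; exact this)
      (by have := zt i j1 j3; rw [zs j3 j1] at this; exact this)
      (zt i j3 j1)
      (z2 i j1 j3)
      (by have := zt j2 j3 i; rw [zs j2 i] at this; exact this)
      (by have := zt i j2 j3; rw [zs j3 j2] at this; exact this)
      (zt i j3 j2)
      (z2 i j2 j3)
      (by have := zt j1 j2 j3; rw [zs j3 j2] at this; exact this)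
      (zt j1 j3 j2)
      (by have := zt j2 j3 j1; rw [zs j2 j1] at this; exact this)
      (z2 j1 j2 j3)
  obtain ⟨q', hq', hr1, hr2⟩ := relabel w hw0 hw1 i
    (fun s => tau t1 t2 t3 t4 (s j1) (s j2) (s j3))
    (by intro s
        rcases s j1 <;> rcases s j2 <;> rcases s j3 <;> simp only [tau] <;> linarith)
    (by intro s
        rcases s j1 <;> rcases s j2 <;> rcases s j3 <;> simp only [tau] <;> linarith)
  rw [hw] at e12 e13 e23
  refine ⟨q', hq', fun k l hk hl => by rw [hr1 k l hk hl, hw], ?_, ?_, ?_⟩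
  · rw [hr2 j1 h1]
    have key : ∀ s : V → Bool, w s * ((1 - tau t1 t2 t3 t4 (s j1) (s j2) (s j3) * sg (s j1)) / 2) =
        w s * ((1 - t1) / 2) + (t1 - t2) / 4 * (w s * cutv s j1 j2) +
        (t1 - t2) / 4 * (w s * cutv s j1 j3) + (t1 + t2) / 4 * (w s * cutv s j2 j3)
        + t3 / 4 * (w s * cutv s j1 j2 + w s * cutv s j2 j3 - w s * cutv s j1 j3)
        + t4 / 4 * (w s * cutv s j1 j3 + w s * cutv s j2 j3 - w s * cutv s j1 j2) := by
      intro s
      simp only [cutv, sg]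
      rcases s j1 <;> rcases s j2 <;> rcases s j3 <;> simp [tau] <;> ring
    rw [Finset.sum_congr rfl (fun s _ => key s)]
    simp only [Finset.sum_add_distrib, Finset.sum_sub_distrib, ← Finset.mul_sum,
      ← Finset.sum_mul, hw1, e12, e13, e23]
    linear_combination (-1/2) * E1
  · rw [hr2 j2 h2]
    have key : ∀ s : V → Bool, w s * ((1 - tau t1 t2 t3 t4 (s j1) (s j2) (s j3) * sg (s j2)) / 2) =
        w s * ((1 - t1) / 2) + (t1 + t2) / 4 * (w s * cutv s j1 j2) +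
        (t1 + t2) / 4 * (w s * cutv s j1 j3) + (t1 - t2) / 4 * (w s * cutv s j2 j3)
        - t3 / 4 * (w s * cutv s j1 j2 + w s * cutv s j2 j3 - w s * cutv s j1 j3)
        + t4 / 4 * (w s * cutv s j1 j3 + w s * cutv s j2 j3 - w s * cutv s j1 j2) := by
      intro s
      simp only [cutv, sg]
      rcases s j1 <;> rcases s j2 <;> rcases s j3 <;> simp [tau] <;> ring
    rw [Finset.sum_congr rfl (fun s _ => key s)]
    simp only [Finset.sum_add_distrib, Finset.sum_sub_distrib, ← Finset.mul_sum,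
      ← Finset.sum_mul, hw1, e12, e13, e23]
    linear_combination (-1/2) * E2
  · rw [hr2 j3 h3]
    have key : ∀ s : V → Bool, w s * ((1 - tau t1 t2 t3 t4 (s j1) (s j2) (s j3) * sg (s j3)) / 2) =
        w s * ((1 - t1) / 2) + (t1 + t2) / 4 * (w s * cutv s j1 j2) +
        (t1 + t2) / 4 * (w s * cutv s j1 j3) + (t1 - t2) / 4 * (w s * cutv s j2 j3)
        + t3 / 4 * (w s * cutv s j1 j2 + w s * cutv s j2 j3 - w s * cutv s j1 j3)
        - t4 / 4 * (w s * cutv s j1 j3 + w s * cutv s j2 j3 - w s * cutv s j1 j2) := by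
      intro s
      simp only [cutv, sg]
      rcases s j1 <;> rcases s j2 <;> rcases s j3 <;> simp [tau] <;> ring
    rw [Finset.sum_congr rfl (fun s _ => key s)]
    simp only [Finset.sum_add_distrib, Finset.sum_sub_distrib, ← Finset.mul_sum,
      ← Finset.sum_mul, hw1, e12, e13, e23]
    linear_combination (-1/2) * E3

end fin

end Pool.Agent.TH524
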