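import Pool.Agent.TH524.Metric
import Pool.Agent.TH524.Ext3

/-!
# The minimal configuration
-/

set_option autoImplicit false

open Set

namespace Pool.Agent.TH524

section core

variable {V : Type*} [Fintype V] [DecidableEq V]

/-- The minimal configuration: a point `y` of the metric polytope together with a set `E` of pairs
such that `y` cannot be matched by a cut combination on `E`, but can be on proper subsets. -/
structure Core (E : Finset (Sym2 V)) (y : V → V → ℝ) : Prop where
  mem : y ∈ MPol V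
  ne : E.Nonempty
  pos : ∀ i j, s(i, j) ∈ E → 0 < y i j ∧ y i j < 1
  cut : ∀ e ∈ E, ∃ q ∈ CUT V, (∀ i j, s(i, j) ∈ E → s(i, j) ≠ e → q i j = y i j) ∧
    ∀ i j, s(i, j) = e → q i j ≠ y i j
  ext : ∀ d : V → V → ℝ, (∃ x ∈ MPol V, ∀ i j, s(i, j) ∈ E → x i j = y i j + d i j) →
    (∃ x ∈ MPol V, ∀ i j, s(i, j) ∈ E → x i j = y i j - d i j) → ∀ i j, s(i, j) ∈ E → d i j = 0
  deg : ∀ i j, s(i, j) ∈ E → 4 ≤ (Finset.univ.filter (fun k => s(i, k) ∈ E)).card
  pent : ∀ x ∈ MPol V, (∀ i j, s(i, j) ∈ E → x i j = y i j) → ∀ p0 p1 p2 p3 p4 : V × Bool,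
    distinct5 p0 p1 p2 p3 p4 → pent x p0 p1 p2 p3 p4 < 6

/-- `y` cannot be matched by a point of the cut polytope on `F`. -/
def NC (F : Finset (Sym2 V)) (y : V → V → ℝ) : Prop :=
  ¬ ∃ q ∈ CUT V, ∀ i j, s(i, j) ∈ F → q i j = y i j

/-- The pairs inside `S`. -/
def prs (S : Finset V) : Finset (Sym2 V) :=
  Finset.univ.filter (fun e => ¬ e.IsDiag ∧ ∀ i ∈ e, i ∈ S)

theorem mem_prs {S : Finset V} {i j : V} : s(i, j) ∈ prs S ↔ i ≠ j ∧ i ∈ S ∧ j ∈ S := by
  simp only [prs, Finset.mem_filter, Finset.mem_univ, true_and, Sym2.mk_isDiag_iff, Sym2.mem_iff]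
  constructor
  · rintro ⟨h, h'⟩
    exact ⟨h, h' i (Or.inl rfl), h' j (Or.inr rfl)⟩
  · rintro ⟨h, hi, hj⟩
    refine ⟨h, ?_⟩
    rintro k (rfl | rfl)
    · exact hi
    · exact hj

/-- The projection onto the coordinates in `E`. -/
noncomputable def prE (E : Finset (Sym2 V)) : (V → V → ℝ) →L[ℝ] (V → V → ℝ) :=
  LinearMap.toContinuousLinearMap
    { toFun := fun x i j => if s(i, j) ∈ E then x i j else 0
      map_add' := by
        intro x y
        funext i j
        simp only [Pi.add_apply]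
        split_ifs <;> simp
      map_smul' := by
        intro c x
        funext i j
        simp only [Pi.smul_apply, smul_eq_mul, RingHom.id_apply]
        split_ifs <;> simp }

theorem prE_apply (E : Finset (Sym2 V)) (x : V → V → ℝ) (i j : V) :
    prE E x i j = if s(i, j) ∈ E then x i j else 0 := rfl

theorem prE_eq_iff {E : Finset (Sym2 V)} {x y : V → V → ℝ} :
    prE E x = prE E y ↔ ∀ i j, s(i, j) ∈ E → x i j = y i j := by
  constructor
  · intro h i j hij
    have := congrFun (congrFun h i) j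
    rwa [prE_apply, prE_apply, if_pos hij, if_pos hij] at this
  · intro h
    funext i j
    rw [prE_apply, prE_apply]
    split_ifs with hij
    · exact h i j hij
    · rfl

/-- Agreement on `E` propagates along the relation. -/
theorem agree_mem_Dset {E : Finset (Sym2 V)} {y x : V → V → ℝ} (hy : y ∈ Dset V) (hNC : NC E y)
    (hx : x ∈ MPol V) (hxy : ∀ i j, s(i, j) ∈ E → x i j = y i j) : x ∈ Dset V := by
  apply Dset_of_step hy hx
  rw [Set.disjoint_left]
  rintro z hz ⟨α, β, _, _, hαβ, rfl⟩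
  apply hNC
  refine ⟨_, hz, ?_⟩
  intro i j hij
  simp only [Pi.add_apply, Pi.smul_apply, smul_eq_mul, hxy i j hij]
  rw [← add_mul, hαβ, one_mul]

/-- The choice of an extreme projection. -/
theorem exists_extreme {E : Finset (Sym2 V)} {y0 : V → V → ℝ} (hy0 : y0 ∈ Dset V)
    (hNC : NC E y0) :
    ∃ y ∈ Dset V, NC E y ∧ prE E y ∈ extremePoints ℝ (prE E '' MPol V) := by
  have hR : IsCompact (prE E '' MPol V) := isCompact_MPol.image (prE E).continuous
  have hC : IsCompact (prE E '' CUT V) := isCompact_CUT.image (prE E).continuous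
  have hCconv : Convex ℝ (prE E '' CUT V) := convex_CUT.linear_image (prE E).toLinearMap
  have hnot : prE E y0 ∉ prE E '' CUT V := by
    rintro ⟨q, hq, hqe⟩
    exact hNC ⟨q, hq, prE_eq_iff.mp hqe⟩
  obtain ⟨f, c, hf, hc⟩ := geometric_hahn_banach_closed_point hCconv hC.isClosed hnot
  have hRne : (prE E '' MPol V).Nonempty := ⟨_, y0, hy0.1, rfl⟩
  obtain ⟨z1, hz1, hz1max⟩ := hR.exists_isMaxOn hRne f.continuous.continuousOn
  have hexp : IsExposed ℝ (prE E '' MPol V) (f.toExposed (prE E '' MPol V)) :=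
    ContinuousLinearMap.toExposed.isExposed
  have hFne : (f.toExposed (prE E '' MPol V)).Nonempty := ⟨z1, hz1, fun y hy => hz1max hy⟩
  have hFc : IsCompact (f.toExposed (prE E '' MPol V)) := hexp.isCompact hR
  obtain ⟨z, hz⟩ := hFc.extremePoints_nonempty hFne
  have hzR : z ∈ extremePoints ℝ (prE E '' MPol V) :=
    hexp.isExtreme.extremePoints_subset_extremePoints hz
  obtain ⟨y, hy, hyz⟩ := hzR.1
  have hmax : f (prE E y0) ≤ f (prE E y) := by
    rw [hyz]
    exact hz.1.2 _ ⟨y0, hy0.1, rfl⟩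
  have hseg : Disjoint (CUT V) (segment ℝ y0 y) := by
    rw [Set.disjoint_left]
    rintro q hq ⟨α, β, hα, hβ, hαβ, hqe⟩
    have h1 := hf _ ⟨q, hq, rfl⟩
    rw [← hqe, map_add, map_smul, map_smul, map_add, map_smul, map_smul, smul_eq_mul,
      smul_eq_mul] at h1
    have h2 : c = (α + β) * c := by rw [hαβ, one_mul]
    nlinarith
  refine ⟨y, Dset_of_step hy0 hy hseg, ?_, by rw [hyz]; exact hzR⟩
  rintro ⟨q, hq, hqy⟩
  have h1 := hf _ ⟨q, hq, rfl⟩
  rw [prE_eq_iff.mpr hqy] at h1
  linarith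

omit [Fintype V] in
/-- Three points covering a small set. -/
theorem exists_three {N : Finset V} (hne : N.Nonempty) (hcard : N.card ≤ 3) :
    ∃ a ∈ N, ∃ b ∈ N, ∃ c ∈ N, ∀ x ∈ N, x = a ∨ x = b ∨ x = c := by
  have hpos := hne.card_pos
  have h : N.card = 1 ∨ N.card = 2 ∨ N.card = 3 := by omega
  rcases h with h | h | h
  · obtain ⟨a, rfl⟩ := Finset.card_eq_one.mp h
    exact ⟨a, by simp, a, by simp, a, by simp, by simp⟩
  · obtain ⟨a, b, -, rfl⟩ := Finset.card_eq_two.mp h
    exact ⟨a, by simp, b, by simp, b, by simp, by simp⟩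
  · obtain ⟨a, b, c, -, -, -, rfl⟩ := Finset.card_eq_three.mp h
    exact ⟨a, by simp, b, by simp, c, by simp, by simp⟩

/-- Existence of a minimal configuration. -/
theorem exists_core (hne : (Dset V).Nonempty) :
    ∃ (E : Finset (Sym2 V)) (y : V → V → ℝ), Core E y := by
  classical
  obtain ⟨y00, hy00⟩ := hne
  -- minimal `S`
  obtain ⟨S, hS, hSmin⟩ := Finset.exists_min_image
    (Finset.univ.filter (fun S : Finset V => ∃ y ∈ Dset V, NC (prs S) y)) Finset.card
    ⟨Finset.univ, by
      rw [Finset.mem_filter]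
      refine ⟨Finset.mem_univ _, y00, hy00, ?_⟩
      rintro ⟨q, hq, hqy⟩
      apply hy00.2.1
      have : q = y00 := by
        funext i j
        by_cases hij : i = j
        · subst hij
          rw [(CUT_subset hq).1, hy00.1.1]
        · exact hqy i j (mem_prs.mpr ⟨hij, Finset.mem_univ _, Finset.mem_univ _⟩)
      rwa [← this]⟩
  rw [Finset.mem_filter] at hS
  obtain ⟨-, y01, hy01, hNC01⟩ := hS
  -- minimal `E`
  obtain ⟨E, hE, hEmin⟩ := Finset.exists_min_image
    ((prs S).powerset.filter (fun E : Finset (Sym2 V) => ∃ y ∈ Dset V, NC E y)) Finset.card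
    ⟨prs S, by
      rw [Finset.mem_filter, Finset.mem_powerset]
      exact ⟨Finset.Subset.refl _, y01, hy01, hNC01⟩⟩
  rw [Finset.mem_filter, Finset.mem_powerset] at hE
  obtain ⟨hES, y02, hy02, hNC02⟩ := hE
  have hSm : ∀ y ∈ Dset V, ∀ i ∈ S, ∃ q ∈ CUT V, ∀ k l, s(k, l) ∈ prs (S.erase i) →
      q k l = y k l := by
    intro y hy i hi
    by_contra hcon
    have := hSmin (S.erase i) (by
      rw [Finset.mem_filter]
      exact ⟨Finset.mem_univ _, y, hy, hcon⟩)
    exact absurd this (not_le.mpr (Finset.card_erase_lt_of_mem hi))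
  have hEm : ∀ y ∈ Dset V, ∀ e ∈ E, ∃ q ∈ CUT V, ∀ k l, s(k, l) ∈ E.erase e →
      q k l = y k l := by
    intro y hy e he
    by_contra hcon
    have := hEmin (E.erase e) (by
      rw [Finset.mem_filter, Finset.mem_powerset]
      exact ⟨(Finset.erase_subset _ _).trans hES, y, hy, hcon⟩)
    exact absurd this (not_le.mpr (Finset.card_erase_lt_of_mem he))
  obtain ⟨y, hy, hNC, hext⟩ := exists_extreme hy02 hNC02
  obtain ⟨y0, ys, yt, y2⟩ := hy.1
  -- a cut combination agreeing off `i` and on the pairs at `i` contradicts `hNC`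
  have hfin : ∀ i ∈ S, ∀ q' ∈ CUT V,
      (∀ k l, k ≠ i → l ≠ i → s(k, l) ∈ prs (S.erase i) → q' k l = y k l) →
      (∀ l, s(i, l) ∈ E → q' i l = y i l) → False := by
    intro i _ q' hq' h1 h2
    have hq's := (CUT_subset hq').2.1
    apply hNC
    refine ⟨q', hq', ?_⟩
    intro k l hkl
    obtain ⟨hne, hkS, hlS⟩ := mem_prs.mp (hES hkl)
    by_cases hk : k = i
    · subst hk
      exact h2 l hkl
    · by_cases hl : l = i
      · subst hl
        rw [hq's, ys]
        exact h2 k (by rw [Sym2.eq_swap]; exact hkl)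
      · exact h1 k l hk hl (mem_prs.mpr ⟨hne, Finset.mem_erase.mpr ⟨hk, hkS⟩,
          Finset.mem_erase.mpr ⟨hl, hlS⟩⟩)
  refine ⟨E, y, hy.1, ?_, ?_, ?_, ?_, ?_, ?_⟩
  · rw [Finset.nonempty_iff_ne_empty]
    rintro rfl
    apply hNC
    exact ⟨cutv (fun _ => false), cutv_mem_CUT _, by simp⟩
  · -- positivity
    intro i j hij
    obtain ⟨hne, hiS, hjS⟩ := mem_prs.mp (hES hij)
    obtain ⟨q, hq, hqy⟩ := hSm y hy i hiS
    have hq0 := (CUT_subset hq).1
    constructor
    · rcases (MP_nonneg hy.1 i j).eq_or_lt with h | h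
      · exfalso
        obtain ⟨q', hq', h1, h2⟩ := copy_cut hq i j true
        apply hfin i hiS q' hq'
        · intro k l hk hl hkl
          rw [h1 k l hk hl]
          exact hqy k l hkl
        · intro l hl
          obtain ⟨hne', -, hlS⟩ := mem_prs.mp (hES hl)
          rw [h2 l hne'.symm, if_pos rfl]
          by_cases hlj : l = j
          · rw [hlj, hq0, h]
          · rw [hqy j l (mem_prs.mpr ⟨fun h => hlj h.symm, Finset.mem_erase.mpr ⟨hne.symm, hjS⟩,
              Finset.mem_erase.mpr ⟨hne'.symm, hlS⟩⟩)]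
            have e1 := yt j l i
            have e2 := yt i l j
            rw [ys j i, ← h] at e1
            rw [← h] at e2
            linarith
      · exact h
    · rcases (MP_le_one hy.1 i j).eq_or_lt with h | h
      · exfalso
        obtain ⟨q', hq', h1, h2⟩ := copy_cut hq i j false
        apply hfin i hiS q' hq'
        · intro k l hk hl hkl
          rw [h1 k l hk hl]
          exact hqy k l hkl
        · intro l hl
          obtain ⟨hne', -, hlS⟩ := mem_prs.mp (hES hl)
          rw [h2 l hne'.symm, if_neg (by simp)]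
          by_cases hlj : l = j
          · rw [hlj, hq0, h]
            norm_num
          · rw [hqy j l (mem_prs.mpr ⟨fun h => hlj h.symm, Finset.mem_erase.mpr ⟨hne.symm, hjS⟩,
              Finset.mem_erase.mpr ⟨hne'.symm, hlS⟩⟩)]
            have e1 := y2 i j l
            have e2 := yt i j l
            rw [h] at e1 e2
            rw [ys l j] at e2
            linarith
      · exact h
  · -- cuts
    intro e he
    obtain ⟨q, hq, hqy⟩ := hEm y hy e he
    refine ⟨q, hq, fun i j hij hne => hqy i j (Finset.mem_erase.mpr ⟨hne, hij⟩), ?_⟩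
    intro i j hij hqij
    apply hNC
    refine ⟨q, hq, ?_⟩
    intro k l hkl
    by_cases h : s(k, l) = e
    · rw [← hij, Sym2.eq_iff] at h
      rcases h with ⟨rfl, rfl⟩ | ⟨rfl, rfl⟩
      · exact hqij
      · rw [(CUT_subset hq).2.1, ys, hqij]
    · exact hqy k l (Finset.mem_erase.mpr ⟨h, hkl⟩)
  · -- extremality
    rintro d ⟨x, hx, hxd⟩ ⟨x', hx', hxd'⟩ i j hij
    have h1 : prE E y ∈ openSegment ℝ (prE E x) (prE E x') := by
      refine ⟨1/2, 1/2, by norm_num, by norm_num, by norm_num, ?_⟩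
      funext k l
      simp only [Pi.add_apply, Pi.smul_apply, smul_eq_mul, prE_apply]
      split_ifs with hkl
      · rw [hxd k l hkl, hxd' k l hkl]; ring
      · ring
    have h2 := hext.2 ⟨x, hx, rfl⟩ ⟨x', hx', rfl⟩ h1
    have h3 := prE_eq_iff.mp h2 i j hij
    rw [hxd i j hij] at h3
    linarith
  · -- degrees
    intro i j hij
    by_contra hcon
    push Not at hcon
    obtain ⟨hne, hiS, hjS⟩ := mem_prs.mp (hES hij)
    obtain ⟨q, hq, hqy⟩ := hSm y hy i hiS
    have hq0 := (CUT_subset hq).1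
    have hmemN : ∀ k, k ∈ Finset.univ.filter (fun k => s(i, k) ∈ E) ↔ s(i, k) ∈ E := by
      intro k; simp
    obtain ⟨a, ha, b, hb, c, hc, habc⟩ := exists_three
      (N := Finset.univ.filter (fun k => s(i, k) ∈ E)) ⟨j, by simp [hij]⟩ (by omega)
    rw [hmemN] at ha hb hc
    have hin : ∀ k, s(i, k) ∈ E → i ≠ k ∧ k ∈ S := fun k hk =>
      ⟨(mem_prs.mp (hES hk)).1, (mem_prs.mp (hES hk)).2.2⟩
    have hag : ∀ k l, s(i, k) ∈ E → s(i, l) ∈ E → q k l = y k l := by
      intro k l hk hl
      by_cases hkl : k = l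
      · rw [hkl, hq0, y0]
      · exact hqy k l (mem_prs.mpr ⟨hkl, Finset.mem_erase.mpr ⟨(hin k hk).1.symm, (hin k hk).2⟩,
          Finset.mem_erase.mpr ⟨(hin l hl).1.symm, (hin l hl).2⟩⟩)
    obtain ⟨q', hq', h1, ea, eb, ec⟩ := ext3 hy.1 hq (hin a ha).1.symm (hin b hb).1.symm
      (hin c hc).1.symm (hag a b ha hb) (hag a c ha hc) (hag b c hb hc)
    apply hfin i hiS q' hq'
    · intro k l hk hl hkl
      rw [h1 k l hk hl]
      exact hqy k l hkl
    · intro l hl
      rcases habc l ((hmemN l).mpr hl) with rfl | rfl | rfl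
      · exact ea
      · exact eb
      · exact ec
  · intro x hx hxy p0 p1 p2 p3 p4 hd
    exact pent_lt (agree_mem_Dset hy hNC hx hxy) hd

end core

end Pool.Agent.TH524
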