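import Pool.Agent.TH524.Uniform

/-!
# The minimal configuration does not exist
-/

set_option autoImplicit false

open Set

namespace Pool.Agent.TH524

section final

variable {V : Type*} [Fintype V] [DecidableEq V]
  {E : Finset (Sym2 V)} {y : V → V → ℝ} {Q : Sym2 V → V → V → ℝ}

/-- The maximal extension of `y` off `E`, with a parity lower bound. -/
theorem exists_xmax (H : Core E y) (hQ : GoodQ E y Q) {r : ℕ} (hr : 3 ≤ r)
    (hyr : ∀ p q, Gadj E y Q p q → dd y p q = 1 / r) (χ : V × Bool → ℤ)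
    (hχ : ∀ p q, Gadj E y Q p q → χ q = - χ p) :
    ∃ x ∈ MPol V, (∀ i j, s(i, j) ∈ E → x i j = y i j) ∧
      ∀ p q, p ≠ q → ¬ Gadj E y Q p q →
        (χ p = χ q → min (2 / (r:ℝ)) (1 / 2) ≤ dd x p q) ∧
        (χ p ≠ χ q → min (3 / (r:ℝ)) (1 / 2) ≤ dd x p q) := by
  classical
  have hr3 : (3:ℝ) ≤ r := by exact_mod_cast hr
  have hrpos : (0:ℝ) < r := by linarith
  have ht0 : (0:ℝ) < 1 / r := by positivity
  have ht1 : (1:ℝ) / r ≤ 1 / 3 := one_div_le_one_div_of_le (by norm_num) hr3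
  set t : ℝ := 1 / r with ht
  have h2t : 2 / (r:ℝ) = 2 * t := by rw [ht]; ring
  have h3t : 3 / (r:ℝ) = 3 * t := by rw [ht]; ring
  let ρ : V × Bool → V × Bool → ℝ := fun p q =>
    if p = q then 0 else if Gadj E y Q p q then t else
      if χ p = χ q then min (2 * t) (1 / 2) else min (3 * t) (1 / 2)
  have hm2 : t ≤ min (2 * t) (1 / 2) := le_min (by linarith) (by linarith)
  have hm2' : min (2 * t) (1 / 2) ≤ 2 * t := min_le_left _ _
  have hm2'' : min (2 * t) (1 / 2) ≤ 1 / 2 := min_le_right _ _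
  have hm3'' : min (3 * t) (1 / 2) ≤ 1 / 2 := min_le_right _ _
  have hm23 : min (2 * t) (1 / 2) ≤ min (3 * t) (1 / 2) :=
    le_min ((min_le_left _ _).trans (by linarith)) (min_le_right _ _)
  have hm3 : min (3 * t) (1 / 2) ≤ min (2 * t) (1 / 2) + t := by
    rcases le_total (2 * t) (1 / 2) with h | h
    · rw [min_eq_left h]
      exact (min_le_left _ _).trans (by linarith)
    · rw [min_eq_right h]
      linarith
  have hρ0 : ∀ p, ρ p p ≤ 0 := by
    intro p
    simp [ρ]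
  have hρnn : ∀ p q, p ≠ q → t ≤ ρ p q := by
    intro p q hpq
    simp only [ρ, if_neg hpq]
    split_ifs <;> linarith
  have hρle : ∀ p q, ρ p q ≤ min (3 * t) (1 / 2) := by
    intro p q
    simp only [ρ]
    split_ifs <;> linarith
  have hρn : ∀ p q, p ≠ q → ¬ Gadj E y Q p q → min (2 * t) (1 / 2) ≤ ρ p q := by
    intro p q hpq hG
    simp only [ρ, if_neg hpq, if_neg hG]
    split_ifs
    · exact le_rfl
    · exact hm23
  have hρt : ∀ p q s, ρ p s ≤ ρ p q + ρ q s := by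
    intro p q s
    by_cases h1 : p = q
    · subst h1
      simp [ρ]
    by_cases h2 : q = s
    · subst h2
      simp [ρ]
    by_cases h3 : Gadj E y Q p q
    · by_cases h4 : Gadj E y Q q s
      · have e1 := hχ p q h3
        have e2 := hχ q s h4
        have e3 : χ p = χ s := by rw [e2, e1, neg_neg]
        have e4 := hρnn p q h1
        have e5 := hρnn q s h2
        have e6 : ρ p s ≤ 2 * t := by
          simp only [ρ]
          split_ifs <;> linarith
        linarith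
      · have := hρle p s
        have := hρnn p q h1
        have := hρn q s h2 h4
        linarith
    · have := hρle p s
      have := hρnn q s h2
      have := hρn p q h1 h3
      linarith
  have hdd_le : ∀ p q, dd y p q ≤ ell E y p q := by
    intro p q
    unfold ell
    split_ifs
    · exact le_rfl
    · exact dd_le_one H.mem p q
  have hρell : ∀ p q, ρ p q ≤ ell E y p q := by
    intro p q
    by_cases hE : s(p.1, q.1) ∈ E
    · have h1 : ell E y p q = dd y p q := if_pos hE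
      rw [h1]
      rcases Gadj_or hQ hE with hG | hG
      · have hne : p ≠ q := fun h => H.ne_base hE (by rw [h])
        simp only [ρ, if_neg hne, if_pos hG]
        rw [hyr p q hG]
      · have h2 := hyr p (bar q) hG
        rw [dd_bar_right] at h2
        have := hρle p q
        linarith
    · have h1 : ell E y p q = 1 := if_neg hE
      rw [h1]
      have := hρle p q
      linarith
  obtain ⟨x, hx, hxE, hxD⟩ := ext_chain E (a := y) H.mem.2.1
    (fun i j h => ⟨MP_nonneg H.mem i j, MP_le_one H.mem i j⟩) (by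
      intro p t ht
      have := Ch.ge (dd y) (fun p => (dd_self H.mem p).le) (dd_triangle H.mem) hdd_le ht
      rwa [dd_bar_self H.mem] at this)
  refine ⟨x, hx, hxE, ?_⟩
  intro p q hpq hG
  have h1 := Dch_ge ρ hρ0 hρt hρell p q
  have h2 := hxD p q
  have h3 : ρ p q ≤ dd x p q := by
    apply le_trans _ h2
    apply le_min h1
    exact (hρle p q).trans hm3''
  rw [h2t, h3t]
  constructor
  · intro hc
    apply le_trans _ h3
    simp only [ρ, if_neg hpq, if_neg hG, if_pos hc]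
    exact le_rfl
  · intro hc
    apply le_trans _ h3
    simp only [ρ, if_neg hpq, if_neg hG, if_neg hc]
    exact le_rfl

/-- The table metric for `r = 5`. -/
theorem exists_table (H : Core E y) (hQ : GoodQ E y Q)
    (hyr : ∀ p q, Gadj E y Q p q → dd y p q = 1 / 5) (χ : V × Bool → ℤ)
    (hχ1 : ∀ p, χ p = 1 ∨ χ p = -1) (hχb : ∀ p, χ (bar p) = - χ p)
    (hχ : ∀ p q, Gadj E y Q p q → χ q = - χ p) :
    ∃ x ∈ MPol V, (∀ i j, s(i, j) ∈ E → x i j = y i j) ∧
      ∀ p q, p.1 ≠ q.1 → ¬ Gadj E y Q p q →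
        (χ p = χ q → 2 / 5 ≤ dd x p q) ∧ (χ p ≠ χ q → 3 / 5 ≤ dd x p q) := by
  classical
  let x : V → V → ℝ := fun i j => if i = j then 0 else if s(i, j) ∈ E then y i j else
    if χ (i, false) = χ (j, false) then 2 / 5 else 3 / 5
  have hx0 : ∀ i, x i i = 0 := by intro i; simp [x]
  have hxE : ∀ i j, s(i, j) ∈ E → x i j = y i j := by
    intro i j hij
    have hne : i ≠ j := H.ne_base (p := (i, false)) (q := (j, false)) hij
    simp only [x, if_neg hne, if_pos hij]
  have hxs : ∀ i j, x i j = x j i := by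
    intro i j
    simp only [x]
    by_cases h1 : i = j
    · subst h1; rfl
    · have h1' : ¬ j = i := fun h => h1 h.symm
      by_cases hE : s(i, j) ∈ E
      · have hE' : s(j, i) ∈ E := by rw [Sym2.eq_swap]; exact hE
        rw [if_neg h1, if_pos hE, if_neg h1', if_pos hE', H.mem.2.1 i j]
      · have hE' : s(j, i) ∉ E := by rw [Sym2.eq_swap]; exact hE
        rw [if_neg h1, if_neg hE, if_neg h1', if_neg hE']
        by_cases h2 : χ (i, false) = χ (j, false)
        · rw [if_pos h2, if_pos h2.symm]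
        · rw [if_neg h2, if_neg (fun h => h2 h.symm)]
  have hχt : ∀ i, χ (i, true) = - χ (i, false) := fun i => hχb (i, false)
  -- values off `E`
  have hval : ∀ p q : V × Bool, p.1 ≠ q.1 → s(p.1, q.1) ∉ E →
      (χ p = χ q ∧ dd x p q = 2 / 5) ∨ (χ p = - χ q ∧ dd x p q = 3 / 5) := by
    rintro ⟨i, a⟩ ⟨j, b⟩ hne hnE
    simp only at hne hnE
    have hi := hχ1 (i, false)
    have hj := hχ1 (j, false)
    have hxij : x i j = if χ (i, false) = χ (j, false) then 2 / 5 else 3 / 5 := by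
      simp only [x, if_neg hne, if_neg hnE]
    by_cases hc : χ (i, false) = χ (j, false)
    · rw [if_pos hc] at hxij
      cases a <;> cases b <;> simp only [dd, hxij, hχt, if_true, reduceCtorEq, if_false]
      · left; exact ⟨hc, trivial⟩
      · right; exact ⟨by rw [hc, neg_neg], by norm_num⟩
      · right; exact ⟨by rw [hc], by norm_num⟩
      · left; exact ⟨by rw [hc], trivial⟩
    · rw [if_neg hc] at hxij
      have hc' : χ (i, false) = - χ (j, false) := by omega
      cases a <;> cases b <;> simp only [dd, hxij, hχt, if_true, reduceCtorEq, if_false]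
      · right; exact ⟨hc', trivial⟩
      · left; exact ⟨hc', by norm_num⟩
      · left; exact ⟨by rw [hc', neg_neg], by norm_num⟩
      · right; exact ⟨by rw [hc'], trivial⟩
  -- classification
  have hcls : ∀ p q : V × Bool,
      (p = q ∧ dd x p q = 0 ∧ χ p = χ q) ∨ (Gadj E y Q p q ∧ dd x p q = 1 / 5 ∧ χ p = - χ q) ∨
      (dd x p q = 2 / 5 ∧ χ p = χ q) ∨ (dd x p q = 3 / 5 ∧ χ p = - χ q) ∨
      (Gadj E y Q p (bar q) ∧ dd x p q = 4 / 5 ∧ χ p = χ q) ∨
      (p = bar q ∧ dd x p q = 1 ∧ χ p = - χ q) := by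
    intro p q
    by_cases hb : p.1 = q.1
    · rcases eq_or_eq_bar hb with rfl | rfl
      · left
        exact ⟨rfl, by simp [dd, hx0], rfl⟩
      · right; right; right; right; right
        exact ⟨rfl, by rw [dd_bar_left]; simp [dd, hx0], hχb q⟩
    · by_cases hE : s(p.1, q.1) ∈ E
      · have hxy : dd x p q = dd y p q := dd_congr (hxE _ _ hE)
        rcases Gadj_or hQ hE with hG | hG
        · right; left
          exact ⟨hG, by rw [hxy, hyr p q hG], by rw [hχ p q hG, neg_neg]⟩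
        · right; right; right; right; left
          have h1 := hyr p (bar q) hG
          rw [dd_bar_right] at h1
          have h2 := hχ p (bar q) hG
          rw [hχb] at h2
          exact ⟨hG, by rw [hxy]; linarith, by linarith⟩
      · rcases hval p q hb hE with ⟨h1, h2⟩ | ⟨h1, h2⟩
        · right; right; left
          exact ⟨h2, h1⟩
        · right; right; right; left
          exact ⟨h2, h1⟩
  have hsymm := dd_symm' hxs
  refine ⟨x, ?_, hxE, ?_⟩
  · apply mem_MPol_of_dd hx0 hxs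
    intro p q s
    by_contra hcon
    push Not at hcon
    have hp := hχ1 p
    have hq := hχ1 q
    have hs := hχ1 s
    rcases hcls p s with ⟨h1, h2, h3⟩ | ⟨h1, h2, h3⟩ | ⟨h2, h3⟩ | ⟨h2, h3⟩ | ⟨h1, h2, h3⟩ |
      ⟨h1, h2, h3⟩
    · rcases hcls p q with ⟨a1, a2, a3⟩ | ⟨a1, a2, a3⟩ | ⟨a2, a3⟩ | ⟨a2, a3⟩ | ⟨a1, a2, a3⟩ |
        ⟨a1, a2, a3⟩ <;>
      rcases hcls q s with ⟨b1, b2, b3⟩ | ⟨b1, b2, b3⟩ | ⟨b2, b3⟩ | ⟨b2, b3⟩ | ⟨b1, b2, b3⟩ |
        ⟨b1, b2, b3⟩ <;> linarith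
    · rcases hcls p q with ⟨a1, a2, a3⟩ | ⟨a1, a2, a3⟩ | ⟨a2, a3⟩ | ⟨a2, a3⟩ | ⟨a1, a2, a3⟩ |
        ⟨a1, a2, a3⟩ <;>
      rcases hcls q s with ⟨b1, b2, b3⟩ | ⟨b1, b2, b3⟩ | ⟨b2, b3⟩ | ⟨b2, b3⟩ | ⟨b1, b2, b3⟩ |
        ⟨b1, b2, b3⟩ <;> first | linarith | omega
    · rcases hcls p q with ⟨a1, a2, a3⟩ | ⟨a1, a2, a3⟩ | ⟨a2, a3⟩ | ⟨a2, a3⟩ | ⟨a1, a2, a3⟩ |
        ⟨a1, a2, a3⟩ <;>
      rcases hcls q s with ⟨b1, b2, b3⟩ | ⟨b1, b2, b3⟩ | ⟨b2, b3⟩ | ⟨b2, b3⟩ | ⟨b1, b2, b3⟩ |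
        ⟨b1, b2, b3⟩ <;> first | linarith | omega | (rw [a1] at h2; linarith)
    · rcases hcls p q with ⟨a1, a2, a3⟩ | ⟨a1, a2, a3⟩ | ⟨a2, a3⟩ | ⟨a2, a3⟩ | ⟨a1, a2, a3⟩ |
        ⟨a1, a2, a3⟩ <;>
      rcases hcls q s with ⟨b1, b2, b3⟩ | ⟨b1, b2, b3⟩ | ⟨b2, b3⟩ | ⟨b2, b3⟩ | ⟨b1, b2, b3⟩ |
        ⟨b1, b2, b3⟩ <;> first | linarith | omega | (rw [a1] at h2; linarith) |
          (rw [← b1] at h2; linarith)
    · rcases hcls p q with ⟨a1, a2, a3⟩ | ⟨a1, a2, a3⟩ | ⟨a2, a3⟩ | ⟨a2, a3⟩ | ⟨a1, a2, a3⟩ |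
        ⟨a1, a2, a3⟩ <;>
      rcases hcls q s with ⟨b1, b2, b3⟩ | ⟨b1, b2, b3⟩ | ⟨b2, b3⟩ | ⟨b2, b3⟩ | ⟨b1, b2, b3⟩ |
        ⟨b1, b2, b3⟩ <;> first | linarith | omega | (rw [a1] at h2; linarith) |
          (rw [← b1] at h2; linarith) | skip
      -- the only remaining case: `p ~ q ~ s ~ bar p`
      have e1 := hyr p q a1
      have e2 := hyr q s b1
      have e3 := hyr p (bar s) h1
      have e4 := dd_triangle H.mem p q s
      rw [dd_bar_right] at e3
      linarith
    · have hb : dd x p q = 1 - dd x q s := by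
        rw [h1, dd_bar_left, hsymm s q]
      linarith
  · intro p q hpq hG
    rcases hcls p q with ⟨h1, h2, h3⟩ | ⟨h1, h2, h3⟩ | ⟨h2, h3⟩ | ⟨h2, h3⟩ | ⟨h1, h2, h3⟩ |
      ⟨h1, h2, h3⟩
    · exact absurd (by rw [h1]) hpq
    · exact absurd h1 hG
    · exact ⟨fun _ => h2.ge, fun h => absurd h3 h⟩
    · refine ⟨fun h => ?_, fun _ => h2.ge⟩
      rcases hχ1 p with h4 | h4 <;> rcases hχ1 q with h5 | h5 <;> omega
    · exact ⟨fun _ => by rw [h2]; norm_num, fun h => absurd h3 h⟩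
    · exact absurd (by rw [h1, bar_fst]) hpq

end final

end Pool.Agent.TH524
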