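import Mathlib

/-!
# A Lehman / de Bruijn–Erdős type lemma

Let `Cs` be a family of subsets of a finite set with indicator vectors spanning the dual space, all
of `u`-measure one, and suppose that for every element `e` the vector `u` is, off `e`, the vector of
marginals of a probability on sets meeting every member of `Cs` in an odd number of points.  If the
members of `Cs` have at most half of the elements, then `u` is constant.
-/

set_option autoImplicit false

open Finset Module

namespace Pool.Agent.TH524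

section lehman

variable {ε : Type*} [Fintype ε] [DecidableEq ε]

/-- The incidence map of a finite family of finsets. -/
def incMap (A : Finset (Finset ε)) : (ε → ℝ) →ₗ[ℝ] (A → ℝ) where
  toFun w := fun C => ∑ f ∈ C.1, w f
  map_add' := by
    intro x y
    funext C
    simp [Finset.sum_add_distrib]
  map_smul' := by
    intro c x
    funext C
    simp [Finset.mul_sum]

omit [DecidableEq ε] [Fintype ε] in
theorem incMap_apply (A : Finset (Finset ε)) (w : ε → ℝ) (C : A) :
    incMap A w C = ∑ f ∈ C.1, w f := rfl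

/-- A separating subfamily of minimal size is a basis. -/
theorem exists_basis (Cs : Set (Finset ε))
    (h3 : ∀ w : ε → ℝ, (∀ C ∈ Cs, ∑ f ∈ C, w f = 0) → w = 0) :
    ∃ A : Finset (Finset ε), (∀ C ∈ A, C ∈ Cs) ∧
      (∀ w : ε → ℝ, (∀ C ∈ A, ∑ f ∈ C, w f = 0) → w = 0) ∧ A.card = Fintype.card ε := by
  classical
  obtain ⟨A, hA, hmin⟩ := Finset.exists_min_image
    (Finset.univ.filter (fun A : Finset (Finset ε) => (∀ C ∈ A, C ∈ Cs) ∧
      (∀ w : ε → ℝ, (∀ C ∈ A, ∑ f ∈ C, w f = 0) → w = 0))) Finset.card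
    ⟨Finset.univ.filter (fun C => C ∈ Cs), by
      simp only [Finset.mem_filter, Finset.mem_univ, true_and]
      exact ⟨fun C hC => hC, h3⟩⟩
  simp only [Finset.mem_filter, Finset.mem_univ, true_and] at hA hmin
  obtain ⟨hACs, hAinj⟩ := hA
  refine ⟨A, hACs, hAinj, ?_⟩
  have hex : ∀ C : A, ∃ w : ε → ℝ, (∀ C' ∈ A, C' ≠ C.1 → ∑ f ∈ C', w f = 0) ∧
      ∑ f ∈ C.1, w f ≠ 0 := by
    intro C
    by_contra hcon
    push Not at hcon
    have := hmin (A.erase C.1) ⟨fun C' hC' => hACs C' (Finset.mem_of_mem_erase hC'), by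
      intro w hw
      apply hAinj
      intro C' hC'
      by_cases h : C' = C.1
      · rw [h]
        apply hcon w
        intro C'' hC'' hne
        exact hw C'' (Finset.mem_erase.mpr ⟨hne, hC''⟩)
      · exact hw C' (Finset.mem_erase.mpr ⟨h, hC'⟩)⟩
    exact absurd this (not_le.mpr (Finset.card_erase_lt_of_mem C.2))
  choose W hW1 hW2 using hex
  have hinj : Function.Injective (incMap A) := by
    rw [injective_iff_map_eq_zero]
    intro w hw
    apply hAinj
    intro C hC
    exact congrFun hw ⟨C, hC⟩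
  have hsurj : Function.Surjective (incMap A) := by
    intro g
    refine ⟨∑ C : A, (g C / ∑ f ∈ C.1, W C f) • W C, ?_⟩
    rw [map_sum]
    funext C'
    rw [Finset.sum_apply, Finset.sum_eq_single C']
    · rw [map_smul, Pi.smul_apply, incMap_apply, smul_eq_mul, div_mul_cancel₀ _ (hW2 C')]
    · intro C _ hne
      rw [map_smul, Pi.smul_apply, incMap_apply, hW1 C C'.1 C'.2 (fun h => hne (Subtype.ext h.symm)),
        smul_zero]
    · intro h
      exact absurd (Finset.mem_univ _) h
  have heq := (LinearEquiv.ofBijective (incMap A) ⟨hinj, hsurj⟩).finrank_eq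
  rw [Module.finrank_fintype_fun_eq_card, Module.finrank_fintype_fun_eq_card,
    Fintype.card_coe] at heq
  exact heq.symm

variable {β : Type*} [Fintype β]

omit [Fintype ε] in
/-- Each set of the support meets each member of the family avoiding `e` exactly once. -/
theorem supp_inter (Cs : Set (Finset ε)) (B : β → Finset ε) (u : ε → ℝ)
    (h1 : ∀ C ∈ Cs, ∑ f ∈ C, u f = 1)
    (h2 : ∀ C ∈ Cs, ∀ b, Odd (B b ∩ C).card) (e : ε) (l : β → ℝ) (hl0 : ∀ b, 0 ≤ l b)
    (hl1 : ∑ b, l b = 1) (hl : ∀ f, f ≠ e → ∑ b, (if f ∈ B b then l b else 0) = u f)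
    {C : Finset ε} (hC : C ∈ Cs) (heC : e ∉ C) {b : β} (hb : 0 < l b) :
    (B b ∩ C).card = 1 := by
  have hcard : ∀ b, ((B b ∩ C).card : ℝ) = ∑ f ∈ C, (if f ∈ B b then (1:ℝ) else 0) := by
    intro b
    rw [Finset.sum_ite_mem, Finset.sum_const, nsmul_eq_mul, mul_one, Finset.inter_comm]
  have hsum : ∑ b, l b * ((B b ∩ C).card - 1 : ℝ) = 0 := by
    have : ∑ b, l b * ((B b ∩ C).card : ℝ) = 1 := by
      calc ∑ b, l b * ((B b ∩ C).card : ℝ)
          = ∑ b, ∑ f ∈ C, (if f ∈ B b then l b else 0) := by
            apply Finset.sum_congr rfl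
            intro b _
            rw [hcard, Finset.mul_sum]
            apply Finset.sum_congr rfl
            intro f _
            split_ifs <;> simp
        _ = ∑ f ∈ C, ∑ b, (if f ∈ B b then l b else 0) := Finset.sum_comm
        _ = ∑ f ∈ C, u f := by
            apply Finset.sum_congr rfl
            intro f hf
            exact hl f (fun h => heC (h ▸ hf))
        _ = 1 := h1 C hC
    simp only [mul_sub, mul_one, Finset.sum_sub_distrib, this, hl1, sub_self]
  have hpos : ∀ b, 1 ≤ (B b ∩ C).card := fun b => (h2 C hC b).pos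
  have hterm := (Finset.sum_eq_zero_iff_of_nonneg (fun b _ => mul_nonneg (hl0 b) (by
    have : (1:ℝ) ≤ ((B b ∩ C).card : ℝ) := by exact_mod_cast hpos b
    linarith))).mp hsum b (Finset.mem_univ b)
  rcases mul_eq_zero.mp hterm with h | h
  · exact absurd h hb.ne'
  · have : ((B b ∩ C).card : ℝ) = 1 := by linarith
    exact_mod_cast this

/-- Indicator vector. -/
def ind (s : Finset ε) : ε → ℝ := fun f => if f ∈ s then 1 else 0

omit [Fintype ε] in
theorem sum_ind (s C : Finset ε) : ∑ f ∈ C, ind s f = ((s ∩ C).card : ℝ) := by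
  simp only [ind]
  rw [Finset.sum_ite_mem, Finset.sum_const, nsmul_eq_mul, mul_one, Finset.inter_comm]

/-- The vectors used in the dimension count. -/
def wvec (B : β → Finset ε) (bk : ε → β) (e k0 k : ε) : ε → ℝ :=
  if k = k0 then Pi.single e 1 else ind (B (bk k)) - ind (B (bk k0))

/-- The linear combination map. -/
def Wmap (B : β → Finset ε) (bk : ε → β) (e k0 : ε) (C0 : Finset ε) :
    (C0 → ℝ) →ₗ[ℝ] (ε → ℝ) where
  toFun α := ∑ k : C0, α k • wvec B bk e k0 k.1
  map_add' := by
    intro x y
    simp only [Pi.add_apply, add_smul, Finset.sum_add_distrib]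
  map_smul' := by
    intro c x
    simp only [Pi.smul_apply, smul_eq_mul, mul_smul, RingHom.id_apply, Finset.smul_sum]

omit [Fintype ε] [Fintype β] in
theorem Wmap_apply (B : β → Finset ε) (bk : ε → β) (e k0 : ε) (C0 : Finset ε) (α : C0 → ℝ) :
    Wmap B bk e k0 C0 α = ∑ k : C0, α k • wvec B bk e k0 k.1 := rfl

omit [Fintype ε] [Fintype β] in
/-- If a combination vanishes on `C0` then it is supported at `k0`. -/
theorem Wmap_supp (B : β → Finset ε) (bk : ε → β) {e k0 : ε} {C0 : Finset ε} (hk0 : k0 ∈ C0)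
    (heC : e ∉ C0) (hbk : ∀ k ∈ C0, ∀ j ∈ C0, j ∈ B (bk k) ↔ j = k) (α : C0 → ℝ)
    (hz : ∀ j ∈ C0, Wmap B bk e k0 C0 α j = 0) (j : C0) (hj : j.1 ≠ k0) : α j = 0 := by
  have h := hz j.1 j.2
  rw [Wmap_apply, Finset.sum_apply, Finset.sum_eq_single j] at h
  · have hne : wvec B bk e k0 j.1 j.1 = 1 := by
      simp only [wvec, if_neg hj, Pi.sub_apply, ind]
      rw [if_pos ((hbk j.1 j.2 j.1 j.2).mpr rfl), if_neg (fun h => hj ((hbk k0 hk0 j.1 j.2).mp h))]
      ring
    simpa [hne] using h
  · intro k _ hkj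
    have hne : wvec B bk e k0 k.1 j.1 = 0 := by
      by_cases hk : k.1 = k0
      · simp only [wvec, if_pos hk]
        rw [Pi.single_apply, if_neg]
        intro h
        exact heC (h ▸ j.2)
      · simp only [wvec, if_neg hk, Pi.sub_apply, ind]
        rw [if_neg (fun h => hkj (Subtype.ext ((hbk k.1 k.2 j.1 j.2).mp h).symm)),
          if_neg (fun h => hj ((hbk k0 hk0 j.1 j.2).mp h))]
        ring
    simp [hne]
  · intro h
    exact absurd (Finset.mem_univ _) h

omit [Fintype ε] [Fintype β] in
/-- A combination supported at `k0` is a multiple of the unit vector at `e`. -/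
theorem Wmap_single (B : β → Finset ε) (bk : ε → β) {e k0 : ε} {C0 : Finset ε} (hk0 : k0 ∈ C0)
    (α : C0 → ℝ) (hz : ∀ j : C0, j.1 ≠ k0 → α j = 0) :
    Wmap B bk e k0 C0 α = α ⟨k0, hk0⟩ • Pi.single e 1 := by
  rw [Wmap_apply, Finset.sum_eq_single ⟨k0, hk0⟩]
  · simp [wvec]
  · intro k _ hne
    rw [hz k (fun h => hne (Subtype.ext h)), zero_smul]
  · intro h
    exact absurd (Finset.mem_univ _) h

omit [Fintype ε] [Fintype β] in
/-- The vectors have zero sum over sets avoiding `e` and meeting the relevant sets once. -/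
theorem wvec_sum (B : β → Finset ε) (bk : ε → β) {e k0 k : ε} {C : Finset ε} (heC : e ∉ C)
    (h : ((B (bk k)) ∩ C).card = 1) (h0 : ((B (bk k0)) ∩ C).card = 1) :
    ∑ f ∈ C, wvec B bk e k0 k f = 0 := by
  by_cases hk : k = k0
  · simp only [wvec, if_pos hk]
    apply Finset.sum_eq_zero
    intro f hf
    rw [Pi.single_apply, if_neg]
    intro h'
    exact heC (h' ▸ hf)
  · simp only [wvec, if_neg hk, Pi.sub_apply, Finset.sum_sub_distrib, sum_ind, h, h0]
    simp

/-- The restricted map. -/
def Lmap (A : Finset (Finset ε)) (B : β → Finset ε) (bk : ε → β) (e k0 : ε) (C0 : Finset ε) :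
    (C0 → ℝ) →ₗ[ℝ] ((A.filter (fun C => e ∈ C) : Finset (Finset ε)) → ℝ) :=
  (incMap (A.filter (fun C => e ∈ C))).comp (Wmap B bk e k0 C0)


omit [Fintype ε] [Fintype β] in
/-- The set-up of the dimension count: injectivity of `Lmap`. -/
theorem Lmap_inj (A : Finset (Finset ε)) (hAinj : ∀ w : ε → ℝ, (∀ C ∈ A, ∑ f ∈ C, w f = 0) → w = 0)
    (B : β → Finset ε) (bk : ε → β) {e k0 : ε} {C0 : Finset ε} (hk0 : k0 ∈ C0)
    (heC : e ∉ C0) (hbk : ∀ k ∈ C0, ∀ j ∈ C0, j ∈ B (bk k) ↔ j = k)
    (hone : ∀ k ∈ C0, ∀ C ∈ A, e ∉ C → (B (bk k) ∩ C).card = 1) :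
    Function.Injective (Lmap A B bk e k0 C0) := by
  rw [injective_iff_map_eq_zero]
  intro α hα
  have hW : Wmap B bk e k0 C0 α = 0 := by
    apply hAinj
    intro C hC
    by_cases he : e ∈ C
    · exact congrFun hα ⟨C, Finset.mem_filter.mpr ⟨hC, he⟩⟩
    · rw [Wmap_apply]
      simp only [Finset.sum_apply, Pi.smul_apply, smul_eq_mul]
      rw [Finset.sum_comm]
      apply Finset.sum_eq_zero
      intro k _
      rw [← Finset.mul_sum, wvec_sum B bk he (hone k.1 k.2 C hC he) (hone k0 hk0 C hC he), mul_zero]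
  have hsupp := Wmap_supp B bk hk0 heC hbk α (fun j _ => by rw [hW]; rfl)
  have hsing := Wmap_single B bk (e := e) hk0 α hsupp
  rw [hW] at hsing
  have h0 : α ⟨k0, hk0⟩ = 0 := by
    have := congrFun hsing e
    simpa using this.symm
  funext j
  by_cases hj : j.1 = k0
  · have : j = ⟨k0, hk0⟩ := Subtype.ext hj
    rw [this, h0]; rfl
  · exact hsupp j hj

/-- The main lemma. -/
theorem lehman [Nonempty ε] (Cs : Set (Finset ε)) (B : β → Finset ε) (u : ε → ℝ)
    (hu : ∀ e, 0 < u e) (h1 : ∀ C ∈ Cs, ∑ f ∈ C, u f = 1)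
    (h2 : ∀ C ∈ Cs, ∀ b, Odd (B b ∩ C).card)
    (h3 : ∀ w : ε → ℝ, (∀ C ∈ Cs, ∑ f ∈ C, w f = 0) → w = 0)
    (h4 : ∀ e, ∃ l : β → ℝ, (∀ b, 0 ≤ l b) ∧ ∑ b, l b = 1 ∧
      ∀ f, f ≠ e → ∑ b, (if f ∈ B b then l b else 0) = u f)
    (h5 : ∀ C ∈ Cs, 2 * C.card ≤ Fintype.card ε) :
    ∃ r : ℕ, (∀ C ∈ Cs, C.card = r) ∧ (∀ e, u e = 1 / r) ∧
      ∀ e, (∃ K : Finset β, K.card = r ∧
          (∀ f, f ≠ e → (K.filter (fun b => f ∈ B b)).card = 1) ∧
          Odd (K.filter (fun b => e ∈ B b)).card) ∧
        (∃ A : Finset (Finset ε), (∀ C ∈ A, C ∈ Cs ∧ e ∈ C) ∧ A.card = r) := by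
  classical
  obtain ⟨A, hACs, hAinj, hAcard⟩ := exists_basis Cs h3
  set m := Fintype.card ε with hm
  have hmpos : 0 < m := Fintype.card_pos
  have hCne : ∀ C ∈ Cs, C.Nonempty := by
    intro C hC
    rw [Finset.nonempty_iff_ne_empty]
    rintro rfl
    have := h1 _ hC
    simp at this
  have hAne : A.Nonempty := by
    rw [← Finset.card_pos, hAcard]; exact hmpos
  obtain ⟨C1, hC1⟩ := hAne
  have hC1pos : 0 < C1.card := (hCne C1 (hACs C1 hC1)).card_pos
  have hm2 : 2 ≤ m := by
    have := h5 C1 (hACs C1 hC1)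
    omega
  have hClt : ∀ C ∈ A, C.card < m := by
    intro C hC
    have := h5 C (hACs C hC)
    omega
  -- the degrees
  set c : ε → ℕ := fun e => (A.filter (fun C => e ∈ C)).card with hc
  have hcle : ∀ e, c e ≤ m := fun e => (Finset.card_filter_le _ _).trans hAcard.le
  have hclt : ∀ e, c e < m := by
    intro e
    rcases (hcle e).lt_or_eq with h | h
    · exact h
    · exfalso
      have hall : ∀ C ∈ A, e ∈ C := by
        have : A.filter (fun C => e ∈ C) = A :=
          Finset.eq_of_subset_of_card_le (Finset.filter_subset _ _) (by rw [hAcard]; exact h.ge)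
        intro C hC
        rw [← this] at hC
        exact (Finset.mem_filter.mp hC).2
      have hw := hAinj (fun f => u f - (Pi.single e (1:ℝ) : ε → ℝ) f) (by
        intro C hC
        rw [Finset.sum_sub_distrib, h1 C (hACs C hC)]
        have : ∑ f ∈ C, (Pi.single e (1:ℝ) : ε → ℝ) f = 1 := by
          rw [Finset.sum_eq_single e]
          · simp
          · intro f _ hf
            rw [Pi.single_apply, if_neg hf]
          · intro h'
            exact absurd (hall C hC) h'
        rw [this, sub_self])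
      obtain ⟨f, hf⟩ : ∃ f, f ≠ e := by
        have : Nontrivial ε := by
          rw [← Fintype.one_lt_card_iff_nontrivial]
          omega
        exact exists_ne e
      have := congrFun hw f
      simp only [Pi.single_apply, if_neg hf, sub_zero, Pi.zero_apply] at this
      exact absurd this (hu f).ne'
  -- data for each `e`
  have hdata : ∀ e, ∃ (l : β → ℝ) (bk : ε → β), (∀ b, 0 ≤ l b) ∧ ∑ b, l b = 1 ∧
      (∀ f, f ≠ e → ∑ b, (if f ∈ B b then l b else 0) = u f) ∧
      (∀ k, k ≠ e → 0 < l (bk k) ∧ k ∈ B (bk k)) := by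
    intro e
    obtain ⟨l, hl0, hl1, hl⟩ := h4 e
    have hne : Nonempty β := by
      by_contra hcon
      rw [not_nonempty_iff] at hcon
      simp at hl1
    have hex : ∀ k, ∃ b, k ≠ e → (0 < l b ∧ k ∈ B b) := by
      intro k
      by_cases hk : k = e
      · exact ⟨hne.some, fun h => absurd hk h⟩
      · have hpos : 0 < ∑ b, (if k ∈ B b then l b else 0) := by rw [hl k hk]; exact hu k
        obtain ⟨b, -, hb⟩ := Finset.exists_ne_zero_of_sum_ne_zero hpos.ne'
        refine ⟨b, fun _ => ?_⟩
        by_cases hkb : k ∈ B b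
        · rw [if_pos hkb] at hb
          exact ⟨lt_of_le_of_ne (hl0 b) hb.symm, hkb⟩
        · rw [if_neg hkb] at hb
          exact absurd rfl hb
    choose bk hbk using hex
    exact ⟨l, bk, hl0, hl1, hl, hbk⟩
  choose l bk hl0 hl1 hl hbk using hdata
  have honeAll : ∀ e, ∀ C ∈ Cs, e ∉ C → ∀ b, 0 < l e b → (B b ∩ C).card = 1 := fun e C hC heC b hb =>
    supp_inter Cs B u h1 h2 e (l e) (hl0 e) (hl1 e) (hl e) hC heC hb
  have hbkiff : ∀ e, ∀ C ∈ Cs, e ∉ C → ∀ k ∈ C, ∀ j ∈ C, j ∈ B (bk e k) ↔ j = k := by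
    intro e C hC heC k hk j hj
    have hke : k ≠ e := fun h => heC (h ▸ hk)
    have hcard := honeAll e C hC heC (bk e k) (hbk e k hke).1
    rw [Finset.card_eq_one] at hcard
    obtain ⟨x, hx⟩ := hcard
    have hkx : k = x := by
      have : k ∈ B (bk e k) ∩ C := Finset.mem_inter.mpr ⟨(hbk e k hke).2, hk⟩
      rw [hx] at this
      exact Finset.mem_singleton.mp this
    constructor
    · intro hjB
      have : j ∈ B (bk e k) ∩ C := Finset.mem_inter.mpr ⟨hjB, hj⟩
      rw [hx] at this
      rw [Finset.mem_singleton.mp this, hkx]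
    · rintro rfl
      exact (hbk e j hke).2
  have hLinj : ∀ e, ∀ C0 ∈ A, e ∉ C0 → ∀ k0 ∈ C0,
      Function.Injective (Lmap A B (bk e) e k0 C0) := by
    intro e C0 hC0 heC k0 hk0
    apply Lmap_inj A hAinj B (bk e) hk0 heC (hbkiff e C0 (hACs C0 hC0) heC)
    intro k hk C hC heC'
    exact honeAll e C (hACs C hC) heC' _ (hbk e k (fun h => heC (h ▸ hk))).1
  have hle : ∀ e, ∀ C0 ∈ A, e ∉ C0 → C0.card ≤ c e := by
    intro e C0 hC0 heC
    obtain ⟨k0, hk0⟩ := hCne C0 (hACs C0 hC0)
    have := LinearMap.finrank_le_finrank_of_injective (hLinj e C0 hC0 heC k0 hk0)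
    rwa [Module.finrank_fintype_fun_eq_card, Module.finrank_fintype_fun_eq_card,
      Fintype.card_coe, Fintype.card_coe] at this
  -- double counting
  have heq : ∀ e, ∀ C0 ∈ A, e ∉ C0 → C0.card = c e := by
    have hmC : ∀ C ∈ A, (0:ℝ) < m - C.card := by
      intro C hC
      have : (C.card : ℝ) < m := by exact_mod_cast hClt C hC
      linarith
    have hmc : ∀ e, (0:ℝ) < m - c e := by
      intro e
      have : (c e : ℝ) < m := by exact_mod_cast hclt e
      linarith
    have hsum1 : ∑ C ∈ A, ∑ e : ε, (if e ∉ C then (1:ℝ) / (m - C.card) else 0) = m := by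
      have : ∀ C ∈ A, ∑ e : ε, (if e ∉ C then (1:ℝ) / (m - C.card) else 0) = 1 := by
        intro C hC
        rw [← Finset.sum_filter, Finset.sum_const, nsmul_eq_mul]
        have h1 : (Finset.univ.filter (fun e => e ∉ C)) = Cᶜ := by
          ext x; simp
        rw [h1, Finset.card_compl, Nat.cast_sub (hClt C hC).le, mul_one_div, div_self (hmC C hC).ne']
      rw [Finset.sum_congr rfl this, Finset.sum_const, nsmul_eq_mul, mul_one, hAcard]
    have hsum2 : ∑ C ∈ A, ∑ e : ε, (if e ∉ C then (1:ℝ) / (m - c e) else 0) = m := by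
      rw [Finset.sum_comm]
      have : ∀ e ∈ (Finset.univ : Finset ε),
          ∑ C ∈ A, (if e ∉ C then (1:ℝ) / (m - c e) else 0) = 1 := by
        intro e _
        rw [← Finset.sum_filter, Finset.sum_const, nsmul_eq_mul]
        have h1 : ((A.filter (fun C => e ∉ C)).card : ℝ) = m - c e := by
          have h2 := Finset.card_filter_add_card_filter_not (s := A) (fun C => e ∈ C)
          rw [hAcard] at h2
          have h3 : ((A.filter (fun C => e ∈ C)).card : ℝ) + (A.filter (fun C => e ∉ C)).card = m := by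
            exact_mod_cast h2
          simp only [hc]
          linarith
        rw [h1, mul_one_div, div_self (hmc e).ne']
      rw [Finset.sum_congr rfl this, Finset.sum_const, nsmul_eq_mul, mul_one, Finset.card_univ]
    have hdiff : ∑ C ∈ A, ∑ e : ε, (if e ∉ C then (1:ℝ) / (m - c e) - 1 / (m - C.card) else 0) = 0 := by
      have : ∀ C ∈ A, ∑ e : ε, (if e ∉ C then (1:ℝ) / (m - c e) - 1 / (m - C.card) else 0) =
          ∑ e : ε, (if e ∉ C then (1:ℝ) / (m - c e) else 0) -
          ∑ e : ε, (if e ∉ C then (1:ℝ) / (m - C.card) else 0) := by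
        intro C _
        rw [← Finset.sum_sub_distrib]
        apply Finset.sum_congr rfl
        intro e _
        split_ifs <;> simp
      rw [Finset.sum_congr rfl this, Finset.sum_sub_distrib, hsum1, hsum2, sub_self]
    have hterm : ∀ C ∈ A, ∀ e : ε,
        0 ≤ (if e ∉ C then (1:ℝ) / (m - c e) - 1 / (m - C.card) else 0) := by
      intro C hC e
      by_cases h : e ∉ C
      · rw [if_pos h]
        have h1 : (C.card : ℝ) ≤ c e := by exact_mod_cast hle e C hC h
        have h2 : (1:ℝ) / (m - C.card) ≤ 1 / (m - c e) :=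
          one_div_le_one_div_of_le (hmc e) (by linarith)
        linarith
      · rw [if_neg h]
    intro e C0 hC0 heC
    have h1 := (Finset.sum_eq_zero_iff_of_nonneg (fun C hC =>
      Finset.sum_nonneg (fun e _ => hterm C hC e))).mp hdiff C0 hC0
    have h2 := (Finset.sum_eq_zero_iff_of_nonneg (fun e _ => hterm C0 hC0 e)).mp h1 e
      (Finset.mem_univ e)
    rw [if_pos heC] at h2
    have h3 : (1:ℝ) / (m - c e) = 1 / (m - C0.card) := by linarith
    rw [one_div, one_div, inv_inj] at h3
    have h4 : (C0.card : ℝ) = c e := by linarith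
    exact_mod_cast h4
  -- uniformity
  set r := C1.card with hr
  have hAr : ∀ C ∈ A, C.card = r := by
    intro C hC
    by_cases h : ∃ e, e ∉ C ∧ e ∉ C1
    · obtain ⟨e, he, he1⟩ := h
      rw [heq e C hC he, hr, heq e C1 hC1 he1]
    · push Not at h
      have h1 : (Finset.univ : Finset ε) ⊆ C ∪ C1 := by
        intro e _
        rw [Finset.mem_union]
        by_cases he : e ∈ C
        · exact Or.inl he
        · exact Or.inr (h e he)
      have h2 := (Finset.card_le_card h1).trans (Finset.card_union_le C C1)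
      rw [Finset.card_univ, ← hm] at h2
      have h3 := h5 C (hACs C hC)
      have h4 := h5 C1 (hACs C1 hC1)
      omega
  have hexC : ∀ e, ∃ C ∈ A, e ∉ C := by
    intro e
    by_contra hcon
    push Not at hcon
    have : A.filter (fun C => e ∈ C) = A := Finset.filter_true_of_mem hcon
    have h1 := hclt e
    simp only [hc, this, hAcard] at h1
    exact lt_irrefl _ h1
  have hcr : ∀ e, c e = r := by
    intro e
    obtain ⟨C, hC, he⟩ := hexC e
    rw [← heq e C hC he, hAr C hC]
  have hrpos : (0:ℝ) < r := by exact_mod_cast hC1pos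
  have hur : ∀ e, u e = 1 / r := by
    have hw := hAinj (fun f => u f - 1 / r) (by
      intro C hC
      rw [Finset.sum_sub_distrib, h1 C (hACs C hC), Finset.sum_const, nsmul_eq_mul, hAr C hC,
        mul_one_div, div_self hrpos.ne', sub_self])
    intro e
    have := congrFun hw e
    simp only [Pi.zero_apply] at this
    linarith
  have hCr : ∀ C ∈ Cs, C.card = r := by
    intro C hC
    have := h1 C hC
    rw [Finset.sum_congr rfl (fun f _ => hur f), Finset.sum_const, nsmul_eq_mul, mul_one_div,
      div_eq_one_iff_eq hrpos.ne'] at this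
    exact_mod_cast this
  refine ⟨r, hCr, hur, fun e => ⟨?_, A.filter (fun C => e ∈ C), ?_, hcr e⟩⟩
  swap
  · intro C hC
    rw [Finset.mem_filter] at hC
    exact ⟨hACs C hC.1, hC.2⟩
  -- the family `K`
  obtain ⟨C0, hC0, heC⟩ := hexC e
  have hC0s := hACs C0 hC0
  obtain ⟨k0, hk0⟩ := hCne C0 hC0s
  have hke : ∀ k ∈ C0, k ≠ e := fun k hk h => heC (h ▸ hk)
  have hbkinj : Set.InjOn (bk e) C0 := by
    intro k hk k' hk' hkk
    have h1 := (hbkiff e C0 hC0s heC k' hk' k hk).mp (by
      rw [← hkk]
      exact (hbk e k (hke k hk)).2)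
    exact h1
  have hLsurj : Function.Surjective (Lmap A B (bk e) e k0 C0) := by
    have hdim : finrank ℝ (C0 → ℝ) =
        finrank ℝ ((A.filter (fun C => e ∈ C) : Finset (Finset ε)) → ℝ) := by
      rw [Module.finrank_fintype_fun_eq_card, Module.finrank_fintype_fun_eq_card,
        Fintype.card_coe, Fintype.card_coe]
      exact heq e C0 hC0 heC
    exact (LinearMap.injective_iff_surjective_of_finrank_eq_finrank hdim).mp
      (hLinj e C0 hC0 heC k0 hk0)
  -- sets of the support agree off `e` with one of the `bk`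
  have hagree : ∀ b, 0 < l e b → ∀ k ∈ C0, k ∈ B b → ∀ f, f ≠ e → (f ∈ B b ↔ f ∈ B (bk e k)) := by
    intro b hb k hk hkb f hf
    obtain ⟨α, hα⟩ := hLsurj (incMap (A.filter (fun C => e ∈ C))
      (ind (B b) - ind (B (bk e k))))
    have hW : Wmap B (bk e) e k0 C0 α - (ind (B b) - ind (B (bk e k))) = 0 := by
      apply hAinj
      intro C hC
      by_cases he : e ∈ C
      · have h := congrFun hα ⟨C, Finset.mem_filter.mpr ⟨hC, he⟩⟩
        rw [Lmap, LinearMap.comp_apply, incMap_apply, incMap_apply] at h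
        simp only [Pi.sub_apply, Finset.sum_sub_distrib] at h ⊢
        linarith
      · have h1 : ∑ f ∈ C, Wmap B (bk e) e k0 C0 α f = 0 := by
          rw [Wmap_apply]
          simp only [Finset.sum_apply, Pi.smul_apply, smul_eq_mul]
          rw [Finset.sum_comm]
          apply Finset.sum_eq_zero
          intro j _
          rw [← Finset.mul_sum, wvec_sum B (bk e) he
            (honeAll e C (hACs C hC) he _ (hbk e j.1 (hke j.1 j.2)).1)
            (honeAll e C (hACs C hC) he _ (hbk e k0 (hke k0 hk0)).1), mul_zero]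
        simp only [Pi.sub_apply, Finset.sum_sub_distrib, sum_ind]
        rw [h1, honeAll e C (hACs C hC) he b hb,
          honeAll e C (hACs C hC) he _ (hbk e k (hke k hk)).1]
        simp
    have hW' : Wmap B (bk e) e k0 C0 α = ind (B b) - ind (B (bk e k)) := sub_eq_zero.mp hW
    have hBb : ∀ j ∈ C0, j ∈ B b ↔ j = k := by
      intro j hj
      have hcard := honeAll e C0 hC0s heC b hb
      rw [Finset.card_eq_one] at hcard
      obtain ⟨x, hx⟩ := hcard
      have hkx : k = x := by
        have : k ∈ B b ∩ C0 := Finset.mem_inter.mpr ⟨hkb, hk⟩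
        rw [hx] at this
        exact Finset.mem_singleton.mp this
      constructor
      · intro hjB
        have : j ∈ B b ∩ C0 := Finset.mem_inter.mpr ⟨hjB, hj⟩
        rw [hx] at this
        rw [Finset.mem_singleton.mp this, hkx]
      · rintro rfl
        exact hkb
    have hsupp := Wmap_supp B (bk e) hk0 heC (hbkiff e C0 hC0s heC) α (by
      intro j hj
      rw [hW']
      simp only [Pi.sub_apply, ind]
      have h1 := hBb j hj
      have h2 := hbkiff e C0 hC0s heC k hk j hj
      by_cases hjk : j = k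
      · rw [if_pos (h1.mpr hjk), if_pos (h2.mpr hjk), sub_self]
      · rw [if_neg (fun h => hjk (h1.mp h)), if_neg (fun h => hjk (h2.mp h)), sub_self])
    have hsing := Wmap_single B (bk e) (e := e) hk0 α hsupp
    rw [hW'] at hsing
    have h := congrFun hsing f
    simp only [Pi.sub_apply, ind, Pi.smul_apply, Pi.single_apply, if_neg hf, smul_zero] at h
    by_cases hfb : f ∈ B b
    · rw [if_pos hfb] at h
      by_cases hfk : f ∈ B (bk e k)
      · exact ⟨fun _ => hfk, fun _ => hfb⟩
      · rw [if_neg hfk] at h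
        norm_num at h
    · rw [if_neg hfb] at h
      by_cases hfk : f ∈ B (bk e k)
      · rw [if_pos hfk] at h
        norm_num at h
      · exact ⟨fun h => absurd h hfb, fun h => absurd h hfk⟩
  -- counting
  have hcount : ∀ f, f ≠ e → (C0.filter (fun k => f ∈ B (bk e k))).card = 1 := by
    intro f hf
    have h1 : ∀ b, (if f ∈ B b then l e b else 0) =
        ∑ k ∈ C0, (if f ∈ B (bk e k) then (if k ∈ B b then l e b else 0) else 0) := by
      intro b
      rcases (hl0 e b).eq_or_lt with h0 | h0
      · simp [← h0]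
      · have hcard := honeAll e C0 hC0s heC b h0
        rw [Finset.card_eq_one] at hcard
        obtain ⟨x, hx⟩ := hcard
        have hxm : x ∈ B b ∩ C0 := by rw [hx]; exact Finset.mem_singleton_self x
        rw [Finset.mem_inter] at hxm
        rw [Finset.sum_eq_single x]
        · rw [if_pos hxm.1]
          have := hagree b h0 x hxm.2 hxm.1 f hf
          by_cases hfb : f ∈ B b
          · rw [if_pos hfb, if_pos (this.mp hfb)]
          · rw [if_neg hfb, if_neg (fun h => hfb (this.mpr h))]
        · intro k hk hkx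
          have : k ∉ B b := by
            intro hkb
            have : k ∈ B b ∩ C0 := Finset.mem_inter.mpr ⟨hkb, hk⟩
            rw [hx] at this
            exact hkx (Finset.mem_singleton.mp this)
          rw [if_neg this, ite_self]
        · intro h
          exact absurd hxm.2 h
    have h2 : u f = ∑ k ∈ C0, (if f ∈ B (bk e k) then u k else 0) := by
      rw [← hl e f hf, Finset.sum_congr rfl (fun b _ => h1 b), Finset.sum_comm]
      apply Finset.sum_congr rfl
      intro k hk
      by_cases hfk : f ∈ B (bk e k)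
      · simp only [if_pos hfk]
        exact hl e k (hke k hk)
      · simp only [if_neg hfk, Finset.sum_const_zero]
    rw [← Finset.sum_filter, Finset.sum_congr rfl (fun k _ => hur k), Finset.sum_const,
      nsmul_eq_mul, hur f, mul_one_div, div_left_inj' hrpos.ne'] at h2
    exact_mod_cast h2.symm
  have hKfil : ∀ f, ((C0.image (bk e)).filter (fun b => f ∈ B b)).card =
      (C0.filter (fun k => f ∈ B (bk e k))).card := by
    intro f
    rw [Finset.filter_image, Finset.card_image_of_injOn]
    exact hbkinj.mono (by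
      intro x hx
      exact (Finset.mem_filter.mp hx).1)
  refine ⟨C0.image (bk e), ?_, ?_, ?_⟩
  · rw [Finset.card_image_of_injOn hbkinj]
    exact hAr C0 hC0
  · intro f hf
    rw [hKfil]
    exact hcount f hf
  · rw [hKfil]
    -- use a member through `e`
    obtain ⟨C, hC, heC'⟩ : ∃ C ∈ A, e ∈ C := by
      have : (A.filter (fun C => e ∈ C)).Nonempty := by
        rw [← Finset.card_pos]
        have := hcr e
        simp only [hc] at this
        rw [this]
        exact hC1pos
      obtain ⟨C, hC⟩ := this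
      rw [Finset.mem_filter] at hC
      exact ⟨C, hC.1, hC.2⟩
    have hsum : ∑ k ∈ C0, (B (bk e k) ∩ C).card =
        ∑ f ∈ C, (C0.filter (fun k => f ∈ B (bk e k))).card := by
      have h1 : ∀ k, (B (bk e k) ∩ C).card = ∑ f ∈ C, if f ∈ B (bk e k) then 1 else 0 := by
        intro k
        rw [Finset.sum_ite_mem, Finset.sum_const, smul_eq_mul, mul_one, Finset.inter_comm]
      have h2 : ∀ f, (C0.filter (fun k => f ∈ B (bk e k))).card =
          ∑ k ∈ C0, if f ∈ B (bk e k) then 1 else 0 := by
        intro f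
        rw [Finset.card_filter]
      simp only [h1, h2]
      exact Finset.sum_comm
    rw [← Finset.add_sum_erase C _ heC',
      Finset.sum_congr rfl (fun f hf => hcount f (Finset.ne_of_mem_erase hf)),
      Finset.sum_const, smul_eq_mul, mul_one, Finset.card_erase_of_mem heC', hAr C hC] at hsum
    have hpar : (∑ k ∈ C0, (B (bk e k) ∩ C).card) % 2 = r % 2 := by
      rw [Finset.sum_nat_mod, Finset.sum_congr rfl (fun k hk =>
        Nat.odd_iff.mp (h2 C (hACs C hC) (bk e k))), Finset.sum_const, smul_eq_mul, mul_one,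
        hAr C0 hC0]
    rw [Nat.odd_iff]
    omega

end lehman

end Pool.Agent.TH524
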