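import Mathlib

/-!
# The metric polytope and the cut polytope

Points of the antipodal double cover are pairs `(i, b)` with `b : Bool`; `dd x` is the antipodal
semimetric on them attached to a point `x` of the metric polytope.
-/

set_option autoImplicit false

open Set

namespace Pool.Agent.TH524

/-- The metric polytope. -/
def MPol (V : Type*) : Set (V → V → ℝ) :=
  {x | (∀ i, x i i = 0) ∧ (∀ i j, x i j = x j i) ∧ (∀ i j k, x i j ≤ x i k + x k j) ∧
    (∀ i j k, x i j + x i k + x j k ≤ 2)}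

/-- The antipode. -/
def bar {V : Type*} (p : V × Bool) : V × Bool := (p.1, !p.2)

/-- The antipodal semimetric. -/
def dd {V : Type*} (x : V → V → ℝ) (p q : V × Bool) : ℝ :=
  if p.2 = q.2 then x p.1 q.1 else 1 - x p.1 q.1

/-- The cut semimetric of a sign vector. -/
def cutv {V : Type*} (s : V → Bool) : V → V → ℝ := fun i j => if s i = s j then 0 else 1

/-- The cut polytope. -/
def CUT (V : Type*) : Set (V → V → ℝ) := convexHull ℝ (range (cutv : (V → Bool) → V → V → ℝ))

section basic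

variable {V : Type*}

@[simp] theorem bar_fst (p : V × Bool) : (bar p).1 = p.1 := rfl

@[simp] theorem bar_snd (p : V × Bool) : (bar p).2 = !p.2 := rfl

@[simp] theorem bar_bar (p : V × Bool) : bar (bar p) = p := by simp [bar]

theorem bar_ne (p : V × Bool) : bar p ≠ p := by
  intro h
  have := congrArg Prod.snd h
  simp at this

theorem eq_or_eq_bar {p q : V × Bool} (h : p.1 = q.1) : p = q ∨ p = bar q := by
  rcases p with ⟨i, a⟩
  rcases q with ⟨j, b⟩
  simp only at h
  subst h
  cases a <;> cases b <;> simp [bar]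

variable {x : V → V → ℝ}

theorem MP_nonneg (hx : x ∈ MPol V) (i j : V) : 0 ≤ x i j := by
  obtain ⟨h0, hs, ht, -⟩ := hx
  have := ht i i j
  rw [h0, hs j i] at this
  linarith

theorem MP_le_one (hx : x ∈ MPol V) (i j : V) : x i j ≤ 1 := by
  obtain ⟨h0, -, -, h2⟩ := hx
  have := h2 i j j
  rw [h0] at this
  linarith

theorem dd_bar_right (x : V → V → ℝ) (p q : V × Bool) : dd x p (bar q) = 1 - dd x p q := by
  rcases p with ⟨i, a⟩
  rcases q with ⟨j, b⟩
  cases a <;> cases b <;> simp [dd, bar]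

theorem dd_bar_left (x : V → V → ℝ) (p q : V × Bool) : dd x (bar p) q = 1 - dd x p q := by
  rcases p with ⟨i, a⟩
  rcases q with ⟨j, b⟩
  cases a <;> cases b <;> simp [dd, bar]

theorem dd_bar_bar (x : V → V → ℝ) (p q : V × Bool) : dd x (bar p) (bar q) = dd x p q := by
  rw [dd_bar_right, dd_bar_left]; ring

theorem dd_symm' (hs : ∀ i j, x i j = x j i) (p q : V × Bool) : dd x p q = dd x q p := by
  rcases p with ⟨i, a⟩
  rcases q with ⟨j, b⟩
  cases a <;> cases b <;> simp [dd, hs i j]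

theorem dd_symm (hx : x ∈ MPol V) (p q : V × Bool) : dd x p q = dd x q p :=
  dd_symm' hx.2.1 p q

theorem dd_self (hx : x ∈ MPol V) (p : V × Bool) : dd x p p = 0 := by
  simp [dd, hx.1]

theorem dd_bar_self (hx : x ∈ MPol V) (p : V × Bool) : dd x p (bar p) = 1 := by
  rw [dd_bar_right, dd_self hx]; ring

theorem dd_nonneg (hx : x ∈ MPol V) (p q : V × Bool) : 0 ≤ dd x p q := by
  unfold dd
  split_ifs
  · exact MP_nonneg hx _ _
  · linarith [MP_le_one hx p.1 q.1]

theorem dd_le_one (hx : x ∈ MPol V) (p q : V × Bool) : dd x p q ≤ 1 := by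
  unfold dd
  split_ifs
  · exact MP_le_one hx _ _
  · linarith [MP_nonneg hx p.1 q.1]

theorem dd_triangle (hx : x ∈ MPol V) (p q r : V × Bool) : dd x p r ≤ dd x p q + dd x q r := by
  obtain ⟨h0, hs, ht, h2⟩ := hx
  rcases p with ⟨i, a⟩
  rcases q with ⟨j, b⟩
  rcases r with ⟨k, c⟩
  have h3 := ht i k j
  have h4 := ht i j k
  have h5 := ht j k i
  have h6 := h2 i j k
  have h7 := hs i j
  have h8 := hs j k
  have h9 := hs i k
  cases a <;> cases b <;> cases c <;> simp [dd] <;> linarith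

theorem mem_MPol_of_dd (h0 : ∀ i, x i i = 0) (hs : ∀ i j, x i j = x j i)
    (ht : ∀ p q r : V × Bool, dd x p r ≤ dd x p q + dd x q r) : x ∈ MPol V := by
  refine ⟨h0, hs, ?_, ?_⟩
  · intro i j k
    have := ht (i, false) (k, false) (j, false)
    simpa [dd] using this
  · intro i j k
    have := ht (j, false) (i, true) (k, false)
    simp only [dd] at this
    simp at this
    rw [hs j i] at this
    linarith

theorem dd_convex (x y : V → V → ℝ) (α β : ℝ) (h : α + β = 1) (p q : V × Bool) :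
    dd (α • x + β • y) p q = α * dd x p q + β * dd y p q := by
  unfold dd
  split_ifs
  · simp
  · simp only [Pi.add_apply, Pi.smul_apply, smul_eq_mul]
    linear_combination -h

/-- Values of `dd` depend only on the entry. -/
theorem dd_congr {x y : V → V → ℝ} {p q : V × Bool} (h : x p.1 q.1 = y p.1 q.1) :
    dd x p q = dd y p q := by
  unfold dd; rw [h]

theorem convex_MPol : Convex ℝ (MPol V) := by
  intro x hx y hy α β hα hβ hαβ
  refine ⟨?_, ?_, ?_, ?_⟩
  · intro i
    simp [hx.1 i, hy.1 i]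
  · intro i j
    simp [hx.2.1 i j, hy.2.1 i j]
  · intro i j k
    simp only [Pi.add_apply, Pi.smul_apply, smul_eq_mul]
    have h1 := mul_le_mul_of_nonneg_left (hx.2.2.1 i j k) hα
    have h2 := mul_le_mul_of_nonneg_left (hy.2.2.1 i j k) hβ
    linarith
  · intro i j k
    simp only [Pi.add_apply, Pi.smul_apply, smul_eq_mul]
    have h1 := mul_le_mul_of_nonneg_left (hx.2.2.2 i j k) hα
    have h2 := mul_le_mul_of_nonneg_left (hy.2.2.2 i j k) hβ
    nlinarith

theorem isCompact_MPol : IsCompact (MPol V) := by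
  have hcl : IsClosed (MPol V) := by
    have h1 : IsClosed {x : V → V → ℝ | ∀ i, x i i = 0} := by
      simp only [Set.ofPred_forall]
      exact isClosed_iInter fun i => isClosed_eq (by fun_prop) (by fun_prop)
    have h2 : IsClosed {x : V → V → ℝ | ∀ i j, x i j = x j i} := by
      simp only [Set.ofPred_forall]
      exact isClosed_iInter fun i => isClosed_iInter fun j =>
        isClosed_eq (by fun_prop) (by fun_prop)
    have h3 : IsClosed {x : V → V → ℝ | ∀ i j k, x i j ≤ x i k + x k j} := by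
      simp only [Set.ofPred_forall]
      exact isClosed_iInter fun i => isClosed_iInter fun j => isClosed_iInter fun k =>
        isClosed_le (by fun_prop) (by fun_prop)
    have h4 : IsClosed {x : V → V → ℝ | ∀ i j k, x i j + x i k + x j k ≤ 2} := by
      simp only [Set.ofPred_forall]
      exact isClosed_iInter fun i => isClosed_iInter fun j => isClosed_iInter fun k =>
        isClosed_le (by fun_prop) (by fun_prop)
    exact h1.inter (h2.inter (h3.inter h4))
  have hsub : MPol V ⊆ Set.pi Set.univ (fun _ : V => Set.pi Set.univ (fun _ : V => Icc (0:ℝ) 1)) := by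
    intro x hx i _ j _
    exact ⟨MP_nonneg hx i j, MP_le_one hx i j⟩
  exact (isCompact_univ_pi fun _ => isCompact_univ_pi fun _ => isCompact_Icc).of_isClosed_subset
    hcl hsub

theorem cutv_mem (s : V → Bool) : cutv s ∈ MPol V := by
  refine ⟨?_, ?_, ?_, ?_⟩
  · intro i; simp [cutv]
  · intro i j
    simp only [cutv]
    by_cases h : s i = s j
    · rw [if_pos h, if_pos h.symm]
    · rw [if_neg h, if_neg (fun h' => h h'.symm)]
  · intro i j k
    simp only [cutv]
    cases s i <;> cases s j <;> cases s k <;> norm_num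
  · intro i j k
    simp only [cutv]
    cases s i <;> cases s j <;> cases s k <;> norm_num

theorem CUT_subset : CUT V ⊆ MPol V :=
  convexHull_min (by rintro _ ⟨s, rfl⟩; exact cutv_mem s) convex_MPol

theorem convex_CUT : Convex ℝ (CUT V) := convex_convexHull ℝ _

theorem cutv_mem_CUT (s : V → Bool) : cutv s ∈ CUT V := subset_convexHull ℝ _ ⟨s, rfl⟩

end basic

section fin

variable {V : Type*} [Fintype V] [DecidableEq V]

omit [DecidableEq V] in
theorem isCompact_CUT : IsCompact (CUT V) :=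
  (Set.finite_range _).isCompact_convexHull ℝ

/-- Elements of the cut polytope are convex combinations of cuts. -/
theorem exists_weights {x : V → V → ℝ} (hx : x ∈ CUT V) :
    ∃ w : (V → Bool) → ℝ, (∀ s, 0 ≤ w s) ∧ ∑ s, w s = 1 ∧
      ∀ i j, x i j = ∑ s, w s * cutv s i j := by
  have hconv : Convex ℝ {x : V → V → ℝ | ∃ w : (V → Bool) → ℝ, (∀ s, 0 ≤ w s) ∧ ∑ s, w s = 1 ∧
      ∀ i j, x i j = ∑ s, w s * cutv s i j} := by
    rintro x ⟨w, hw0, hw1, hw⟩ y ⟨v, hv0, hv1, hv⟩ α β hα hβ hαβ
    refine ⟨fun s => α * w s + β * v s, fun s => add_nonneg (mul_nonneg hα (hw0 s))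
      (mul_nonneg hβ (hv0 s)), ?_, ?_⟩
    · rw [Finset.sum_add_distrib, ← Finset.mul_sum, ← Finset.mul_sum, hw1, hv1]
      linarith
    · intro i j
      simp only [Pi.add_apply, Pi.smul_apply, smul_eq_mul]
      rw [hw, hv, Finset.mul_sum, Finset.mul_sum, ← Finset.sum_add_distrib]
      apply Finset.sum_congr rfl
      intro s _
      ring
  have hsub : CUT V ⊆ _ := convexHull_min (by
    rintro _ ⟨s, rfl⟩
    refine ⟨fun t => if t = s then 1 else 0, ?_, ?_, ?_⟩
    · intro t
      positivity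
    · simp
    · intro i j
      simp) hconv
  exact hsub hx

omit [Fintype V] [DecidableEq V] in
/-- Convex combinations of points of the cut polytope. -/
theorem combo_mem_CUT {ι : Type*} [Fintype ι] (w : ι → ℝ) (z : ι → V → V → ℝ)
    (hw0 : ∀ i, 0 ≤ w i) (hw1 : ∑ i, w i = 1) (hz : ∀ i, z i ∈ CUT V) :
    ∑ i, w i • z i ∈ CUT V :=
  convex_CUT.sum_mem (fun i _ => hw0 i) hw1 (fun i _ => hz i)


/-- The pentagonal functional. -/
def pent (x : V → V → ℝ) (p0 p1 p2 p3 p4 : V × Bool) : ℝ :=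
  dd x p0 p1 + dd x p0 p2 + dd x p0 p3 + dd x p0 p4 + dd x p1 p2 + dd x p1 p3 + dd x p1 p4 +
    dd x p2 p3 + dd x p2 p4 + dd x p3 p4

omit [Fintype V] [DecidableEq V] in
theorem pent_convex (x y : V → V → ℝ) (α β : ℝ) (h : α + β = 1) (p0 p1 p2 p3 p4 : V × Bool) :
    pent (α • x + β • y) p0 p1 p2 p3 p4 = α * pent x p0 p1 p2 p3 p4 + β * pent y p0 p1 p2 p3 p4 := by
  simp only [pent, dd_convex x y α β h]
  ring

omit [Fintype V] [DecidableEq V] in
theorem dd_cutv (s : V → Bool) (p q : V × Bool) :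
    dd (cutv s) p q = if xor (s p.1) p.2 = xor (s q.1) q.2 then 0 else 1 := by
  rcases p with ⟨i, a⟩
  rcases q with ⟨j, b⟩
  simp only [dd, cutv]
  cases a <;> cases b <;> cases s i <;> cases s j <;> simp

omit [Fintype V] [DecidableEq V] in
theorem pent_cutv (s : V → Bool) (p0 p1 p2 p3 p4 : V × Bool) :
    pent (cutv s) p0 p1 p2 p3 p4 ≤ 6 := by
  simp only [pent, dd_cutv]
  cases xor (s p0.1) p0.2 <;> cases xor (s p1.1) p1.2 <;> cases xor (s p2.1) p2.2 <;>
    cases xor (s p3.1) p3.2 <;> cases xor (s p4.1) p4.2 <;> norm_num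

omit [Fintype V] [DecidableEq V] in
theorem pent_CUT {x : V → V → ℝ} (hx : x ∈ CUT V) (p0 p1 p2 p3 p4 : V × Bool) :
    pent x p0 p1 p2 p3 p4 ≤ 6 := by
  have hconv : Convex ℝ {x : V → V → ℝ | pent x p0 p1 p2 p3 p4 ≤ 6} := by
    intro x hx y hy α β hα hβ hαβ
    simp only [Set.mem_ofPred_eq] at hx hy ⊢
    rw [pent_convex x y α β hαβ]
    nlinarith
  exact convexHull_min (by rintro _ ⟨s, rfl⟩; exact pent_cutv s p0 p1 p2 p3 p4) hconv hx

/-- Five points with pairwise distinct bases. -/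
def distinct5 (p0 p1 p2 p3 p4 : V × Bool) : Prop :=
  p0.1 ≠ p1.1 ∧ p0.1 ≠ p2.1 ∧ p0.1 ≠ p3.1 ∧ p0.1 ≠ p4.1 ∧ p1.1 ≠ p2.1 ∧ p1.1 ≠ p3.1 ∧
    p1.1 ≠ p4.1 ∧ p2.1 ≠ p3.1 ∧ p2.1 ≠ p4.1 ∧ p3.1 ≠ p4.1

/-- Violators of a pentagonal inequality. -/
def Bad (x : V → V → ℝ) : Prop :=
  ∃ p0 p1 p2 p3 p4 : V × Bool, distinct5 p0 p1 p2 p3 p4 ∧ 6 < pent x p0 p1 p2 p3 p4

/-- The anticut of a sign vector. -/
noncomputable def anti (s : V → Bool) : V → V → ℝ := fun i j =>
  if i = j then 0 else if s i = s j then 2 / 3 else 1 / 3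

omit [Fintype V] in
theorem anti_mem (s : V → Bool) : anti s ∈ MPol V := by
  refine ⟨?_, ?_, ?_, ?_⟩
  · intro i; simp [anti]
  · intro i j
    simp only [anti]
    by_cases h : i = j
    · subst h; rfl
    · have h' : ¬ j = i := fun h' => h h'.symm
      simp only [if_neg h, if_neg h']
      cases s i <;> cases s j <;> rfl
  · intro i j k
    by_cases h1 : i = j
    · subst h1
      by_cases h2 : i = k
      · subst h2; simp [anti]
      · have h3 : ¬ k = i := fun h => h2 h.symm
        simp only [anti, if_neg h2, if_neg h3]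
        cases s i <;> cases s k <;> norm_num
    · by_cases h2 : i = k
      · subst h2
        simp [anti]
      · by_cases h3 : k = j
        · subst h3
          simp [anti]
        · simp only [anti, if_neg h1, if_neg h2, if_neg h3]
          cases s i <;> cases s j <;> cases s k <;> norm_num
  · intro i j k
    have h : ∀ i j, anti s i j ≤ 2 / 3 := by
      intro i j
      simp only [anti]
      split_ifs <;> norm_num
    linarith [h i j, h i k, h j k]

omit [Fintype V] in
theorem dd_anti {s : V → Bool} {p q : V × Bool} (hpq : p.1 ≠ q.1) (hp : s p.1 = p.2)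
    (hq : s q.1 = q.2) : dd (anti s) p q = 2 / 3 := by
  simp only [dd, anti, if_neg hpq, hp, hq]
  split_ifs
  · rfl
  · norm_num

omit [Fintype V] in
theorem pent_anti {s : V → Bool} {p0 p1 p2 p3 p4 : V × Bool} (hd : distinct5 p0 p1 p2 p3 p4)
    (h0 : s p0.1 = p0.2) (h1 : s p1.1 = p1.2) (h2 : s p2.1 = p2.2) (h3 : s p3.1 = p3.2)
    (h4 : s p4.1 = p4.2) : pent (anti s) p0 p1 p2 p3 p4 = 20 / 3 := by
  obtain ⟨h01, h02, h03, h04, h12, h13, h14, h23, h24, h34⟩ := hd
  simp only [pent]
  rw [dd_anti h01 h0 h1, dd_anti h02 h0 h2, dd_anti h03 h0 h3, dd_anti h04 h0 h4,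
    dd_anti h12 h1 h2, dd_anti h13 h1 h3, dd_anti h14 h1 h4, dd_anti h23 h2 h3,
    dd_anti h24 h2 h4, dd_anti h34 h3 h4]
  norm_num

omit [Fintype V] in
/-- A sign vector through five points with distinct bases. -/
theorem exists_sign {p0 p1 p2 p3 p4 : V × Bool} (hd : distinct5 p0 p1 p2 p3 p4) :
    ∃ s : V → Bool, s p0.1 = p0.2 ∧ s p1.1 = p1.2 ∧ s p2.1 = p2.2 ∧ s p3.1 = p3.2 ∧
      s p4.1 = p4.2 := by
  obtain ⟨h01, h02, h03, h04, h12, h13, h14, h23, h24, h34⟩ := hd
  refine ⟨fun i => if i = p0.1 then p0.2 else if i = p1.1 then p1.2 else if i = p2.1 then p2.2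
    else if i = p3.1 then p3.2 else p4.2, ?_, ?_, ?_, ?_, ?_⟩
  · simp
  · simp [h01.symm]
  · simp [h02.symm, h12.symm]
  · simp [h03.symm, h13.symm, h23.symm]
  · simp [h04.symm, h14.symm, h24.symm, h34.symm]

/-- The relation being joined by a segment in the metric polytope off the cut polytope. -/
def Step (x y : V → V → ℝ) : Prop := y ∈ MPol V ∧ Disjoint (CUT V) (segment ℝ x y)

/-- Points of the metric polytope outside the cut polytope from which no violator is reached. -/
def Dset (V : Type*) [Fintype V] [DecidableEq V] : Set (V → V → ℝ) :=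
  {x | x ∈ MPol V ∧ x ∉ CUT V ∧ ∀ z, Relation.ReflTransGen (Step (V := V)) x z → ¬ Bad z}

theorem Dset_of_step {x y : V → V → ℝ} (hx : x ∈ Dset V) (hy : y ∈ MPol V)
    (h : Disjoint (CUT V) (segment ℝ x y)) : y ∈ Dset V := by
  refine ⟨hy, ?_, ?_⟩
  · exact fun hyC => Set.disjoint_left.mp h hyC (right_mem_segment ℝ x y)
  · intro z hz
    exact hx.2.2 z (Relation.ReflTransGen.head ⟨hy, h⟩ hz)

/-- No pentagonal functional reaches `6` on `Dset`. -/
theorem pent_lt {y : V → V → ℝ} (hy : y ∈ Dset V) {p0 p1 p2 p3 p4 : V × Bool}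
    (hd : distinct5 p0 p1 p2 p3 p4) : pent y p0 p1 p2 p3 p4 < 6 := by
  by_contra hcon
  push Not at hcon
  obtain ⟨s, h0, h1, h2, h3, h4⟩ := exists_sign hd
  have ha := pent_anti hd h0 h1 h2 h3 h4
  refine hy.2.2 (anti s) (Relation.ReflTransGen.single ⟨anti_mem s, ?_⟩)
    ⟨p0, p1, p2, p3, p4, hd, by rw [ha]; norm_num⟩
  rw [Set.disjoint_left]
  rintro z hz ⟨α, β, hα, hβ, hαβ, rfl⟩
  rcases hβ.eq_or_lt with hb | hb
  · have : α = 1 := by linarith
    apply hy.2.1
    rw [← hb, this] at hz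
    simpa using hz
  · have h := pent_CUT hz p0 p1 p2 p3 p4
    rw [pent_convex y _ α β hαβ, ha] at h
    nlinarith

/-- `y` is cut-able on a set of pairs. -/
def CutOn (F : Set (V × V)) (y : V → V → ℝ) : Prop :=
  ∃ q ∈ CUT V, ∀ e ∈ F, q e.1 e.2 = y e.1 e.2

omit [Fintype V] in
theorem cutv_update_of_ne {s : V → Bool} {i k l : V} {b : Bool} (hk : k ≠ i) (hl : l ≠ i) :
    cutv (Function.update s i b) k l = cutv s k l := by
  simp [cutv, Function.update_of_ne hk, Function.update_of_ne hl]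

omit [Fintype V] in
theorem cutv_update_self {s : V → Bool} {i l : V} {b : Bool} (hl : l ≠ i) :
    cutv (Function.update s i b) i l = if b = s l then 0 else 1 := by
  simp [cutv, Function.update_of_ne hl]

end fin

end Pool.Agent.TH524
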