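import Pool.Agent.TH524.Tight

/-!
# Perturbing along a direction vanishing on tight chains
-/

set_option autoImplicit false

open Set

namespace Pool.Agent.TH524

section perturb

variable {V : Type*}

/-- The linear part of `dd`. -/
def dlt (d : V → V → ℝ) (p q : V × Bool) : ℝ := if p.2 = q.2 then d p.1 q.1 else - d p.1 q.1

theorem dd_add_smul (y d : V → V → ℝ) (ε : ℝ) (p q : V × Bool) :
    dd (fun i j => y i j + ε * d i j) p q = dd y p q + ε * dlt d p q := by
  unfold dd dlt
  split_ifs
  · rfl
  · ring

theorem dlt_bar_right (d : V → V → ℝ) (p q : V × Bool) : dlt d p (bar q) = - dlt d p q := by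
  rcases p with ⟨i, a⟩
  rcases q with ⟨j, b⟩
  cases a <;> cases b <;> simp [dlt, bar]

theorem dlt_symm {d : V → V → ℝ} (hd : ∀ i j, d i j = d j i) (p q : V × Bool) :
    dlt d p q = dlt d q p := by
  rcases p with ⟨i, a⟩
  rcases q with ⟨j, b⟩
  cases a <;> cases b <;> simp [dlt, hd i j]

theorem iter_bar_fst (n : ℕ) (p : V × Bool) : (bar^[n] p).1 = p.1 := by
  induction n with
  | zero => rfl
  | succ n ih => rw [Function.iterate_succ_apply', bar_fst, ih]

variable {E : Finset (Sym2 V)} {y : V → V → ℝ}

/-- Antiperiodic extension of a tight closed chain. -/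
theorem exists_tight {k : ℕ} (hk : 0 < k) {c : ℕ → V × Bool} (h0 : c k = bar (c 0))
    (hE : ∀ i < k, s((c i).1, (c (i + 1)).1) ∈ E)
    (hs : ∑ i ∈ Finset.range k, dd y (c i) (c (i + 1)) = 1) :
    ∃ c' : ℕ → V × Bool, Tight E y k c' ∧ ∀ i ≤ k, c' i = c i := by
  have hval : ∀ i ≤ k, bar^[i / k] (c (i % k)) = c i := by
    intro i hi
    rcases hi.lt_or_eq with h | h
    · rw [Nat.div_eq_of_lt h, Nat.mod_eq_of_lt h]; rfl
    · rw [h, Nat.div_self hk, Nat.mod_self]
      exact h0.symm
  refine ⟨fun i => bar^[i / k] (c (i % k)), ⟨?_, ?_, ?_⟩, hval⟩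
  · intro i
    simp only [Nat.add_mod_right, Nat.add_div_right i hk]
    rw [Function.iterate_succ_apply']
  · intro i
    simp only [iter_bar_fst]
    have h1 : (c ((i + 1) % k)).1 = (c (i % k + 1)).1 := by
      have h2 : i % k < k := Nat.mod_lt i hk
      have h3 : (i + 1) % k = (i % k + 1) % k := by rw [Nat.mod_add_mod]
      rcases Nat.lt_or_ge (i % k + 1) k with h4 | h4
      · rw [h3, Nat.mod_eq_of_lt h4]
      · have h5 : i % k + 1 = k := by omega
        rw [h3, h5, Nat.mod_self, h0, bar_fst]
    rw [h1]
    exact hE _ (Nat.mod_lt i hk)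
  · rw [← hs]
    apply Finset.sum_congr rfl
    intro i hi
    rw [Finset.mem_range] at hi
    simp only [hval i hi.le, hval (i + 1) hi]

variable [Fintype V] [DecidableEq V]

/-- A direction with zero signed sum over all tight chains vanishes on `E`. -/
theorem perturb (H : Core E y) (d : V → V → ℝ) (hd : ∀ i j, d i j = d j i)
    (h : ∀ k c, 3 ≤ k → Tight E y k c → ∑ i ∈ Finset.range k, dlt d (c i) (c (i + 1)) = 0) :
    ∀ i j, s(i, j) ∈ E → d i j = 0 := by
  classical
  -- a positive lower bound for the steps
  obtain ⟨m, hm0, hm⟩ : ∃ m : ℝ, 0 < m ∧ ∀ p q : V × Bool, s(p.1, q.1) ∈ E → m ≤ dd y p q := by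
    have hev : ∀ᶠ m in nhdsWithin (0:ℝ) (Ioi 0),
        ∀ z : (V × Bool) × (V × Bool), s(z.1.1, z.2.1) ∈ E → m ≤ dd y z.1 z.2 := by
      rw [Filter.eventually_all]
      intro z
      by_cases hz : s(z.1.1, z.2.1) ∈ E
      · have hpos := (H.dd_pos hz).1
        have : ∀ᶠ m in nhdsWithin (0:ℝ) (Ioi 0), m < dd y z.1 z.2 :=
          Filter.Eventually.filter_mono nhdsWithin_le_nhds (gt_mem_nhds hpos)
        filter_upwards [this] with m hm _ using hm.le
      · exact Filter.Eventually.of_forall fun m hz' => absurd hz' hz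
    obtain ⟨m, hm, hm0⟩ := (hev.and self_mem_nhdsWithin).exists
    exact ⟨m, hm0, fun p q hpq => hm (p, q) hpq⟩
  obtain ⟨K, hK⟩ : ∃ K : ℕ, 1 ≤ (K : ℝ) * (m / 2) := by
    obtain ⟨K, hK⟩ := exists_nat_ge (1 / (m / 2))
    refine ⟨K, ?_⟩
    rw [div_le_iff₀ (by positivity)] at hK
    exact hK
  -- good parameters
  have hev1 : ∀ᶠ ε in nhds (0:ℝ), ∀ z : (V × Bool) × (V × Bool), s(z.1.1, z.2.1) ∈ E →
      m / 2 ≤ dd y z.1 z.2 + ε * dlt d z.1 z.2 ∧ dd y z.1 z.2 + ε * dlt d z.1 z.2 ≤ 1 := by
    rw [Filter.eventually_all]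
    intro z
    by_cases hz : s(z.1.1, z.2.1) ∈ E
    · have h1 := (H.dd_pos hz).2
      have h2 := hm _ _ hz
      have hcont : ContinuousAt (fun ε : ℝ => dd y z.1 z.2 + ε * dlt d z.1 z.2) 0 := by fun_prop
      have e1 : ∀ᶠ ε in nhds (0:ℝ), m / 2 < dd y z.1 z.2 + ε * dlt d z.1 z.2 :=
        hcont.eventually (lt_mem_nhds (by simp only [zero_mul, add_zero]; linarith))
      have e2 : ∀ᶠ ε in nhds (0:ℝ), dd y z.1 z.2 + ε * dlt d z.1 z.2 < 1 :=
        hcont.eventually (gt_mem_nhds (by simp only [zero_mul, add_zero]; linarith))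
      filter_upwards [e1, e2] with ε h3 h4 _ using ⟨h3.le, h4.le⟩
    · exact Filter.Eventually.of_forall fun ε hz' => absurd hz' hz
  have hev2 : ∀ᶠ ε in nhds (0:ℝ), ∀ z : Fin (K + 1) × (Fin (K + 1) → V × Bool),
      1 < ∑ i ∈ Finset.range z.1.1, dd y (z.2 (Fin.ofNat (K + 1) i))
        (z.2 (Fin.ofNat (K + 1) (i + 1))) →
      1 < ∑ i ∈ Finset.range z.1.1, (dd y (z.2 (Fin.ofNat (K + 1) i))
        (z.2 (Fin.ofNat (K + 1) (i + 1))) + ε * dlt d (z.2 (Fin.ofNat (K + 1) i))
        (z.2 (Fin.ofNat (K + 1) (i + 1)))) := by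
    rw [Filter.eventually_all]
    intro z
    by_cases hz : 1 < ∑ i ∈ Finset.range z.1.1, dd y (z.2 (Fin.ofNat (K + 1) i))
        (z.2 (Fin.ofNat (K + 1) (i + 1)))
    · have hcont : ContinuousAt (fun ε : ℝ => ∑ i ∈ Finset.range z.1.1,
        (dd y (z.2 (Fin.ofNat (K + 1) i))
        (z.2 (Fin.ofNat (K + 1) (i + 1))) + ε * dlt d (z.2 (Fin.ofNat (K + 1) i))
        (z.2 (Fin.ofNat (K + 1) (i + 1))))) 0 := by fun_prop
      have e1 := hcont.eventually (lt_mem_nhds (a := (1:ℝ)) (by
        simp only [zero_mul, add_zero]; exact hz))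
      filter_upwards [e1] with ε h3 _ using h3
    · exact Filter.Eventually.of_forall fun ε hz' => absurd hz' hz
  obtain ⟨r, hr, hball⟩ := Metric.eventually_nhds_iff.mp (hev1.and hev2)
  -- extension of the perturbed data
  have key : ∀ ε : ℝ, |ε| < r → ∃ x ∈ MPol V, ∀ i j, s(i, j) ∈ E → x i j = y i j + ε * d i j := by
    intro ε hε
    obtain ⟨hb1, hb2⟩ := hball (y := ε) (by rw [dist_zero_right]; exact hε)
    have hasymm : ∀ i j, y i j + ε * d i j = y j i + ε * d j i := by
      intro i j
      rw [H.mem.2.1 i j, hd i j]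
    have hval : ∀ p q : V × Bool, s(p.1, q.1) ∈ E →
        ell E (fun i j => y i j + ε * d i j) p q = dd y p q + ε * dlt d p q := by
      intro p q hpq
      unfold ell
      rw [if_pos hpq, dd_add_smul]
    have hnn : ∀ p q : V × Bool, 0 ≤ ell E (fun i j => y i j + ε * d i j) p q := by
      intro p q
      by_cases hpq : s(p.1, q.1) ∈ E
      · rw [hval p q hpq]
        have := (hb1 (p, q) hpq).1
        simp only at this
        linarith
      · unfold ell
        rw [if_neg hpq]
        norm_num
    obtain ⟨x, hx, hxE, -⟩ := ext_chain E (a := fun i j => y i j + ε * d i j) hasymm (by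
      intro i j hij
      have h1 := hb1 ((i, false), (j, false)) hij
      simp only [dd, dlt, if_true] at h1
      constructor
      · linarith [h1.1]
      · exact h1.2) (by
      intro p t ht
      obtain ⟨k, c, h0, hk, rfl⟩ := ht.repr
      by_cases hall : ∀ i < k, s((c i).1, (c (i + 1)).1) ∈ E
      · have hterm : ∀ i ∈ Finset.range k, ell E (fun i j => y i j + ε * d i j) (c i) (c (i + 1)) =
            dd y (c i) (c (i + 1)) + ε * dlt d (c i) (c (i + 1)) := by
          intro i hi
          rw [Finset.mem_range] at hi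
          exact hval _ _ (hall i hi)
        rw [Finset.sum_congr rfl hterm]
        rcases Nat.lt_or_ge k K with hkK | hkK
        · -- short chains
          have hcan : ∀ i ≤ k, c (Fin.ofNat (K + 1) i).val = c i := by
            intro i hi
            congr 1
            show i % (K + 1) = i
            exact Nat.mod_eq_of_lt (by omega)
          have hTy : 1 ≤ ∑ i ∈ Finset.range k, dd y (c i) (c (i + 1)) := by
            have h1 := dd_le_sum H.mem c 0 k
            simp only [zero_add] at h1
            rw [h0, hk, dd_bar_self H.mem] at h1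
            exact h1
          rcases hTy.lt_or_eq with hlt | heq
          · have h2 := hb2 (⟨k, by omega⟩, fun i => c i.val)
            simp only at h2
            have e1 : ∑ i ∈ Finset.range k, dd y (c (Fin.ofNat (K + 1) i).val)
                (c (Fin.ofNat (K + 1) (i + 1)).val) =
                ∑ i ∈ Finset.range k, dd y (c i) (c (i + 1)) := by
              apply Finset.sum_congr rfl
              intro i hi
              rw [Finset.mem_range] at hi
              rw [hcan i hi.le, hcan (i + 1) hi]
            have e2 : ∑ i ∈ Finset.range k, (dd y (c (Fin.ofNat (K + 1) i).val)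
                (c (Fin.ofNat (K + 1) (i + 1)).val) + ε * dlt d (c (Fin.ofNat (K + 1) i).val)
                (c (Fin.ofNat (K + 1) (i + 1)).val)) =
                ∑ i ∈ Finset.range k, (dd y (c i) (c (i + 1)) + ε * dlt d (c i) (c (i + 1))) := by
              apply Finset.sum_congr rfl
              intro i hi
              rw [Finset.mem_range] at hi
              rw [hcan i hi.le, hcan (i + 1) hi]
            rw [e1, e2] at h2
            exact (h2 hlt).le
          · -- tight chains
            have hδ : ∑ i ∈ Finset.range k, dlt d (c i) (c (i + 1)) = 0 := by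
              rcases Nat.lt_or_ge k 3 with hk3 | hk3
              · have hcases : k = 0 ∨ k = 1 ∨ k = 2 := by omega
                rcases hcases with rfl | rfl | rfl
                · simp
                · exfalso
                  have h1 := H.ne_base (hall 0 (by norm_num))
                  rw [zero_add, hk, h0, bar_fst] at h1
                  exact h1 rfl
                · rw [Finset.sum_range_succ, Finset.sum_range_one]
                  simp only [zero_add]
                  have e : c (1 + 1) = bar (c 0) := by rw [h0]; exact hk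
                  rw [e, dlt_bar_right, dlt_symm hd (c 1) (c 0)]
                  ring
              · obtain ⟨c', hT, hc'⟩ := exists_tight (E := E) (y := y) (by omega)
                  (c := c) (by rw [h0]; exact hk) hall heq.symm
                rw [← h k c' hk3 hT]
                apply Finset.sum_congr rfl
                intro i hi
                rw [Finset.mem_range] at hi
                rw [hc' i hi.le, hc' (i + 1) hi]
            rw [Finset.sum_add_distrib, ← Finset.mul_sum, hδ, ← heq]
            simp
        · -- long chains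
          have h1 : ∀ i ∈ Finset.range k, m / 2 ≤
              dd y (c i) (c (i + 1)) + ε * dlt d (c i) (c (i + 1)) := by
            intro i hi
            rw [Finset.mem_range] at hi
            exact (hb1 (c i, c (i + 1)) (hall i hi)).1
          have h2 := Finset.card_nsmul_le_sum _ _ _ h1
          rw [Finset.card_range, nsmul_eq_mul] at h2
          have h3 : (K : ℝ) * (m / 2) ≤ k * (m / 2) := by
            apply mul_le_mul_of_nonneg_right _ (by positivity)
            exact_mod_cast hkK
          linarith
      · push Not at hall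
        obtain ⟨i, hi, hiE⟩ := hall
        have h1 : ell E (fun i j => y i j + ε * d i j) (c i) (c (i + 1)) = 1 := if_neg hiE
        rw [← h1]
        exact Finset.single_le_sum (f := fun i => ell E (fun i j => y i j + ε * d i j) (c i)
          (c (i + 1))) (fun j _ => hnn _ _) (Finset.mem_range.mpr hi))
    exact ⟨x, hx, hxE⟩
  intro i j hij
  obtain ⟨x1, hx1, hx1E⟩ := key (r / 2) (by rw [abs_of_pos (by positivity)]; linarith)
  obtain ⟨x2, hx2, hx2E⟩ := key (-(r / 2)) (by
    rw [abs_neg, abs_of_pos (by positivity)]; linarith)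
  have := H.ext (fun i j => r / 2 * d i j) ⟨x1, hx1, hx1E⟩ ⟨x2, hx2, by
    intro i j hij
    rw [hx2E i j hij]; ring⟩ i j hij
  rcases mul_eq_zero.mp this with h1 | h1
  · linarith
  · exact h1

end perturb

end Pool.Agent.TH524
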