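import Mathlib

/-!
# Edges of polytopes given by inequalities

General facts about a polytope `P = {x | ∀ t, 0 ≤ a t x + b t}`: edge-ascending paths, and a
criterion for the connectedness of the part of its 1-skeleton lying off the convex hull of a finite
set of forbidden points.
-/

set_option autoImplicit false

open Set Module

namespace Pool.Agent.TH524

section ratio

/-- Minimal ratio test. -/
theorem ratio_test {ι : Type*} (A : Finset ι) (s c : ι → ℝ) (h0 : ∃ t ∈ A, c t < 0)
    (hs : ∀ t ∈ A, 0 ≤ s t) (hs' : ∀ t ∈ A, c t < 0 → 0 < s t) :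
    ∃ T : ℝ, 0 < T ∧ (∀ t ∈ A, 0 ≤ s t + T * c t) ∧ ∃ t ∈ A, c t < 0 ∧ s t + T * c t = 0 := by
  classical
  obtain ⟨t1, ht1, hc1⟩ := h0
  have hne : (A.filter (fun t => c t < 0)).Nonempty := ⟨t1, by simp [ht1, hc1]⟩
  obtain ⟨t0, ht0, hmin⟩ := Finset.exists_min_image (A.filter (fun t => c t < 0))
    (fun t => s t / (- c t)) hne
  rw [Finset.mem_filter] at ht0
  have hpos : 0 < - c t0 := by linarith [ht0.2]
  refine ⟨s t0 / (- c t0), div_pos (hs' t0 ht0.1 ht0.2) hpos, ?_, t0, ht0.1, ht0.2, ?_⟩
  · intro t ht
    by_cases hct : c t < 0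
    · have h := hmin t (by simp [ht, hct])
      have hp : 0 < - c t := by linarith
      rw [le_div_iff₀ hp] at h
      nlinarith
    · have hct' : 0 ≤ c t := not_lt.mp hct
      have : 0 ≤ s t0 / (- c t0) := div_nonneg (hs t0 ht0.1) hpos.le
      have := mul_nonneg this hct'
      linarith [hs t ht]
  · have hc0 : c t0 ≠ 0 := ht0.2.ne
    field_simp
    ring

end ratio

section poly

variable {E : Type*} [NormedAddCommGroup E] [NormedSpace ℝ E] {ι : Type*} [Fintype ι]
  {a : ι → E →ₗ[ℝ] ℝ} {b : ι → ℝ} {P : Set E}

/-- Extreme points are the points whose tight constraints determine them. -/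
theorem ext_iff (hP : P = {x | ∀ t, 0 ≤ a t x + b t}) {v : E} (hv : v ∈ P) :
    v ∈ extremePoints ℝ P ↔ ∀ d, (∀ t, a t v + b t = 0 → a t d = 0) → d = 0 := by
  subst hP
  rw [mem_extremePoints_iff_left]
  constructor
  · rintro ⟨-, h⟩ d hd
    have hev : ∀ᶠ ε in nhdsWithin (0:ℝ) (Ioi 0),
        ∀ t, 0 ≤ a t v + b t - ε * |a t d| := by
      rw [Filter.eventually_all]
      intro t
      by_cases htight : a t v + b t = 0
      · filter_upwards with ε
        rw [htight, hd t htight]; simp
      · have hpos : 0 < a t v + b t := lt_of_le_of_ne (hv t) (Ne.symm htight)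
        have hcont : Filter.Tendsto (fun ε : ℝ => a t v + b t - ε * |a t d|)
            (nhdsWithin 0 (Ioi 0)) (nhds (a t v + b t - 0 * |a t d|)) := by
          apply Filter.Tendsto.mono_left _ nhdsWithin_le_nhds
          exact (Continuous.tendsto (by fun_prop) 0)
        have : ∀ᶠ ε in nhdsWithin (0:ℝ) (Ioi 0), 0 < a t v + b t - ε * |a t d| :=
          hcont.eventually (lt_mem_nhds (by simpa using hpos))
        filter_upwards [this] with ε hε using hε.le
    obtain ⟨ε, hε, hε0⟩ := (hev.and self_mem_nhdsWithin).exists
    have hε0' : (0:ℝ) < ε := hε0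
    have h1 : v + ε • d ∈ {x | ∀ t, 0 ≤ a t x + b t} := by
      intro t
      have h2 := hε t
      have h3 : -(ε * |a t d|) ≤ ε * a t d := by
        have := neg_abs_le (a t d)
        nlinarith
      simp only [map_add, map_smul, smul_eq_mul]
      linarith
    have h2 : v - ε • d ∈ {x | ∀ t, 0 ≤ a t x + b t} := by
      intro t
      have h2 := hε t
      have h3 : ε * a t d ≤ ε * |a t d| := by
        have := le_abs_self (a t d)
        nlinarith
      simp only [map_sub, map_smul, smul_eq_mul]
      linarith
    have h3 : v ∈ openSegment ℝ (v + ε • d) (v - ε • d) := by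
      refine ⟨1/2, 1/2, by norm_num, by norm_num, by norm_num, ?_⟩
      module
    have h4 := h _ h1 _ h2 h3
    have h5 : ε • d = 0 := by simpa using h4
    rcases smul_eq_zero.mp h5 with h6 | h6
    · exact absurd h6 hε0'.ne'
    · exact h6
  · intro h
    refine ⟨hv, ?_⟩
    rintro x hx y hy ⟨α, β, hα, hβ, hαβ, hxy⟩
    have hd := h (x - y) (by
      intro t ht
      have h1 : a t v + b t = α * (a t x + b t) + β * (a t y + b t) := by
        rw [← hxy]
        simp only [map_add, map_smul, smul_eq_mul]
        have : b t = (α + β) * b t := by rw [hαβ, one_mul]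
        linear_combination this
      have h2 := hx t
      have h3 := hy t
      rw [ht] at h1
      have h4 : 0 ≤ α * (a t x + b t) := mul_nonneg hα.le h2
      have h5 : 0 ≤ β * (a t y + b t) := mul_nonneg hβ.le h3
      have h6 : α * (a t x + b t) = 0 := by linarith
      have h7 : β * (a t y + b t) = 0 := by linarith
      have h8 : a t x + b t = 0 := by
        rcases mul_eq_zero.mp h6 with h | h
        · exact absurd h hα.ne'
        · exact h
      have h9 : a t y + b t = 0 := by
        rcases mul_eq_zero.mp h7 with h | h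
        · exact absurd h hβ.ne'
        · exact h
      rw [map_sub]; linarith)
    have hxy' : x = y := sub_eq_zero.mp hd
    rw [← hxy, ← hxy', ← add_smul, hαβ, one_smul]

/-- Finitely many extreme points. -/
theorem finite_ext (hP : P = {x | ∀ t, 0 ≤ a t x + b t}) : (extremePoints ℝ P).Finite := by
  classical
  have hinj : InjOn (fun v : E => (Finset.univ.filter (fun t => a t v + b t = 0) : Finset ι))
      (extremePoints ℝ P) := by
    intro v hv w hw hvw
    have hv' := (ext_iff hP hv.1).mp hv (v - w) (by
      intro t ht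
      have h1 := Finset.ext_iff.mp hvw t
      simp only [Finset.mem_filter, Finset.mem_univ, true_and] at h1
      have h2 : a t w + b t = 0 := h1.mp ht
      rw [map_sub]; linarith)
    exact sub_eq_zero.mp hv'
  exact Set.Finite.of_injOn (t := Set.univ) (fun _ _ => Set.mem_univ _) hinj Set.finite_univ

/-- From an extreme point that does not maximise `f` there is an ascending edge. -/
theorem exists_edge (hP : P = {x | ∀ t, 0 ≤ a t x + b t})
    (hrec : ∀ d, (∀ t, 0 ≤ a t d) → d = 0) {v : E} (hv : v ∈ extremePoints ℝ P)
    (f : E →ₗ[ℝ] ℝ) {x : E} (hx : x ∈ P) (hfx : f v < f x) :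
    ∃ v' ∈ extremePoints ℝ P, f v < f v' ∧ IsExtreme ℝ P (segment ℝ v v') := by
  classical
  have hvP : v ∈ P := hv.1
  have hvP' : ∀ t, 0 ≤ a t v + b t := by rw [hP] at hvP; exact hvP
  have hxP' : ∀ t, 0 ≤ a t x + b t := by rw [hP] at hx; exact hx
  have hve := (ext_iff hP hvP).mp hv
  -- the tight constraints
  set A : Finset ι := Finset.univ.filter (fun t => a t v + b t = 0) with hA
  have hAmem : ∀ t, t ∈ A ↔ a t v + b t = 0 := by intro t; simp [hA]
  let D : Set E := {d | (∀ t ∈ A, 0 ≤ a t d) ∧ 0 < f d}
  let N : E → ℕ := fun d => (A.filter (fun t => a t d = 0)).card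
  have hDne : (x - v) ∈ D := by
    refine ⟨?_, ?_⟩
    · intro t ht
      have := (hAmem t).mp ht
      rw [map_sub]; linarith [hxP' t]
    · rw [map_sub]; linarith
  have hbdd : BddAbove (N '' D) := by
    refine ⟨A.card, ?_⟩
    rintro _ ⟨d, -, rfl⟩
    exact Finset.card_filter_le _ _
  obtain ⟨d, hdD, hdN⟩ : ∃ d ∈ D, ∀ d' ∈ D, N d' ≤ N d := by
    have hne : (N '' D).Nonempty := ⟨_, _, hDne, rfl⟩
    obtain ⟨d, hd, hdeq⟩ := Nat.sSup_mem hne hbdd
    refine ⟨d, hd, fun d' hd' => ?_⟩
    rw [hdeq]
    exact le_csSup hbdd ⟨d', hd', rfl⟩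
  obtain ⟨hdK, hdf⟩ := hdD
  -- the kernel of the constraints tight at `d` is the line spanned by `d`
  have hker : ∀ e, (∀ t ∈ A, a t d = 0 → a t e = 0) → ∃ c : ℝ, e = c • d := by
    intro e he
    by_contra hcon
    push Not at hcon
    -- the normalised direction
    have key : ∀ e' : E, (∀ t ∈ A, a t d = 0 → a t e' = 0) → f e' = 0 →
        (∀ t ∈ A, 0 ≤ a t e') := by
      intro e' he' hfe'
      by_contra hneg
      push Not at hneg
      obtain ⟨t1, ht1, hneg1⟩ := hneg
      obtain ⟨T, hT, hT1, t2, ht2, ht2c, ht2e⟩ := ratio_test A (fun t => a t d)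
        (fun t => a t e') ⟨t1, ht1, hneg1⟩ hdK (by
          intro t ht htneg
          rcases (hdK t ht).lt_or_eq with h | h
          · exact h
          · exact absurd (he' t ht h.symm) htneg.ne)
      have hnew : d + T • e' ∈ D := by
        refine ⟨?_, ?_⟩
        · intro t ht
          simpa [map_add, map_smul] using hT1 t ht
        · simp [map_add, map_smul, hfe', hdf]
      have hlt : N d < N (d + T • e') := by
        apply Finset.card_lt_card
        rw [Finset.ssubset_iff_of_subset]
        · refine ⟨t2, ?_, ?_⟩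
          · rw [Finset.mem_filter]
            exact ⟨ht2, by simpa [map_add, map_smul] using ht2e⟩
          · rw [Finset.mem_filter]
            rintro ⟨-, h0⟩
            exact absurd (he' t2 ht2 h0) ht2c.ne
        · intro t ht
          rw [Finset.mem_filter] at ht ⊢
          exact ⟨ht.1, by simp [map_add, map_smul, ht.2, he' t ht.1 ht.2]⟩
      exact absurd (hdN _ hnew) (not_le.mpr hlt)
    set e' : E := e - (f e / f d) • d with he'def
    have he'1 : ∀ t ∈ A, a t d = 0 → a t e' = 0 := by
      intro t ht h0
      simp [he'def, map_sub, map_smul, he t ht h0, h0]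
    have he'2 : f e' = 0 := by
      simp only [he'def, map_sub, map_smul, smul_eq_mul]
      field_simp
      ring
    have h1 := key e' he'1 he'2
    have h2 := key (-e') (by intro t ht h0; simp [he'1 t ht h0]) (by simp [he'2])
    have h3 : e' = 0 := by
      apply hve
      intro t ht
      have ht' := (hAmem t).mpr ht
      have h4 := h1 t ht'
      have h5 := h2 t ht'
      rw [map_neg] at h5
      linarith
    exact hcon (f e / f d) (by
      have := sub_eq_zero.mp (he'def ▸ h3)
      exact this)
  have hd0 : d ≠ 0 := by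
    rintro rfl
    simp at hdf
  -- go as far as possible
  obtain ⟨t1, ht1⟩ : ∃ t, a t d < 0 := by
    by_contra hcon
    push Not at hcon
    exact hd0 (hrec d hcon)
  obtain ⟨T, hT, hT1, t2, -, ht2c, ht2e⟩ := ratio_test Finset.univ (fun t => a t v + b t)
    (fun t => a t d) ⟨t1, Finset.mem_univ _, ht1⟩ (fun t _ => hvP' t) (by
      intro t _ htneg
      rcases (hvP' t).lt_or_eq with h | h
      · exact h
      · have := hdK t ((hAmem t).mpr h.symm)
        linarith)
  obtain ⟨t3, ht3A, ht3⟩ : ∃ t ∈ A, 0 < a t d := by
    by_contra hcon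
    push Not at hcon
    exact hd0 (hve d (fun t ht => le_antisymm (hcon t ((hAmem t).mpr ht))
      (hdK t ((hAmem t).mpr ht))))
  have hv'P : v + T • d ∈ P := by
    rw [hP]
    intro t
    have := hT1 t (Finset.mem_univ _)
    simp only [map_add, map_smul, smul_eq_mul]
    linarith
  refine ⟨v + T • d, ?_, ?_, ?_⟩
  · rw [ext_iff hP hv'P]
    intro e he
    obtain ⟨c, rfl⟩ := hker e (by
      intro t ht h0
      apply he
      simp only [map_add, map_smul, smul_eq_mul, h0]
      linarith [(hAmem t).mp ht])
    have h1 := he t2 (by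
      simp only [map_add, map_smul, smul_eq_mul]
      linarith)
    rw [map_smul, smul_eq_mul] at h1
    rcases mul_eq_zero.mp h1 with h | h
    · rw [h, zero_smul]
    · exact absurd h ht2c.ne
  · simp only [map_add, map_smul, smul_eq_mul]
    have := mul_pos hT hdf
    linarith
  · constructor
    · have hconv : Convex ℝ P := by
        rw [hP]
        intro x hx y hy α β hα hβ hαβ t
        simp only [map_add, map_smul, smul_eq_mul]
        have h1 := mul_nonneg hα (hx t)
        have h2 := mul_nonneg hβ (hy t)
        have : b t = (α + β) * b t := by rw [hαβ, one_mul]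
        nlinarith
      exact hconv.segment_subset hvP hv'P
    · intro x1 hx1 x2 hx2 z hz hzx
      have hx1' : ∀ t, 0 ≤ a t x1 + b t := by rw [hP] at hx1; exact hx1
      have hx2' : ∀ t, 0 ≤ a t x2 + b t := by rw [hP] at hx2; exact hx2
      obtain ⟨α, β, hα, hβ, hαβ, hzeq⟩ := hzx
      obtain ⟨γ, δ, hγ, hδ, hγδ, hzseg⟩ := hz
      have hz0 : ∀ t ∈ A, a t d = 0 → a t z + b t = 0 := by
        intro t ht h0
        rw [← hzseg]
        simp only [map_add, map_smul, smul_eq_mul, h0]
        have h1 := (hAmem t).mp ht
        have : b t = (γ + δ) * b t := by rw [hγδ, one_mul]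
        linear_combination this + (γ + δ) * h1
      obtain ⟨c, hc⟩ := hker (x1 - v) (by
        intro t ht h0
        have h1 := hz0 t ht h0
        rw [← hzeq] at h1
        simp only [map_add, map_smul, smul_eq_mul] at h1
        have h2 : α * (a t x1 + b t) + β * (a t x2 + b t) = 0 := by
          have : b t = (α + β) * b t := by rw [hαβ, one_mul]
          linear_combination h1 - this
        have h4 : 0 ≤ α * (a t x1 + b t) := mul_nonneg hα.le (hx1' t)
        have h5 : 0 ≤ β * (a t x2 + b t) := mul_nonneg hβ.le (hx2' t)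
        have h6 : α * (a t x1 + b t) = 0 := by linarith
        have h8 : a t x1 + b t = 0 := by
          rcases mul_eq_zero.mp h6 with h | h
          · exact absurd h hα.ne'
          · exact h
        rw [map_sub]; linarith [(hAmem t).mp ht])
      have hx1eq : x1 = v + c • d := by rw [← hc]; abel
      have hc0 : 0 ≤ c := by
        have h1 := hx1' t3
        rw [hx1eq] at h1
        simp only [map_add, map_smul, smul_eq_mul] at h1
        have h2 := (hAmem t3).mp ht3A
        have h3 : 0 ≤ c * a t3 d := by linarith
        exact nonneg_of_mul_nonneg_left h3 ht3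
      have hcT : c ≤ T := by
        have h1 := hx1' t2
        rw [hx1eq] at h1
        simp only [map_add, map_smul, smul_eq_mul] at h1
        nlinarith
      refine ⟨1 - c / T, c / T, ?_, ?_, ?_, ?_⟩
      · have : c / T ≤ 1 := by rw [div_le_one hT]; exact hcT
        linarith
      · positivity
      · ring
      · rw [hx1eq, smul_add, smul_smul, ← add_assoc, ← add_smul]
        have h1 : (1 - c / T + c / T) = 1 := by ring
        have h2 : c / T * T = c := by field_simp
        rw [h1, h2, one_smul]

end poly

end Pool.Agent.TH524
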