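import Pool.Agent.TH524.Core
import Pool.Agent.TH524.Chain
import Pool.Agent.TH524.Lehman

/-!
# Tight chains
-/

set_option autoImplicit false

open Set

namespace Pool.Agent.TH524

section tight

variable {V : Type*}

/-- A tight chain, extended antiperiodically. -/
structure Tight (E : Finset (Sym2 V)) (y : V → V → ℝ) (k : ℕ) (c : ℕ → V × Bool) : Prop where
  anti : ∀ i, c (i + k) = bar (c i)
  edge : ∀ i, s((c i).1, (c (i + 1)).1) ∈ E
  sum : ∑ i ∈ Finset.range k, dd y (c i) (c (i + 1)) = 1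

variable {E : Finset (Sym2 V)} {y : V → V → ℝ} {k : ℕ} {c : ℕ → V × Bool}

theorem Tight.shift (h : Tight E y k c) : Tight E y k (fun i => c (i + 1)) := by
  refine ⟨?_, ?_, ?_⟩
  · intro i
    have := h.anti (i + 1)
    rw [← this]
    congr 1
    ring
  · intro i
    exact h.edge (i + 1)
  · have h1 := Finset.sum_range_succ' (fun i => dd y (c i) (c (i + 1))) k
    have h2 := Finset.sum_range_succ (fun i => dd y (c i) (c (i + 1))) k
    have h3 : dd y (c k) (c (k + 1)) = dd y (c 0) (c (0 + 1)) := by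
      have e1 := h.anti 0
      have e2 := h.anti 1
      rw [zero_add] at e1
      rw [e1, add_comm k 1, e2, dd_bar_bar, zero_add]
    rw [h2, h3, h.sum] at h1
    linarith

theorem Tight.shiftN (h : Tight E y k c) (m : ℕ) : Tight E y k (fun i => c (i + m)) := by
  induction m with
  | zero => simpa using h
  | succ m ih =>
    have e : (fun i => c (i + (m + 1))) = (fun i => c (i + 1 + m)) := by
      funext i
      congr 1
      ring
    rw [e]
    exact ih.shift

/-- The chain inequality. -/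
theorem dd_le_sum {x : V → V → ℝ} (hx : x ∈ MPol V) (c : ℕ → V × Bool) (i j : ℕ) :
    dd x (c i) (c (i + j)) ≤ ∑ t ∈ Finset.range j, dd x (c (i + t)) (c (i + t + 1)) := by
  induction j with
  | zero => simp [dd_self hx]
  | succ j ih =>
    rw [Finset.sum_range_succ]
    have := dd_triangle hx (c i) (c (i + j)) (c (i + (j + 1)))
    have e : i + (j + 1) = i + j + 1 := by ring
    rw [e] at this ⊢
    linarith

/-- Distances along a tight chain. -/
theorem Tight.geod (hy : y ∈ MPol V) (h : Tight E y k c) {j : ℕ} (hj : j ≤ k) :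
    dd y (c 0) (c j) = ∑ t ∈ Finset.range j, dd y (c t) (c (t + 1)) := by
  have h1 := dd_le_sum hy c 0 j
  simp only [zero_add] at h1
  have h2 := dd_le_sum hy c j (k - j)
  have h3 : j + (k - j) = k := by omega
  rw [h3] at h2
  have h4 := dd_triangle hy (c 0) (c j) (c k)
  have h5 : dd y (c 0) (c k) = 1 := by
    have := h.anti 0
    rw [zero_add] at this
    rw [this, dd_bar_self hy]
  have h6 := h.sum
  have h7 : ∑ i ∈ Finset.range k, dd y (c i) (c (i + 1)) =
      ∑ t ∈ Finset.range j, dd y (c t) (c (t + 1)) +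
      ∑ t ∈ Finset.range (k - j), dd y (c (j + t)) (c (j + t + 1)) := by
    rw [← Finset.sum_range_add_sum_Ico _ hj, Finset.sum_Ico_eq_sum_range]
  linarith

variable [Fintype V] [DecidableEq V]

theorem Core.ne_base (H : Core E y) {p q : V × Bool} (h : s(p.1, q.1) ∈ E) : p.1 ≠ q.1 := by
  intro he
  have := H.pos _ _ h
  rw [he, H.mem.1] at this
  exact lt_irrefl _ this.1

theorem Core.dd_pos (H : Core E y) {p q : V × Bool} (h : s(p.1, q.1) ∈ E) :
    0 < dd y p q ∧ dd y p q < 1 := by
  have := H.pos _ _ h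
  unfold dd
  split_ifs
  · exact this
  · constructor <;> linarith

/-- The interior points of a tight chain have new bases. -/
theorem Tight.base_ne0 (H : Core E y) (h : Tight E y k c) {j : ℕ} (hj0 : 0 < j) (hj : j < k) :
    (c 0).1 ≠ (c j).1 := by
  have h1 := h.geod H.mem hj.le
  have hpos : ∀ t, 0 < dd y (c t) (c (t + 1)) := fun t => (H.dd_pos (h.edge t)).1
  have h2 : 0 < dd y (c 0) (c j) := by
    rw [h1]
    exact Finset.sum_pos (fun t _ => hpos t) ⟨0, by simp [hj0]⟩
  have h3 : dd y (c 0) (c j) < 1 := by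
    rw [h1, ← h.sum]
    apply Finset.sum_lt_sum_of_subset (i := j)
    · intro t ht
      rw [Finset.mem_range] at ht ⊢
      omega
    · simp [hj]
    · simp
    · exact hpos j
    · intro t _ _
      exact (hpos t).le
  intro he
  rcases eq_or_eq_bar he with h4 | h4
  · rw [h4, dd_self H.mem] at h2
    exact lt_irrefl _ h2
  · rw [h4, dd_bar_left, dd_self H.mem] at h3
    norm_num at h3

theorem Tight.base_ne (H : Core E y) (h : Tight E y k c) (i : ℕ) {j : ℕ} (hj0 : 0 < j)
    (hj : j < k) : (c i).1 ≠ (c (i + j)).1 := by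
  have := (h.shiftN i).base_ne0 H hj0 hj
  simp only [zero_add] at this
  rwa [add_comm j i] at this

/-- The edges of a tight chain are distinct. -/
theorem Tight.edge_ne (H : Core E y) (h : Tight E y k c) (hk : 3 ≤ k) {i j : ℕ} (hij : i < j)
    (hjk : j < i + k) :
    s((c i).1, (c (i + 1)).1) ≠ s((c j).1, (c (j + 1)).1) := by
  intro he
  rw [Sym2.eq_iff] at he
  rcases he with ⟨h1, -⟩ | ⟨h1, h2⟩
  · have := h.base_ne H i (j := j - i) (by omega) (by omega)
    rw [Nat.add_sub_cancel' hij.le] at this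
    exact this h1
  · rcases Nat.lt_or_ge (i + 1) j with h3 | h3
    · have := h.base_ne H (i + 1) (j := j - (i + 1)) (by omega) (by omega)
      rw [Nat.add_sub_cancel' h3.le] at this
      exact this h2
    · have h4 : j = i + 1 := by omega
      subst h4
      have := h.base_ne H i (j := 2) (by omega) (by omega)
      exact this h1

/-- The graph given by the cut combinations. -/
def Gadj (E : Finset (Sym2 V)) (y : V → V → ℝ) (Q : Sym2 V → V → V → ℝ) (p q : V × Bool) : Prop :=
  s(p.1, q.1) ∈ E ∧ dd y p q < dd (Q s(p.1, q.1)) p q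

/-- The chosen cut combinations. -/
def GoodQ (E : Finset (Sym2 V)) (y : V → V → ℝ) (Q : Sym2 V → V → V → ℝ) : Prop :=
  ∀ e ∈ E, Q e ∈ CUT V ∧ (∀ i j, s(i, j) ∈ E → s(i, j) ≠ e → Q e i j = y i j) ∧
    ∀ i j, s(i, j) = e → Q e i j ≠ y i j

theorem Core.exists_Q (H : Core E y) : ∃ Q, GoodQ E y Q := by
  classical
  have h : ∀ e, ∃ q : V → V → ℝ, e ∈ E → q ∈ CUT V ∧
      (∀ i j, s(i, j) ∈ E → s(i, j) ≠ e → q i j = y i j) ∧ ∀ i j, s(i, j) = e → q i j ≠ y i j := by
    intro e
    by_cases he : e ∈ E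
    · obtain ⟨q, hq⟩ := H.cut e he
      exact ⟨q, fun _ => hq⟩
    · exact ⟨0, fun h => absurd h he⟩
  choose Q hQ using h
  exact ⟨Q, fun e he => hQ e he⟩

variable {Q : Sym2 V → V → V → ℝ}

theorem Gadj.symm (H : Core E y) (hQ : GoodQ E y Q) {p q : V × Bool} (h : Gadj E y Q p q) :
    Gadj E y Q q p := by
  obtain ⟨h1, h2⟩ := h
  have h3 : s(q.1, p.1) = s(p.1, q.1) := Sym2.eq_swap
  refine ⟨by rw [h3]; exact h1, ?_⟩
  rw [h3, dd_symm H.mem q p, dd_symm (CUT_subset (hQ _ h1).1) q p]
  exact h2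

omit [Fintype V] [DecidableEq V] in
theorem Gadj.bar_bar {p q : V × Bool} (h : Gadj E y Q p q) : Gadj E y Q (bar p) (bar q) := by
  obtain ⟨h1, h2⟩ := h
  refine ⟨h1, ?_⟩
  rw [dd_bar_bar, dd_bar_bar]
  exact h2

omit [Fintype V] [DecidableEq V] in
theorem Gadj.not_bar {p q : V × Bool} (h : Gadj E y Q p q) : ¬ Gadj E y Q p (bar q) := by
  rintro ⟨h1, h2⟩
  obtain ⟨h3, h4⟩ := h
  rw [bar_fst, dd_bar_right, dd_bar_right] at h2
  linarith

omit [Fintype V] [DecidableEq V] in
theorem Gadj_or (hQ : GoodQ E y Q) {p q : V × Bool} (h : s(p.1, q.1) ∈ E) :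
    Gadj E y Q p q ∨ Gadj E y Q p (bar q) := by
  have h1 := (hQ _ h).2.2 p.1 q.1 rfl
  have h2 : dd (Q s(p.1, q.1)) p q ≠ dd y p q := by
    unfold dd
    split_ifs
    · exact h1
    · intro h
      apply h1
      linarith
  rcases lt_or_gt_of_ne h2 with h3 | h3
  · right
    refine ⟨h, ?_⟩
    rw [bar_fst, dd_bar_right, dd_bar_right]
    linarith
  · left
    exact ⟨h, h3⟩

/-- Steps of tight chains are steps of the graph. -/
theorem Tight.gadj0 (H : Core E y) (hQ : GoodQ E y Q) (h : Tight E y k c) (hk : 3 ≤ k) :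
    Gadj E y Q (c 0) (c 1) := by
  have he := h.edge 0
  rw [zero_add] at he
  obtain ⟨hq, hag, hne⟩ := hQ _ he
  set q := Q s((c 0).1, (c 1).1) with hqdef
  have hqM := CUT_subset hq
  have h1 : ∀ i ∈ Finset.range (k - 1), dd q (c (i + 1)) (c (i + 1 + 1)) =
      dd y (c (i + 1)) (c (i + 1 + 1)) := by
    intro i hi
    rw [Finset.mem_range] at hi
    apply dd_congr
    apply hag _ _ (h.edge (i + 1))
    have := h.edge_ne H hk (i := 0) (j := i + 1) (by omega) (by omega)
    rw [zero_add] at this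
    exact this.symm
  have h2 := dd_le_sum hqM c 0 k
  simp only [zero_add] at h2
  have h3 : c k = bar (c 0) := by
    have := h.anti 0
    rwa [zero_add] at this
  rw [h3, dd_bar_self hqM] at h2
  have hk1 : k = (k - 1) + 1 := by omega
  have h4 := h.sum
  rw [hk1, Finset.sum_range_succ'] at h2 h4
  rw [Finset.sum_congr rfl h1] at h2
  simp only [zero_add] at h2 h4
  have h5 : dd y (c 0) (c 1) ≤ dd q (c 0) (c 1) := by linarith
  refine ⟨he, lt_of_le_of_ne h5 ?_⟩
  intro heq
  apply hne _ _ rfl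
  unfold dd at heq
  split_ifs at heq
  · exact heq.symm
  · linarith

theorem Tight.gadj (H : Core E y) (hQ : GoodQ E y Q) (h : Tight E y k c) (hk : 3 ≤ k) (i : ℕ) :
    Gadj E y Q (c i) (c (i + 1)) := by
  have := (h.shiftN i).gadj0 H hQ hk
  simp only [zero_add] at this
  rwa [add_comm 1 i] at this

end tight

end Pool.Agent.TH524
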