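import Pool.Agent.TH524.Perturb

/-!
# Uniformity of the minimal configuration
-/

set_option autoImplicit false

open Set

namespace Pool.Agent.TH524

section uniform

variable {V : Type*}

/-- The sign of a point under a sign vector. -/
def sh (s : V → Bool) (p : V × Bool) : Bool := xor (s p.1) p.2

theorem sh_bar (s : V → Bool) (p : V × Bool) : sh s (bar p) = !sh s p := by
  unfold sh
  rw [bar_fst, bar_snd]
  cases s p.1 <;> cases p.2 <;> rfl

theorem dd_cutv' (s : V → Bool) (p q : V × Bool) :
    dd (cutv s) p q = if sh s p = sh s q then 0 else 1 := dd_cutv s p q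

/-- Products of signs. -/
theorem prod_pm {σ : Type*} (K : Finset σ) (f : σ → Bool) :
    (∏ s ∈ K, (if f s then (-1 : ℤ) else 1)) = 1 ∨
      (∏ s ∈ K, (if f s then (-1 : ℤ) else 1)) = -1 := by
  classical
  induction K using Finset.induction_on with
  | empty => simp
  | insert a K ha ih =>
    rw [Finset.prod_insert ha]
    rcases ih with ih | ih <;> rw [ih] <;> cases f a <;> simp

variable {E : Finset (Sym2 V)} {y : V → V → ℝ} {Q : Sym2 V → V → V → ℝ}

/-- The number of changes along a Boolean sequence. -/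
theorem odd_changes (b : ℕ → Bool) (k : ℕ) :
    Odd ((Finset.range k).filter (fun i => b i ≠ b (i + 1))).card ↔ b 0 ≠ b k := by
  induction k with
  | zero => simp
  | succ k ih =>
    rw [Finset.range_add_one, Finset.filter_insert]
    by_cases h : b k ≠ b (k + 1)
    · rw [if_pos h, Finset.card_insert_of_notMem (by simp), Nat.odd_add_one, ih]
      revert h
      cases b 0 <;> cases b k <;> cases b (k + 1) <;> simp
    · rw [if_neg h, ih]
      push Not at h
      rw [h]

theorem dd_weights {q : V → V → ℝ} [Fintype V] [DecidableEq V] {w : (V → Bool) → ℝ}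
    (hw1 : ∑ s, w s = 1)
    (hw : ∀ i j, q i j = ∑ s, w s * cutv s i j) (p p' : V × Bool) :
    dd q p p' = ∑ s, w s * dd (cutv s) p p' := by
  unfold dd
  split_ifs
  · exact hw _ _
  · rw [hw]
    simp only [mul_sub, mul_one, Finset.sum_sub_distrib, hw1]

variable [Fintype V] [DecidableEq V]

/-- Symmetric and bar-invariant functions are determined by the edge under a step. -/
theorem Gadj_inv (H : Core E y) (hQ : GoodQ E y Q) {α : Sort*} (F : V × Bool → V × Bool → α)
    (hF1 : ∀ p q, F p q = F q p) (hF2 : ∀ p q, F (bar p) (bar q) = F p q)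
    {p q p' q' : V × Bool} (h : Gadj E y Q p q) (h' : Gadj E y Q p' q')
    (he : s(p.1, q.1) = s(p'.1, q'.1)) : F p q = F p' q' := by
  have main : ∀ {p' q' : V × Bool}, Gadj E y Q p' q' → p.1 = p'.1 → q.1 = q'.1 →
      F p q = F p' q' := by
    intro p' q' h' h1 h2
    rcases eq_or_eq_bar h1 with rfl | rfl <;> rcases eq_or_eq_bar h2 with rfl | rfl
    · rfl
    · exact absurd h h'.not_bar
    · have := h.bar_bar
      rw [bar_bar] at this
      exact absurd this h'.not_bar
    · exact hF2 _ _
  rw [Sym2.eq_iff] at he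
  rcases he with ⟨h1, h2⟩ | ⟨h1, h2⟩
  · exact main h' h1 h2
  · rw [hF1 p' q']
    exact main (h'.symm H hQ) h1 h2

omit [Fintype V] [DecidableEq V] in
theorem Gadj.mem {p q : V × Bool} (h : Gadj E y Q p q) : s(p.1, q.1) ∈ E := h.1

omit [Fintype V] [DecidableEq V] in
/-- Representatives of the edges. -/
theorem exists_rep (hQ : GoodQ E y Q) (e : E) :
    ∃ p q : V × Bool, s(p.1, q.1) = e.1 ∧ Gadj E y Q p q := by
  obtain ⟨e, he⟩ := e
  induction e using Sym2.ind with
  | _ i j =>
    rcases Gadj_or hQ (p := (i, false)) (q := (j, false)) he with h | h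
    · exact ⟨_, _, rfl, h⟩
    · exact ⟨_, _, rfl, h⟩

/-- The edge set of a tight chain. -/
def Tight.edges {k : ℕ} {c : ℕ → V × Bool} (h : Tight E y k c) : Finset E :=
  (Finset.range k).image (fun i => (⟨s((c i).1, (c (i + 1)).1), h.edge i⟩ : E))

theorem Tight.inj (H : Core E y) {k : ℕ} {c : ℕ → V × Bool} (h : Tight E y k c) (hk : 3 ≤ k) :
    Set.InjOn (fun i => (⟨s((c i).1, (c (i + 1)).1), h.edge i⟩ : E)) (Finset.range k) := by
  intro i hi j hj hij
  simp only [Finset.coe_range, Set.mem_Iio] at hi hj
  have h1 := congrArg Subtype.val hij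
  simp only at h1
  rcases lt_trichotomy i j with h2 | h2 | h2
  · exact absurd h1 (h.edge_ne H hk h2 (by omega))
  · exact h2
  · exact absurd h1.symm (h.edge_ne H hk h2 (by omega))

theorem Tight.card_edges (H : Core E y) {k : ℕ} {c : ℕ → V × Bool} (h : Tight E y k c)
    (hk : 3 ≤ k) : h.edges.card = k := by
  unfold Tight.edges
  rw [Finset.card_image_of_injOn (h.inj H hk), Finset.card_range]

theorem Tight.sum_edges (H : Core E y) {k : ℕ} {c : ℕ → V × Bool} (h : Tight E y k c)
    (hk : 3 ≤ k) (g : E → ℝ) : ∑ e ∈ h.edges, g e =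
      ∑ i ∈ Finset.range k, g ⟨s((c i).1, (c (i + 1)).1), h.edge i⟩ := by
  unfold Tight.edges
  rw [Finset.sum_image (h.inj H hk)]

/-- Tight chains have at most half as many edges as `E`. -/
theorem Tight.two_mul_le (H : Core E y) {k : ℕ} {c : ℕ → V × Bool} (h : Tight E y k c) :
    2 * k ≤ E.card := by
  classical
  obtain ⟨G, hadj⟩ : ∃ G : SimpleGraph V, ∀ i j, G.Adj i j ↔ s(i, j) ∈ E := by
    refine ⟨SimpleGraph.fromEdgeSet (E : Set (Sym2 V)), ?_⟩
    intro i j
    rw [SimpleGraph.fromEdgeSet_adj]
    constructor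
    · exact fun h => h.1
    · intro h
      exact ⟨h, H.ne_base (p := (i, false)) (q := (j, false)) h⟩
  have hdeg : ∀ i, G.degree i = (Finset.univ.filter (fun k => s(i, k) ∈ E)).card := by
    intro i
    rw [← SimpleGraph.card_neighborFinset_eq_degree]
    congr 1
    ext j
    simp [hadj]
  have hsum : ∑ v, G.degree v = 2 * E.card := by
    rw [G.sum_degrees_eq_twice_card_edges]
    congr 2
    ext e
    induction e using Sym2.ind with
    | _ i j => rw [SimpleGraph.mem_edgeFinset, SimpleGraph.mem_edgeSet, hadj]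
  have hinj : Set.InjOn (fun i => (c i).1) (Finset.range k) := by
    intro i hi j hj hij
    simp only [Finset.coe_range, Set.mem_Iio] at hi hj
    simp only at hij
    rcases lt_trichotomy i j with h2 | h2 | h2
    · have := h.base_ne H i (j := j - i) (by omega) (by omega)
      rw [Nat.add_sub_cancel' h2.le] at this
      exact absurd hij this
    · exact h2
    · have := h.base_ne H j (j := i - j) (by omega) (by omega)
      rw [Nat.add_sub_cancel' h2.le] at this
      exact absurd hij.symm this
  have h1 : ∑ v ∈ (Finset.range k).image (fun i => (c i).1), G.degree v ≤ ∑ v, G.degree v :=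
    Finset.sum_le_sum_of_subset (Finset.subset_univ _)
  rw [Finset.sum_image hinj] at h1
  have h2 : ∑ i ∈ Finset.range k, 4 ≤ ∑ i ∈ Finset.range k, G.degree (c i).1 := by
    apply Finset.sum_le_sum
    intro i _
    rw [hdeg]
    exact H.deg _ _ (h.edge i)
  rw [Finset.sum_const, Finset.card_range, smul_eq_mul] at h2
  omega

/-- Uniformity. -/
theorem uniform (H : Core E y) (hQ : GoodQ E y Q) :
    ∃ r : ℕ, 3 ≤ r ∧ (∃ c, Tight E y r c) ∧
      (∀ p q, Gadj E y Q p q → dd y p q = 1 / r) ∧
      (∃ χ : V × Bool → ℤ, (∀ p, χ p = 1 ∨ χ p = -1) ∧ (∀ p, χ (bar p) = (-1) ^ r * χ p) ∧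
        (∀ p q, Gadj E y Q p q → χ q = - χ p)) ∧
      (∀ e : E, ∃ A : Finset (Finset E), A.card = r ∧
        ∀ C ∈ A, e ∈ C ∧ ∃ (c : ℕ → V × Bool) (h : Tight E y r c), C = h.edges) := by
  classical
  choose rp rq hre hrG using exists_rep (E := E) (y := y) (Q := Q) hQ
  have hNE : Nonempty E := by
    obtain ⟨e, he⟩ := H.ne
    exact ⟨⟨e, he⟩⟩
  -- invariance
  have hinv : ∀ {α : Type} (F : V × Bool → V × Bool → α) (_ : ∀ p q, F p q = F q p)
      (_ : ∀ p q, F (bar p) (bar q) = F p q) (p q : V × Bool) (h : Gadj E y Q p q),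
      F (rp ⟨s(p.1, q.1), h.mem⟩) (rq ⟨s(p.1, q.1), h.mem⟩) = F p q := by
    intro α F hF1 hF2 p q h
    exact Gadj_inv H hQ F hF1 hF2 (hrG _) h (hre _)
  set u : E → ℝ := fun e => dd y (rp e) (rq e) with hu
  set B : (V → Bool) → Finset E := fun s =>
    Finset.univ.filter (fun e => sh s (rp e) ≠ sh s (rq e)) with hB
  set Cs : Set (Finset E) := {C | ∃ (k : ℕ) (c : ℕ → V × Bool) (_ : 3 ≤ k)
    (h : Tight E y k c), C = h.edges} with hCs
  have hBmem : ∀ s (p q : V × Bool) (h : Gadj E y Q p q),
      (⟨s(p.1, q.1), h.mem⟩ : E) ∈ B s ↔ sh s p ≠ sh s q := by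
    intro s p q h
    simp only [hB, Finset.mem_filter, Finset.mem_univ, true_and]
    have := hinv (fun p q => xor (sh s p) (sh s q)) (by
      intro p q; exact Bool.xor_comm _ _) (by
      intro p q
      simp only [sh_bar]
      cases sh s p <;> cases sh s q <;> rfl) p q h
    revert this
    cases sh s (rp ⟨s(p.1, q.1), h.mem⟩) <;> cases sh s (rq ⟨s(p.1, q.1), h.mem⟩) <;>
      cases sh s p <;> cases sh s q <;> simp
  have huval : ∀ (p q : V × Bool) (h : Gadj E y Q p q), u ⟨s(p.1, q.1), h.mem⟩ = dd y p q := by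
    intro p q h
    exact hinv (fun p q => dd y p q) (dd_symm H.mem) (dd_bar_bar y) p q h
  obtain ⟨r, hr1, hr2, hr3⟩ := lehman (β := V → Bool) Cs B u
    (by
      intro e
      have : s((rp e).1, (rq e).1) ∈ E := by rw [hre]; exact e.2
      exact (H.dd_pos this).1)
    (by
      rintro C ⟨k, c, hk, h, rfl⟩
      rw [h.sum_edges H hk]
      rw [← h.sum]
      apply Finset.sum_congr rfl
      intro i _
      exact huval _ _ (h.gadj H hQ hk i))
    (by
      rintro C ⟨k, c, hk, h, rfl⟩ s
      have h1 : (B s ∩ h.edges).card =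
          ((Finset.range k).filter (fun i => sh s (c i) ≠ sh s (c (i + 1)))).card := by
        have h2 : B s ∩ h.edges = ((Finset.range k).filter
            (fun i => sh s (c i) ≠ sh s (c (i + 1)))).image
            (fun i => (⟨s((c i).1, (c (i + 1)).1), h.edge i⟩ : E)) := by
          ext e
          simp only [Finset.mem_inter, Tight.edges, Finset.mem_image, Finset.mem_filter]
          constructor
          · rintro ⟨heB, i, hi, rfl⟩
            exact ⟨i, ⟨hi, (hBmem s _ _ (h.gadj H hQ hk i)).mp heB⟩, rfl⟩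
          · rintro ⟨i, ⟨hi, hne⟩, rfl⟩
            exact ⟨(hBmem s _ _ (h.gadj H hQ hk i)).mpr hne, i, hi, rfl⟩
        rw [h2, Finset.card_image_of_injOn]
        exact (h.inj H hk).mono (by
          intro i hi
          exact (Finset.mem_filter.mp hi).1)
      rw [h1]
      refine (odd_changes (fun i => sh s (c i)) k).mpr ?_
      have := h.anti 0
      rw [zero_add] at this
      rw [this, sh_bar]
      cases sh s (c 0) <;> simp)
    (by
      intro w hw
      -- the direction
      let d : V → V → ℝ := fun i j => if h : s(i, j) ∈ E then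
        (if Gadj E y Q (i, false) (j, false) then w ⟨_, h⟩ else - w ⟨_, h⟩) else 0
      have hdval : ∀ i j (h : s(i, j) ∈ E), d i j =
        (if Gadj E y Q (i, false) (j, false) then w ⟨_, h⟩ else - w ⟨_, h⟩) := by
        intro i j h
        simp only [d]
        rw [dif_pos h]
      have hd : ∀ i j, d i j = d j i := by
        intro i j
        by_cases h : s(i, j) ∈ E
        · have h' : s(j, i) ∈ E := by rw [Sym2.eq_swap]; exact h
          have he : (⟨s(i, j), h⟩ : E) = ⟨s(j, i), h'⟩ := Subtype.ext Sym2.eq_swap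
          rw [hdval i j h, hdval j i h', he]
          by_cases hG : Gadj E y Q (i, false) (j, false)
          · rw [if_pos hG, if_pos (hG.symm H hQ)]
          · rw [if_neg hG, if_neg (fun hG' => hG (hG'.symm H hQ))]
        · have h' : s(j, i) ∉ E := by rw [Sym2.eq_swap]; exact h
          simp only [d]
          rw [dif_neg h, dif_neg h']
      have hdlt : ∀ (p q : V × Bool) (h : Gadj E y Q p q), dlt d p q = w ⟨s(p.1, q.1), h.mem⟩ := by
        rintro ⟨i, a⟩ ⟨j, b⟩ h
        have h1 : s(i, j) ∈ E := h.1
        simp only [dlt]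
        by_cases hab : a = b
        · subst hab
          rw [if_pos rfl, hdval i j h1, if_pos]
          cases a
          · exact h
          · exact h.bar_bar
        · rw [if_neg hab, hdval i j h1, if_neg, neg_neg]
          intro hG
          cases a <;> cases b
          · exact hab rfl
          · exact hG.not_bar h
          · exact hG.not_bar h.bar_bar
          · exact hab rfl
      have h0 := perturb H d hd (by
        intro k c hk h
        have := hw h.edges ⟨k, c, hk, h, rfl⟩
        rw [h.sum_edges H hk] at this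
        rw [← this]
        apply Finset.sum_congr rfl
        intro i _
        exact hdlt _ _ (h.gadj H hQ hk i))
      funext e
      obtain ⟨e, he⟩ := e
      induction e using Sym2.ind with
      | _ i j =>
        have := h0 i j he
        rw [hdval i j he] at this
        split_ifs at this
        · exact this
        · exact neg_eq_zero.mp this)
    (by
      intro e
      obtain ⟨hq, hag, -⟩ := hQ e.1 e.2
      obtain ⟨w, hw0, hw1, hw⟩ := exists_weights hq
      refine ⟨w, hw0, hw1, ?_⟩
      intro f hf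
      have h1 : ∀ s, (if f ∈ B s then w s else 0) = w s * dd (cutv s) (rp f) (rq f) := by
        intro s
        rw [dd_cutv']
        simp only [hB, Finset.mem_filter, Finset.mem_univ, true_and]
        by_cases h : sh s (rp f) = sh s (rq f)
        · rw [if_neg (not_not.mpr h), if_pos h, mul_zero]
        · rw [if_pos h, if_neg h, mul_one]
      rw [Finset.sum_congr rfl (fun s _ => h1 s), ← dd_weights hw1 hw]
      apply dd_congr
      have hfE : s((rp f).1, (rq f).1) ∈ E := by rw [hre]; exact f.2
      apply hag _ _ hfE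
      rw [hre]
      intro h
      exact hf (Subtype.ext h))
    (by
      rintro C ⟨k, c, hk, h, rfl⟩
      rw [h.card_edges H hk, Fintype.card_coe]
      exact h.two_mul_le H)
  -- consequences
  have hA : ∀ e : E, ∃ A : Finset (Finset E), A.card = r ∧
        ∀ C ∈ A, e ∈ C ∧ ∃ (k : ℕ) (c : ℕ → V × Bool) (_ : 3 ≤ k) (h : Tight E y k c),
          C = h.edges := by
    intro e
    obtain ⟨A, hA1, hA2⟩ := (hr3 e).2
    refine ⟨A, hA2, fun C hC => ⟨(hA1 C hC).2, ?_⟩⟩
    exact (hA1 C hC).1
  have hkr : ∀ (k : ℕ) (c : ℕ → V × Bool) (hk : 3 ≤ k) (h : Tight E y k c), k = r := by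
    intro k c hk h
    rw [← hr1 h.edges ⟨k, c, hk, h, rfl⟩, h.card_edges H hk]
  obtain ⟨e0⟩ := hNE
  -- `r` is positive since `u` is positive
  have hu0 : 0 < u e0 := by
    have : s((rp e0).1, (rq e0).1) ∈ E := by rw [hre]; exact e0.2
    exact (H.dd_pos this).1
  have hrpos : 0 < r := by
    rcases Nat.eq_zero_or_pos r with h | h
    · rw [hr2 e0, h] at hu0
      simp at hu0
    · exact h
  obtain ⟨A0, hA0, hA0'⟩ := hA e0
  obtain ⟨C0, hC0⟩ : A0.Nonempty := by
    rw [← Finset.card_pos, hA0]; exact hrpos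
  obtain ⟨-, k0, c0, hk0, h0, -⟩ := hA0' C0 hC0
  have hk0r := hkr k0 c0 hk0 h0
  subst hk0r
  refine ⟨k0, hk0, ⟨c0, h0⟩, ?_, ?_, ?_⟩
  · intro p q h
    rw [← huval p q h, hr2]
  · obtain ⟨K, hK1, hK2, hK3⟩ := (hr3 e0).1
    refine ⟨fun p => ∏ s ∈ K, (if sh s p then (-1 : ℤ) else 1), ?_, ?_, ?_⟩
    · intro p
      exact prod_pm K (fun s => sh s p)
    · intro p
      simp only
      rw [← hK1, ← Finset.prod_const, ← Finset.prod_mul_distrib]
      apply Finset.prod_congr rfl
      intro s _
      rw [sh_bar]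
      cases sh s p <;> simp
    · intro p q h
      have hodd : Odd (K.filter (fun s => sh s p ≠ sh s q)).card := by
        have h1 : K.filter (fun s => sh s p ≠ sh s q) =
            K.filter (fun s => (⟨s(p.1, q.1), h.mem⟩ : E) ∈ B s) := by
          apply Finset.filter_congr
          intro s _
          exact (hBmem s p q h).symm
        rw [h1]
        by_cases hf : (⟨s(p.1, q.1), h.mem⟩ : E) = e0
        · rw [hf]; exact hK3
        · rw [hK2 _ hf]; exact odd_one
      have hprod : (∏ s ∈ K, (if sh s p then (-1 : ℤ) else 1)) *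
          (∏ s ∈ K, (if sh s q then (-1 : ℤ) else 1)) = -1 := by
        rw [← Finset.prod_mul_distrib]
        have h2 : ∀ s ∈ K, (if sh s p then (-1 : ℤ) else 1) * (if sh s q then (-1 : ℤ) else 1) =
            if sh s p ≠ sh s q then (-1 : ℤ) else 1 := by
          intro s _
          cases sh s p <;> cases sh s q <;> simp
        rw [Finset.prod_congr rfl h2, Finset.prod_ite, Finset.prod_const, Finset.prod_const_one,
          mul_one, hodd.neg_one_pow]
      show (∏ s ∈ K, (if sh s q then (-1 : ℤ) else 1)) =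
        - (∏ s ∈ K, (if sh s p then (-1 : ℤ) else 1))
      rcases prod_pm K (fun s => sh s p) with h3 | h3 <;> rw [h3] at hprod ⊢ <;> linarith
  · intro e
    obtain ⟨A, hA1, hA2⟩ := hA e
    refine ⟨A, hA1, fun C hC => ⟨(hA2 C hC).1, ?_⟩⟩
    obtain ⟨k, c, hk, h, hCe⟩ := (hA2 C hC).2
    have := hkr k c hk h
    subst this
    exact ⟨c, h, hCe⟩

end uniform

end Pool.Agent.TH524
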